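import Pool.Agent.Helper66.OTR.Gsp

/-!
# Normalizing elements and their generalized eigenspaces
-/

namespace Pool.Agent.Helper66.OTR

open LinearMap Module.End

set_option linter.unusedSectionVars false

variable {K V : Type*} [Field K] [AddCommGroup V] [Module K V] [FiniteDimensional K V]

/-- conjugation by `γ` -/
def cj (γ : V ≃ₗ[K] V) : Module.End K (Module.End K V) where
  toFun X := (γ : V →ₗ[K] V) ∘ₗ X ∘ₗ (γ.symm : V →ₗ[K] V)
  map_add' X Y := by ext x; simp
  map_smul' c X := by ext x; simp

lemma cj_apply (γ : V ≃ₗ[K] V) (X : Module.End K V) (x : V) :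
    cj γ X x = γ (X (γ.symm x)) := rfl

lemma cj_apply' (γ : V ≃ₗ[K] V) (X : Module.End K V) (x : V) :
    cj γ X (γ x) = γ (X x) := by rw [cj_apply, LinearEquiv.symm_apply_apply]

/-- the generalized eigenspace -/
abbrev ge (γ : V ≃ₗ[K] V) (ν : K) : Submodule K V :=
  Module.End.maxGenEigenspace (γ : Module.End K V) ν

lemma mem_of_sub {W : Type*} [AddCommGroup W] [Module K W] {f : Module.End K W} {ν : K} {x : W}
    (h : f x - ν • x ∈ f.maxGenEigenspace ν) : x ∈ f.maxGenEigenspace ν := by
  rw [mem_maxGenEigenspace] at h ⊢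
  obtain ⟨k, hk⟩ := h
  refine ⟨k + 1, ?_⟩
  rw [pow_succ, Module.End.mul_apply]
  exact hk

lemma pow_step {W : Type*} [AddCommGroup W] [Module K W] {f : Module.End K W} {ν : K} {x : W}
    {k : ℕ} (h : ((f - ν • (1 : Module.End K W)) ^ (k + 1)) x = 0) :
    ((f - ν • (1 : Module.End K W)) ^ k) (f x - ν • x) = 0 := by
  rw [pow_succ, Module.End.mul_apply] at h
  exact h

lemma pow_app {W : Type*} [AddCommGroup W] [Module K W] {f : Module.End K W} {ν : K} {x : W}
    {k : ℕ} (h : ((f - ν • (1 : Module.End K W)) ^ k) x = 0) :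
    ((f - ν • (1 : Module.End K W)) ^ k) (f x) = 0 := by
  have hc : Commute ((f - ν • (1 : Module.End K W)) ^ k) f := by
    apply Commute.pow_left
    apply Commute.sub_left (Commute.refl f)
    exact (Commute.one_left f).smul_left ν
  have := congrArg (fun g => g x) hc.eq
  simp only [Module.End.mul_apply] at this
  rw [this, h, map_zero]

/-- homogeneous elements map generalized eigenspaces to generalized eigenspaces -/
lemma map_gen {γ : V ≃ₗ[K] V} {μ ν : K} {Z : Module.End K V} {x : V}
    (hZ : Z ∈ (cj γ).maxGenEigenspace μ) (hx : x ∈ ge γ ν) : Z x ∈ ge γ (μ * ν) := by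
  rw [mem_maxGenEigenspace] at hZ hx
  obtain ⟨a, ha⟩ := hZ
  obtain ⟨b, hb⟩ := hx
  have key : ∀ n a b : ℕ, a + b ≤ n → ∀ (Z : Module.End K V) (x : V),
      ((cj γ - μ • (1 : Module.End K (Module.End K V))) ^ a) Z = 0 →
      (((γ : Module.End K V) - ν • (1 : Module.End K V)) ^ b) x = 0 → Z x ∈ ge γ (μ * ν) := by
    intro n
    induction n with
    | zero =>
      intro a b hab Z x hZ _
      obtain rfl : a = 0 := by omega
      have : Z = 0 := by simpa using hZ
      rw [this, LinearMap.zero_apply]
      exact Submodule.zero_mem _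
    | succ n ih =>
      intro a b hab Z x hZ hx
      rcases a with _ | a
      · have : Z = 0 := by simpa using hZ
        rw [this, LinearMap.zero_apply]
        exact Submodule.zero_mem _
      rcases b with _ | b
      · have : x = 0 := by simpa using hx
        rw [this, map_zero]
        exact Submodule.zero_mem _
      apply mem_of_sub
      have e : (γ : Module.End K V) (Z x) - (μ * ν) • Z x =
          (cj γ Z - μ • Z) (γ x) + μ • Z ((γ : Module.End K V) x - ν • x) := by
        rw [LinearMap.sub_apply, cj_apply', LinearMap.smul_apply, map_sub, map_smul]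
        simp only [LinearEquiv.coe_coe]
        module
      rw [e]
      refine Submodule.add_mem _ (ih a (b + 1) (by omega) _ _ (pow_step hZ) (pow_app hx))
        (Submodule.smul_mem _ _ (ih (a + 1) b (by omega) _ _ hZ (pow_step hx)))
  exact key _ a b le_rfl Z x ha hb

/-- products of homogeneous elements -/
lemma mul_gen {γ : V ≃ₗ[K] V} {μ η : K} {Z Y : Module.End K V}
    (hZ : Z ∈ (cj γ).maxGenEigenspace μ) (hY : Y ∈ (cj γ).maxGenEigenspace η) :
    Z * Y ∈ (cj γ).maxGenEigenspace (μ * η) := by
  rw [mem_maxGenEigenspace] at hZ hY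
  obtain ⟨a, ha⟩ := hZ
  obtain ⟨b, hb⟩ := hY
  have key : ∀ n a b : ℕ, a + b ≤ n → ∀ (Z Y : Module.End K V),
      ((cj γ - μ • (1 : Module.End K (Module.End K V))) ^ a) Z = 0 →
      ((cj γ - η • (1 : Module.End K (Module.End K V))) ^ b) Y = 0 →
      Z * Y ∈ (cj γ).maxGenEigenspace (μ * η) := by
    intro n
    induction n with
    | zero =>
      intro a b hab Z Y hZ _
      obtain rfl : a = 0 := by omega
      have : Z = 0 := by simpa using hZ
      rw [this, zero_mul]
      exact Submodule.zero_mem _
    | succ n ih =>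
      intro a b hab Z Y hZ hY
      rcases a with _ | a
      · have : Z = 0 := by simpa using hZ
        rw [this, zero_mul]
        exact Submodule.zero_mem _
      rcases b with _ | b
      · have : Y = 0 := by simpa using hY
        rw [this, mul_zero]
        exact Submodule.zero_mem _
      apply mem_of_sub
      have e : cj γ (Z * Y) - (μ * η) • (Z * Y) =
          (cj γ Z - μ • Z) * cj γ Y + μ • (Z * (cj γ Y - η • Y)) := by
        have h1 : cj γ (Z * Y) = cj γ Z * cj γ Y := by
          ext x
          simp [cj_apply]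
        rw [h1]
        simp only [sub_mul, mul_sub, smul_mul_assoc, mul_smul_comm]
        module
      rw [e]
      exact Submodule.add_mem _ (ih a (b + 1) (by omega) _ _ (pow_step hZ) (pow_app hY))
        (Submodule.smul_mem _ _ (ih (a + 1) b (by omega) _ _ hZ (pow_step hY)))
  exact key _ a b le_rfl Z Y ha hb

/-- orthogonality of generalized eigenspaces of a similitude -/
lemma orth_gen {ψ : LinearMap.BilinForm K V} {γ : V ≃ₗ[K] V} {c : K}
    (hγ : ∀ x y, ψ (γ x) (γ y) = c * ψ x y) {ν ν' : K} (hne : ν * ν' ≠ c) {x y : V}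
    (hx : x ∈ ge γ ν) (hy : y ∈ ge γ ν') : ψ x y = 0 := by
  rw [mem_maxGenEigenspace] at hx hy
  obtain ⟨a, ha⟩ := hx
  obtain ⟨b, hb⟩ := hy
  have key : ∀ n a b : ℕ, a + b ≤ n → ∀ (x y : V),
      (((γ : Module.End K V) - ν • (1 : Module.End K V)) ^ a) x = 0 →
      (((γ : Module.End K V) - ν' • (1 : Module.End K V)) ^ b) y = 0 → ψ x y = 0 := by
    intro n
    induction n with
    | zero =>
      intro a b hab x y hx _
      obtain rfl : a = 0 := by omega
      have : x = 0 := by simpa using hx
      rw [this, map_zero, LinearMap.zero_apply]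
    | succ n ih =>
      intro a b hab x y hx hy
      rcases a with _ | a
      · have : x = 0 := by simpa using hx
        rw [this, map_zero, LinearMap.zero_apply]
      rcases b with _ | b
      · have : y = 0 := by simpa using hy
        rw [this, map_zero]
      have h1 := ih a (b + 1) (by omega) _ _ (pow_step hx) hy
      have h2 := ih (a + 1) b (by omega) _ _ hx (pow_step hy)
      have h3 := ih a b (by omega) _ _ (pow_step hx) (pow_step hy)
      have h4 := hγ x y
      simp only [LinearEquiv.coe_coe, map_sub, map_smul, LinearMap.sub_apply, LinearMap.smul_apply,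
        smul_eq_mul] at h1 h2 h3
      have h5 : (c - ν * ν') * ψ x y = 0 := by
        linear_combination (-1) * h4 + h3 + ν' * h1 + ν * h2
      rcases mul_eq_zero.1 h5 with h6 | h6
      · exact absurd (sub_eq_zero.1 h6).symm hne
      · exact h6
  exact key _ a b le_rfl x y ha hb

/-- an eigenvalue of an automorphism is nonzero -/
lemma ge_zero {γ : V ≃ₗ[K] V} {x : V} (hx : x ∈ ge γ 0) : x = 0 := by
  rw [mem_maxGenEigenspace] at hx
  obtain ⟨k, hk⟩ := hx
  rw [zero_smul, sub_zero] at hk
  induction k with
  | zero => simpa using hk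
  | succ k ih =>
    apply ih
    rw [pow_succ', Module.End.mul_apply] at hk
    exact γ.injective (by rw [map_zero]; exact hk)

/-- decomposition in homogeneous elements -/
lemma hom_induction [IsAlgClosed K] {γ : V ≃ₗ[K] V} {s : Submodule K (Module.End K V)}
    (hs : ∀ X ∈ s, cj γ X ∈ s) {p : Module.End K V → Prop} (h0 : p 0)
    (hadd : ∀ X Y, p X → p Y → p (X + Y))
    (hh : ∀ (μ : K), ∀ Z ∈ s, Z ∈ (cj γ).maxGenEigenspace μ → p Z) {X : Module.End K V}
    (hX : X ∈ s) : p X := by
  have h1 := Submodule.eq_iSup_inf_genEigenspace (p := s) (f := cj γ) ⊤ hs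
    (iSup_maxGenEigenspace_eq_top _)
  rw [h1] at hX
  refine Submodule.iSup_induction (motive := p) _ hX ?_ h0 hadd
  rintro μ Z ⟨hZ, hZ'⟩
  exact hh μ Z hZ hZ'

lemma vec_induction [IsAlgClosed K] {γ : V ≃ₗ[K] V} {p : V → Prop} (h0 : p 0)
    (hadd : ∀ x y, p x → p y → p (x + y)) (hh : ∀ (ν : K), ∀ x ∈ ge γ ν, p x) (x : V) : p x := by
  have h1 := iSup_maxGenEigenspace_eq_top (γ : Module.End K V)
  have hx : x ∈ ⨆ μ, ge γ μ := by rw [h1]; trivial
  exact Submodule.iSup_induction (motive := p) _ hx hh h0 hadd

/-- homogeneous elements for the eigenvalue zero vanish -/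
lemma hom_zero [IsAlgClosed K] {γ : V ≃ₗ[K] V} {Z : Module.End K V}
    (hZ : Z ∈ (cj γ).maxGenEigenspace 0) : Z = 0 := by
  ext x
  rw [LinearMap.zero_apply]
  refine vec_induction (γ := γ) (p := fun x => Z x = 0) (map_zero _)
    (fun x y hx hy => by rw [map_add, hx, hy, add_zero]) (fun ν x hx => ?_) x
  have := map_gen hZ hx
  rw [zero_mul] at this
  exact ge_zero this

lemma hasEigenvalue_of_ge {γ : V ≃ₗ[K] V} {ν : K} {x : V} (hx : x ∈ ge γ ν) (hx0 : x ≠ 0) :
    Module.End.HasEigenvalue (γ : Module.End K V) ν := by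
  rw [mem_maxGenEigenspace] at hx
  obtain ⟨k, hk⟩ := hx
  induction k generalizing x with
  | zero => exact absurd (by simpa using hk) hx0
  | succ k ih =>
    by_cases h : (γ : Module.End K V) x - ν • x = 0
    · rw [Module.End.hasEigenvalue_iff]
      intro h0
      have : x ∈ Module.End.eigenspace (γ : Module.End K V) ν := by
        rw [Module.End.mem_eigenspace_iff]
        exact sub_eq_zero.1 h
      rw [h0] at this
      exact hx0 this
    · exact ih h (pow_step hk)

end Pool.Agent.Helper66.OTR
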