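import Pool.Agent.Helper66.OTR.Grad

/-!
# Elements supported near a line, and the symplectic part of a normalizing similitude
-/

namespace Pool.Agent.Helper66.OTR

open LinearMap Module.End

set_option linter.unusedSectionVars false

variable {K V : Type*} [Field K] [AddCommGroup V] [Module K V] [FiniteDimensional K V]

namespace Setup

variable {ψ : LinearMap.BilinForm K V} {s : Submodule K (Module.End K V)}
variable [CharZero K] [IsAlgClosed K]

/-- a nonzero element of `s` which kills `l` and maps the orthogonal of `l` to the line of `l` -/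
theorem line (S : Setup ψ s) {Z : Module.End K V} (hZ : Z ∈ s) (hZ0 : Z ≠ 0) {l : V}
    (hl : Z l = 0) (hperp : ∀ x, ψ l x = 0 → ∃ β : K, Z x = β • l) {X : Module.End K V}
    (hX : ∀ x y, ψ (X x) y = - ψ x (X y)) : X ∈ s := by
  have hl0 : l ≠ 0 := by
    rintro rfl
    apply hZ0
    ext x
    obtain ⟨β, hβ⟩ := hperp x (by simp)
    rw [hβ, smul_zero, LinearMap.zero_apply]
  obtain ⟨m, hm⟩ := S.exists_ne hl0
  have hdec : ∀ x, ∃ β : K, Z x = (ψ l x / ψ l m) • Z m + β • l := by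
    intro x
    obtain ⟨β, hβ⟩ := hperp (x - (ψ l x / ψ l m) • m) (by
      rw [map_sub, map_smul, smul_eq_mul, div_mul_cancel₀ _ hm, sub_self])
    refine ⟨β, ?_⟩
    rw [map_sub, map_smul] at hβ
    rw [← hβ]; module
  -- `Z² = 0`
  have hperp2 : ∀ x, ψ l (Z x) = 0 := by
    intro x
    have := S.sp Z hZ l x
    rw [hl, map_zero, LinearMap.zero_apply] at this
    exact neg_eq_zero.1 this.symm
  have hZZm : Z (Z m) = 0 := by
    obtain ⟨β, hβ⟩ := hperp (Z m) (hperp2 m)
    have h1 := S.sp Z hZ (Z m) m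
    rw [S.alt, neg_zero, hβ, map_smul, LinearMap.smul_apply, smul_eq_mul] at h1
    rcases mul_eq_zero.1 h1 with h2 | h2
    · rw [hβ, h2, zero_smul]
    · exact absurd h2 hm
  have hZZ : Z * Z = 0 := by
    ext x
    obtain ⟨β, hβ⟩ := hdec x
    rw [Module.End.mul_apply, hβ, map_add, map_smul, map_smul, hZZm, hl, smul_zero, smul_zero,
      add_zero, LinearMap.zero_apply]
  -- rank
  have hr : LinearMap.range Z ≤ Submodule.span K {Z m, l} := by
    rintro _ ⟨x, rfl⟩
    obtain ⟨β, hβ⟩ := hdec x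
    rw [Submodule.mem_span_pair]
    exact ⟨_, _, hβ.symm⟩
  have h1 : Module.finrank K (LinearMap.range Z) ≤ 2 := by
    classical
    refine (Submodule.finrank_mono hr).trans ?_
    have h2 := finrank_span_finset_le_card (R := K) ({Z m, l} : Finset V)
    rw [Finset.coe_pair] at h2
    exact h2.trans Finset.card_le_two
  have h0 : Module.finrank K (LinearMap.range Z) ≠ 0 := by
    intro h
    rw [Submodule.finrank_eq_zero, LinearMap.range_eq_bot] at h
    exact hZ0 h
  rcases (by omega : Module.finrank K (LinearMap.range Z) = 1 ∨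
    Module.finrank K (LinearMap.range Z) = 2) with h | h
  · exact S.rank_one hZ h hX
  · exact S.rank_two hZ hZZ h hX

end Setup

/-- a pair of dual simple eigenvectors of a similitude -/
structure Pair (ψ : LinearMap.BilinForm K V) (γ : V ≃ₗ[K] V) (c ζ ζ' : K) (l l' : V) : Prop where
  sim : ∀ x y, ψ (γ x) (γ y) = c * ψ x y
  hl : l ∈ ge γ ζ
  hl' : l' ∈ ge γ ζ'
  line : ∀ x ∈ ge γ ζ, ∃ κ : K, x = κ • l
  line' : ∀ x ∈ ge γ ζ', ∃ κ : K, x = κ • l'
  pair : ψ l l' ≠ 0
  mul : ζ * ζ' = c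
  hζ : ζ ≠ 0
  hζ' : ζ' ≠ 0

namespace Pair

variable {ψ : LinearMap.BilinForm K V} {γ : V ≃ₗ[K] V} {c ζ ζ' : K} {l l' : V}

lemma symm (P : Pair ψ γ c ζ ζ' l l') (hneg : ∀ x y, ψ x y = - ψ y x) :
    Pair ψ γ c ζ' ζ l' l :=
  ⟨P.sim, P.hl', P.hl, P.line', P.line, by rw [hneg]; exact neg_ne_zero.2 P.pair,
    by rw [mul_comm]; exact P.mul, P.hζ', P.hζ⟩

lemma l_ne (P : Pair ψ γ c ζ ζ' l l') : l ≠ 0 := by
  rintro rfl
  exact P.pair (by simp)

lemma l'_ne (P : Pair ψ γ c ζ ζ' l l') : l' ≠ 0 := by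
  rintro rfl
  exact P.pair (by simp)

end Pair

namespace Setup

variable {ψ : LinearMap.BilinForm K V} {s : Submodule K (Module.End K V)}
variable {γ : V ≃ₗ[K] V} {c ζ ζ' : K} {l l' : V}
variable [CharZero K] [IsAlgClosed K]

/-- a simple eigenvalue gives a pair -/
lemma exists_pair (S : Setup ψ s) (sim : ∀ x y, ψ (γ x) (γ y) = c * ψ x y)
    (h1 : Module.finrank K (ge γ ζ) = 1) : ∃ l l', Pair ψ γ c ζ (c / ζ) l l' := by
  obtain ⟨⟨l, hl⟩, hl0, hline⟩ := finrank_eq_one_iff'.1 h1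
  have hl0' : l ≠ 0 := fun h => hl0 (Subtype.ext h)
  have line : ∀ x ∈ ge γ ζ, ∃ κ : K, x = κ • l := by
    intro x hx
    obtain ⟨κ, hκ⟩ := hline ⟨x, hx⟩
    exact ⟨κ, (congrArg Subtype.val hκ).symm⟩
  have hζ : ζ ≠ 0 := by
    rintro rfl
    exact hl0' (ge_zero hl)
  obtain ⟨m, hm⟩ := S.exists_ne hl0'
  have hc : c ≠ 0 := by
    rintro rfl
    have := sim (γ.symm l) (γ.symm m)
    rw [γ.apply_symm_apply, γ.apply_symm_apply, zero_mul] at this
    exact hm this
  have hζ' : c / ζ ≠ 0 := div_ne_zero hc hζ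
  have hmul : ζ * (c / ζ) = c := mul_div_cancel₀ c hζ
  -- `ψ l` is injective on the dual space
  have hinj : ∀ x ∈ ge γ (c / ζ), ψ l x = 0 → x = 0 := by
    intro x hx hlx
    by_contra hx0
    obtain ⟨y, hy⟩ := S.exists_ne hx0
    apply hy
    rw [S.neg, neg_eq_zero]
    refine vec_induction (γ := γ) (p := fun y => ψ y x = 0) (by simp)
      (fun a b ha hb => by rw [map_add, LinearMap.add_apply, ha, hb, add_zero])
      (fun ν y hy => ?_) y
    by_cases hν : ν * (c / ζ) = c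
    · have : ν = ζ := mul_right_cancel₀ hζ' (hν.trans hmul.symm)
      subst this
      obtain ⟨κ, rfl⟩ := line y hy
      rw [map_smul, LinearMap.smul_apply, hlx, smul_zero]
    · exact orth_gen sim hν hy hx
  obtain ⟨l', hl', hll'⟩ : ∃ l' ∈ ge γ (c / ζ), ψ l l' ≠ 0 := by
    by_contra hcon
    push Not at hcon
    apply hm
    refine vec_induction (γ := γ) (p := fun y => ψ l y = 0) (by simp)
      (fun a b ha hb => by rw [map_add, ha, hb, add_zero])
      (fun ν y hy => ?_) m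
    by_cases hν : ζ * ν = c
    · have : ν = c / ζ := mul_left_cancel₀ hζ (hν.trans hmul.symm)
      subst this
      exact hcon y hy
    · exact orth_gen sim hν hl hy
  refine ⟨l, l', sim, hl, hl', line, fun x hx => ?_, hll', hmul, hζ, hζ'⟩
  refine ⟨ψ l x / ψ l l', ?_⟩
  have := hinj (x - (ψ l x / ψ l l') • l') (Submodule.sub_mem _ hx (Submodule.smul_mem _ _ hl'))
    (by rw [map_sub, map_smul, smul_eq_mul, div_mul_cancel₀ _ hll', sub_self])
  exact sub_eq_zero.1 this

/-- a homogeneous element concentrated near `l` -/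
theorem homog (S : Setup ψ s) (P : Pair ψ γ c ζ ζ' l l') {Z : Module.End K V} (hZ : Z ∈ s)
    (hZ0 : Z ≠ 0) (h1 : Z l = 0)
    (h2 : ∀ ν, ν ≠ ζ → ν ≠ ζ' → ∀ x ∈ ge γ ν, ∃ β : K, Z x = β • l) {X : Module.End K V}
    (hX : ∀ x y, ψ (X x) y = - ψ x (X y)) : X ∈ s := by
  refine S.line hZ hZ0 h1 (fun x hx => ?_) hX
  have key : ∃ β : K, Z x = (ψ l x / ψ l l') • Z l' + β • l := by
    refine vec_induction (γ := γ) (p := fun x => ∃ β : K, Z x = (ψ l x / ψ l l') • Z l' + β • l)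
      ⟨0, by simp⟩ ?_ (fun ν x hx => ?_) x
    · rintro a b ⟨β, hβ⟩ ⟨β', hβ'⟩
      refine ⟨β + β', ?_⟩
      rw [map_add, map_add, hβ, hβ']
      module
    · by_cases hν : ν = ζ
      · subst hν
        obtain ⟨κ, rfl⟩ := P.line x hx
        exact ⟨0, by rw [map_smul, h1, map_smul, S.alt]; simp⟩
      by_cases hν' : ν = ζ'
      · subst hν'
        obtain ⟨κ, rfl⟩ := P.line' x hx
        refine ⟨0, ?_⟩
        rw [map_smul, map_smul, smul_eq_mul, mul_div_assoc, div_self P.pair, mul_one, zero_smul,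
          add_zero]
      · obtain ⟨β, hβ⟩ := h2 ν hν hν' x hx
        refine ⟨β, ?_⟩
        have h3 : ζ * ν ≠ c := fun h => hν' (mul_left_cancel₀ P.hζ (h.trans P.mul.symm))
        rw [orth_gen P.sim h3 P.hl hx, zero_div, zero_smul, zero_add, hβ]
  obtain ⟨β, hβ⟩ := key
  rw [hx, zero_div, zero_smul, zero_add] at hβ
  exact ⟨β, hβ⟩

end Setup

/-- the symplectic part is normalized as well -/
lemma spart_norm {ψ : LinearMap.BilinForm K V} {g : Submodule K (Module.End K V)}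
    {γ : V ≃ₗ[K] V} {c : K} (sim : ∀ x y, ψ (γ x) (γ y) = c * ψ x y)
    (hn : ∀ X ∈ g, cj γ X ∈ g) : ∀ X ∈ spart ψ g, cj γ X ∈ spart ψ g := by
  rintro X ⟨hX, t, ht⟩
  refine ⟨fun x y => ?_, t, ?_⟩
  · have h1 := sim (X (γ.symm x)) (γ.symm y)
    have h2 := sim (γ.symm x) (X (γ.symm y))
    rw [γ.apply_symm_apply] at h1 h2
    rw [cj_apply, cj_apply, h1, h2, hX]
    ring
  · have := hn _ ht
    rw [map_add, map_smul] at this
    have h1 : cj γ (1 : Module.End K V) = 1 := by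
      ext x
      simp [cj_apply]
    rwa [h1] at this

end Pool.Agent.Helper66.OTR
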