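import Pool.Agent.Helper66.OTR.Odd

/-!
# Half-idempotents
-/

namespace Pool.Agent.Helper66.OTR

open LinearMap

set_option linter.unusedSectionVars false

variable {K V : Type*} [Field K] [AddCommGroup V] [Module K V] [FiniteDimensional K V]
variable [CharZero K]

/-- the component of degree one with respect to a half-idempotent -/
def plus (h X : Module.End K V) : Module.End K V :=
  ((2 : K)⁻¹ • 1 + h) * X * ((2 : K)⁻¹ • 1 - h)

lemma half_PP {h : Module.End K V} (hh : h * h = (4 : K)⁻¹ • 1) :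
    ((2 : K)⁻¹ • 1 + h) * ((2 : K)⁻¹ • 1 + h) = (2 : K)⁻¹ • 1 + h := by
  have : ((2 : K)⁻¹ • (1 : Module.End K V) + h) * ((2 : K)⁻¹ • 1 + h) =
      ((2 : K)⁻¹ * (2 : K)⁻¹) • 1 + ((2 : K)⁻¹ + (2 : K)⁻¹) • h + h * h := by
    simp only [add_mul, mul_add, smul_mul_assoc, mul_smul_comm, one_mul, mul_one]
    module
  rw [this, hh]
  have e : (2 : K)⁻¹ + (2 : K)⁻¹ = 1 := by norm_num
  rw [e]
  have e2 : (2 : K)⁻¹ * (2 : K)⁻¹ + (4 : K)⁻¹ = (2 : K)⁻¹ := by norm_num
  rw [← e2]
  module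

lemma half_neg {h : Module.End K V} (hh : h * h = (4 : K)⁻¹ • 1) :
    (-h) * (-h) = (4 : K)⁻¹ • 1 := by rw [neg_mul_neg, hh]

lemma half_QQ {h : Module.End K V} (hh : h * h = (4 : K)⁻¹ • 1) :
    ((2 : K)⁻¹ • 1 - h) * ((2 : K)⁻¹ • 1 - h) = (2 : K)⁻¹ • 1 - h := by
  have := half_PP (half_neg hh)
  simpa only [← sub_eq_add_neg] using this

lemma half_PQ {h : Module.End K V} (hh : h * h = (4 : K)⁻¹ • 1) :
    ((2 : K)⁻¹ • 1 + h) * ((2 : K)⁻¹ • 1 - h) = 0 := by
  have : ((2 : K)⁻¹ • (1 : Module.End K V) + h) * ((2 : K)⁻¹ • 1 - h) =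
      ((2 : K)⁻¹ * (2 : K)⁻¹) • 1 - h * h := by
    simp only [add_mul, mul_sub, smul_mul_assoc, mul_smul_comm, one_mul, mul_one]
    module
  rw [this, hh]
  have e2 : (2 : K)⁻¹ * (2 : K)⁻¹ = (4 : K)⁻¹ := by norm_num
  rw [e2, sub_self]

lemma half_QP {h : Module.End K V} (hh : h * h = (4 : K)⁻¹ • 1) :
    ((2 : K)⁻¹ • 1 - h) * ((2 : K)⁻¹ • 1 + h) = 0 := by
  have := half_PQ (half_neg hh)
  simpa only [← sub_eq_add_neg, sub_neg_eq_add] using this

lemma plus_neg (h X : Module.End K V) :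
    plus (-h) X = ((2 : K)⁻¹ • 1 - h) * X * ((2 : K)⁻¹ • 1 + h) := by
  unfold plus
  rw [← sub_eq_add_neg, sub_neg_eq_add]

lemma plus_eq {h : Module.End K V} (hh : h * h = (4 : K)⁻¹ • 1) (X : Module.End K V) :
    plus h X = (2 : K)⁻¹ • (h * X - X * h) +
      (2 : K)⁻¹ • (h * (h * X - X * h) - (h * X - X * h) * h) := by
  have e1 : h * (h * X - X * h) - (h * X - X * h) * h =
      h * h * X + X * (h * h) - (2 : K) • (h * X * h) := by
    have : h * (h * X - X * h) - (h * X - X * h) * h =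
      h * h * X + X * (h * h) - (h * X * h + h * X * h) := by noncomm_ring
    rw [this, two_smul]
  rw [e1, hh]
  unfold plus
  simp only [add_mul, mul_sub, smul_mul_assoc, mul_smul_comm, one_mul, mul_one]
  match_scalars <;> norm_num

lemma LieClosed.plus_mem {s : Submodule K (Module.End K V)} (hs : LieClosed s)
    {h X : Module.End K V} (hh : h * h = (4 : K)⁻¹ • 1) (hh' : h ∈ s) (hX : X ∈ s) :
    plus h X ∈ s := by
  rw [plus_eq hh]
  exact s.add_mem (s.smul_mem _ (hs _ hh' _ hX)) (s.smul_mem _ (hs _ hh' _ (hs _ hh' _ hX)))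

lemma comm_of_plus {h X : Module.End K V} (h1 : plus h X = 0) (h2 : plus (-h) X = 0) :
    h * X = X * h := by
  rw [plus_neg] at h2
  unfold plus at h1
  have : ((2 : K)⁻¹ • (1 : Module.End K V) + h) * X * ((2 : K)⁻¹ • 1 - h) -
      ((2 : K)⁻¹ • 1 - h) * X * ((2 : K)⁻¹ • 1 + h) = h * X - X * h := by
    simp only [add_mul, mul_sub, sub_mul, mul_add, smul_mul_assoc, mul_smul_comm, one_mul, mul_one]
    match_scalars <;> norm_num
  rw [h1, h2, sub_zero] at this
  exact sub_eq_zero.1 this.symm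

/-- `s` is generated by its half-idempotents -/
def Gen (s : Submodule K (Module.End K V)) : Prop :=
  ∀ s' : Submodule K (Module.End K V), LieClosed s' →
    (∀ g ∈ s, g * g = (4 : K)⁻¹ • 1 → g ∈ s') → s ≤ s'

namespace Setup

variable {ψ : LinearMap.BilinForm K V} {s : Submodule K (Module.End K V)}
variable [IsAlgClosed K]

lemma exists_half (S : Setup ψ s) (hg : Gen s) {N : Module.End K V} (hNN : N * N = 0)
    (h0 : N ≠ 0) : ∃ h ∈ s, h * h = (4 : K)⁻¹ • 1 ∧ plus h N ≠ 0 := by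
  by_contra hcon
  push Not at hcon
  have hc : ∀ h ∈ s, h * h = (4 : K)⁻¹ • 1 → h * N = N * h := fun h hh h2 =>
    comm_of_plus (hcon h hh h2) (hcon (-h) (s.neg_mem hh) (half_neg h2))
  let s' : Submodule K (Module.End K V) :=
    { carrier := {X | X * N = N * X}
      zero_mem' := by simp
      add_mem' := by
        intro a b ha hb
        show (a + b) * N = N * (a + b)
        rw [add_mul, mul_add, show a * N = N * a from ha, show b * N = N * b from hb]
      smul_mem' := by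
        intro c a ha
        show (c • a) * N = N * (c • a)
        rw [smul_mul_assoc, mul_smul_comm, show a * N = N * a from ha] }
  have hle : s ≤ s' := by
    refine hg s' ?_ (fun g hg1 hg2 => hc g hg1 hg2)
    intro X hX Y hY
    have hX' : X * N = N * X := hX
    have hY' : Y * N = N * Y := hY
    show (X * Y - Y * X) * N = N * (X * Y - Y * X)
    rw [sub_mul, mul_sub, mul_assoc, hY', ← mul_assoc, hX', mul_assoc Y, hX', ← mul_assoc, hY']
    noncomm_ring
  have hst : ∀ X ∈ s, ∀ w ∈ LinearMap.ker N, X w ∈ LinearMap.ker N := by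
    intro X hX w hw
    rw [LinearMap.mem_ker] at hw ⊢
    have h1 : X * N = N * X := hle hX
    rw [← Module.End.mul_apply, ← h1, Module.End.mul_apply, hw, map_zero]
  rcases S.irred.2 _ hst with h1 | h1
  · apply h0
    ext x
    rw [LinearMap.ker_eq_bot] at h1
    apply h1
    rw [← Module.End.mul_apply, hNN]
    simp
  · exact h0 (LinearMap.ker_eq_top.1 h1)

end Setup

/-- a triple compatible with a half-idempotent -/
structure Cpt (s : Submodule K (Module.End K V)) (M F h : Module.End K V) : Prop where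
  t : Trip s M F
  j : t.J
  hh : h ∈ s
  half : h * h = (4 : K)⁻¹ • 1
  hM : h * M = (2 : K)⁻¹ • M
  Mh : M * h = -(2 : K)⁻¹ • M
  hF : h * F = -(2 : K)⁻¹ • F
  Fh : F * h = (2 : K)⁻¹ • F
  odd : Odd (Module.finrank K (LinearMap.range M))

lemma half_hP {h : Module.End K V} (hh : h * h = (4 : K)⁻¹ • 1) :
    h * ((2 : K)⁻¹ • 1 + h) = (2 : K)⁻¹ • ((2 : K)⁻¹ • 1 + h) := by
  rw [mul_add, hh, mul_smul_comm, mul_one, smul_add, smul_smul]
  have e2 : (2 : K)⁻¹ * (2 : K)⁻¹ = (4 : K)⁻¹ := by norm_num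
  rw [e2]; abel

lemma half_Ph {h : Module.End K V} (hh : h * h = (4 : K)⁻¹ • 1) :
    ((2 : K)⁻¹ • 1 + h) * h = (2 : K)⁻¹ • ((2 : K)⁻¹ • 1 + h) := by
  rw [add_mul, hh, smul_mul_assoc, one_mul, smul_add, smul_smul]
  have e2 : (2 : K)⁻¹ * (2 : K)⁻¹ = (4 : K)⁻¹ := by norm_num
  rw [e2]; abel

lemma half_hQ {h : Module.End K V} (hh : h * h = (4 : K)⁻¹ • 1) :
    h * ((2 : K)⁻¹ • 1 - h) = -(2 : K)⁻¹ • ((2 : K)⁻¹ • 1 - h) := by
  rw [mul_sub, hh, mul_smul_comm, mul_one, neg_smul, smul_sub, smul_smul]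
  have e2 : (2 : K)⁻¹ * (2 : K)⁻¹ = (4 : K)⁻¹ := by norm_num
  rw [e2]; abel

lemma half_Qh {h : Module.End K V} (hh : h * h = (4 : K)⁻¹ • 1) :
    ((2 : K)⁻¹ • 1 - h) * h = -(2 : K)⁻¹ • ((2 : K)⁻¹ • 1 - h) := by
  rw [sub_mul, hh, smul_mul_assoc, one_mul, neg_smul, smul_sub, smul_smul]
  have e2 : (2 : K)⁻¹ * (2 : K)⁻¹ = (4 : K)⁻¹ := by norm_num
  rw [e2]; abel

namespace Setup

variable {ψ : LinearMap.BilinForm K V} {s : Submodule K (Module.End K V)}
variable [IsAlgClosed K]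

/-- **Existence of a compatible triple.** -/
theorem exists_cpt (S : Setup ψ s) (hg : Gen s) {N : Module.End K V} (hN : N ∈ s)
    (hNN : N * N = 0) (hodd : Odd (Module.finrank K (LinearMap.range N))) :
    ∃ M F h, Cpt s M F h := by
  classical
  -- minimal odd
  obtain ⟨N, hN, hNN, mo⟩ : ∃ N ∈ s, N * N = 0 ∧ MinOdd s N := by
    have hex : ∃ n : ℕ, ∃ N ∈ s, N * N = 0 ∧ Module.finrank K (LinearMap.range N) = n ∧ Odd n :=
      ⟨_, N, hN, hNN, rfl, hodd⟩
    obtain ⟨N', h1, h2, h3, h4⟩ := Nat.find_spec hex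
    refine ⟨N', h1, h2, ⟨by rw [h3]; exact h4, ?_⟩⟩
    intro N'' h5 h6 h7
    rw [h3]
    exact Nat.find_min' hex ⟨N'', h5, h6, rfl, h7⟩
  obtain ⟨F₀, t₀⟩ := S.exists_trip hN hNN
  have hJ : ∀ X ∈ s, ∃ c : K, N * X * N = c • N := S.minOdd_J mo t₀
  obtain ⟨h, hh, hhalf, hne⟩ := S.exists_half hg hNN mo.ne_zero
  set P := (2 : K)⁻¹ • (1 : Module.End K V) + h with hP
  set Q := (2 : K)⁻¹ • (1 : Module.End K V) - h with hQ
  have PP : P * P = P := half_PP hhalf
  have QQ : Q * Q = Q := half_QQ hhalf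
  have PQ : P * Q = 0 := half_PQ hhalf
  have QP : Q * P = 0 := half_QP hhalf
  set M := plus h N with hM
  have hMe : M = P * N * Q := rfl
  have hMs : M ∈ s := S.closed.plus_mem hhalf hh hN
  have MM : M * M = 0 := by
    rw [hMe]
    have : P * N * Q * (P * N * Q) = P * N * (Q * P) * (N * Q) := by noncomm_ring
    rw [this, QP]; simp
  obtain ⟨F', t'⟩ := S.exists_trip hMs MM
  have PM : P * M = M := by rw [hMe, ← mul_assoc, ← mul_assoc, PP]
  have MQ : M * Q = M := by rw [hMe, mul_assoc, QQ]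
  set F := Q * F' * P with hF
  have hFs : F ∈ s := by
    have h1 := S.closed.plus_mem (half_neg hhalf) (s.neg_mem hh) t'.hF
    rwa [plus_neg] at h1
  have QF : Q * F = F := by rw [hF, ← mul_assoc, ← mul_assoc, QQ]
  have FP : F * P = F := by rw [hF, mul_assoc, PP]
  have t : Trip s M F := by
    refine ⟨hMs, hFs, MM, ?_, ?_, ?_⟩
    · have : F * F = (F * P) * (Q * F) := by rw [QF, FP]
      rw [this]
      have : F * P * (Q * F) = F * (P * Q) * F := by noncomm_ring
      rw [this, PQ]; simp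
    · have : M * F * M = (M * Q) * F' * (P * M) := by rw [hF]; noncomm_ring
      rw [this, PM, MQ, t'.MFM]
    · have : F * M * F = Q * F' * (P * M * Q) * F' * P := by
        rw [hF]; noncomm_ring
      rw [this, PM, MQ, hF]
      have : Q * F' * M * F' * P = Q * (F' * M * F') * P := by noncomm_ring
      rw [this, t'.FMF]
  have hNFN : N * F * N = N := by
    obtain ⟨c, hc⟩ := hJ F hFs
    have h1 : M * F * M = c • M := by
      have : M * F * M = P * N * (Q * F * P) * N * Q := by rw [hMe]; noncomm_ring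
      rw [this, QF, FP]
      have : P * N * F * N * Q = P * (N * F * N) * Q := by noncomm_ring
      rw [this, hc, mul_smul_comm, smul_mul_assoc, hMe]
    rw [t.MFM] at h1
    have h2 : (1 - c) • M = 0 := by rw [sub_smul, one_smul, ← h1, sub_self]
    rcases smul_eq_zero.1 h2 with h3 | h3
    · rw [hc, ← sub_eq_zero.1 h3, one_smul]
    · exact absurd h3 hne
  have hrank : Module.finrank K (LinearMap.range M) = Module.finrank K (LinearMap.range N) := by
    have e1 := t.trace_eq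
    have e2 : trace K V (N * F) = (Module.finrank K (LinearMap.range N) : K) := by
      have hNF : N * F * (N * F) = N * F := by rw [← mul_assoc, hNFN]
      have hr : LinearMap.range (N * F) = LinearMap.range N := by
        apply le_antisymm
        · rintro _ ⟨w, rfl⟩
          exact ⟨F w, rfl⟩
        · rintro _ ⟨w, rfl⟩
          refine ⟨N w, ?_⟩
          rw [← Module.End.mul_apply, hNFN]
      rw [trace_idem hNF, hr]
    have e3 : trace K V (M * F) = trace K V (N * F) := by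
      have : M * F = P * (N * (Q * F)) := by rw [hMe]; noncomm_ring
      rw [this, QF, trace_mul_comm, mul_assoc, FP]
    rw [e1, e2] at e3
    exact_mod_cast e3
  refine ⟨M, F, h, ⟨t, ?_, hh, hhalf, ?_, ?_, ?_, ?_, by rw [hrank]; exact mo.odd⟩⟩
  · intro X hX
    have h1 : Q * X * P ∈ s := by
      have h1 := S.closed.plus_mem (half_neg hhalf) (s.neg_mem hh) hX
      rwa [plus_neg] at h1
    obtain ⟨c, hc⟩ := hJ _ h1
    refine ⟨c, ?_⟩
    have : M * X * M = P * (N * (Q * X * P) * N) * Q := by rw [hMe]; noncomm_ring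
    rw [this, hc, mul_smul_comm, smul_mul_assoc, hMe]
  · rw [← PM, ← mul_assoc, hP, half_hP hhalf, smul_mul_assoc]
  · rw [← MQ, mul_assoc, hQ, half_Qh hhalf, mul_smul_comm]
  · rw [← QF, ← mul_assoc, hQ, half_hQ hhalf, smul_mul_assoc]
  · rw [← FP, mul_assoc, hP, half_Ph hhalf, mul_smul_comm]

end Setup

end Pool.Agent.Helper66.OTR
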