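import Pool.Agent.Helper66.OTR.Trace

/-!
# Quadratic elements of a linear Lie algebra
-/

namespace Pool.Agent.Helper66.OTR

open LinearMap

variable {K V : Type*} [Field K] [AddCommGroup V] [Module K V]

section ring

variable {R : Type*} [Ring R]

lemma cube_of_idem {p q : R} (hp : p * p = p) (hq : q * q = q) (hqp : q * p = 0) :
    (p - q) * (p - q) * (p - q) = p - q := by
  have h1 : (p - q) * (p - q) = p - p * q + q := by
    have : (p - q) * (p - q) = p * p - p * q - q * p + q * q := by noncomm_ring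
    rw [this, hp, hq, hqp]; noncomm_ring
  rw [h1]
  have : (p - p * q + q) * (p - q) = p * p - p * q - p * (q * p) + p * (q * q) + q * p - q * q := by
    noncomm_ring
  rw [this, hp, hq, hqp]; noncomm_ring

/-- the element `H = aX - Xa` satisfies `H^3 = H` -/
lemma cube_comm {a X : R} (haa : a * a = 0) (h : a * X * a = a) :
    (a * X - X * a) * (a * X - X * a) * (a * X - X * a) = a * X - X * a := by
  apply cube_of_idem
  · rw [← mul_assoc, h]
  · rw [mul_assoc, ← mul_assoc a, h]
  · rw [mul_assoc, ← mul_assoc a, haa, zero_mul, mul_zero]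

end ring

variable {s : Submodule K (Module.End K V)}

lemma LieClosed.ad2 (hs : LieClosed s) {a X : Module.End K V} (ha : a ∈ s) (hX : X ∈ s) :
    a * (a * X - X * a) - (a * X - X * a) * a ∈ s := hs _ ha _ (hs _ ha _ hX)

/-- `a X a ∈ s` for `a` quadratic. -/
lemma LieClosed.quad [CharZero K] (hs : LieClosed s) {a X : Module.End K V} (ha : a ∈ s)
    (haa : a * a = 0) (hX : X ∈ s) : a * X * a ∈ s := by
  have h1 := hs.ad2 ha hX
  have h2 : a * (a * X - X * a) - (a * X - X * a) * a = (-2 : K) • (a * X * a) := by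
    have : a * (a * X - X * a) - (a * X - X * a) * a =
        (a * a) * X + X * (a * a) - a * X * a - a * X * a := by noncomm_ring
    rw [this, haa, zero_mul, mul_zero]
    module
  rw [h2] at h1
  have h3 := s.smul_mem (-2 : K)⁻¹ h1
  rwa [smul_smul, inv_mul_cancel₀ (by norm_num), one_smul] at h3

/-- quadratic sl2-triples -/
structure Trip (s : Submodule K (Module.End K V)) (M F : Module.End K V) : Prop where
  hM : M ∈ s
  hF : F ∈ s
  MM : M * M = 0
  FF : F * F = 0
  MFM : M * F * M = M
  FMF : F * M * F = F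

namespace Trip

variable {M F : Module.End K V}

lemma symm (t : Trip s M F) : Trip s F M := ⟨t.hF, t.hM, t.FF, t.MM, t.FMF, t.MFM⟩

lemma PP (t : Trip s M F) : (M * F) * (M * F) = M * F := by rw [← mul_assoc, t.MFM]
lemma QQ (t : Trip s M F) : (F * M) * (F * M) = F * M := t.symm.PP
lemma PQ (t : Trip s M F) : (M * F) * (F * M) = 0 := by
  rw [mul_assoc, ← mul_assoc F, t.FF, zero_mul, mul_zero]
lemma QP (t : Trip s M F) : (F * M) * (M * F) = 0 := t.symm.PQ

lemma H_mem (hs : LieClosed s) (t : Trip s M F) : M * F - F * M ∈ s := hs _ t.hM _ t.hF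

lemma HH (t : Trip s M F) : (M * F - F * M) * (M * F - F * M) = M * F + F * M := by
  have : (M * F - F * M) * (M * F - F * M) = (M * F) * (M * F) - (M * F) * (F * M) -
      (F * M) * (M * F) + (F * M) * (F * M) := by noncomm_ring
  rw [this, t.PP, t.PQ, t.QP, t.QQ]; noncomm_ring

variable [CharZero K]

/-- component of degree 2 -/
lemma c2_mem (hs : LieClosed s) (t : Trip s M F) {X : Module.End K V} (hX : X ∈ s) :
    (M * F) * X * (F * M) ∈ s := by
  have : (M * F) * X * (F * M) = M * (F * X * F) * M := by noncomm_ring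
  rw [this]
  exact hs.quad t.hM t.MM (hs.quad t.hF t.FF hX)

lemma cm2_mem (hs : LieClosed s) (t : Trip s M F) {X : Module.End K V} (hX : X ∈ s) :
    (F * M) * X * (M * F) ∈ s := t.symm.c2_mem hs hX

/-- component of degree 1 -/
def c1 (M F X : Module.End K V) : Module.End K V :=
  (M * F) * X * (1 - M * F - F * M) + (1 - M * F - F * M) * X * (F * M)

/-- component of degree -1 -/
def cm1 (M F X : Module.End K V) : Module.End K V :=
  (1 - M * F - F * M) * X * (M * F) + (F * M) * X * (1 - M * F - F * M)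

/-- component of degree 0 -/
def c0 (M F X : Module.End K V) : Module.End K V :=
  (M * F) * X * (M * F) + (F * M) * X * (F * M) +
    (1 - M * F - F * M) * X * (1 - M * F - F * M)

omit [CharZero K] in
lemma sum_c (M F X : Module.End K V) : (M * F) * X * (F * M) + c1 M F X + c0 M F X + cm1 M F X +
    (F * M) * X * (M * F) = X := by
  unfold c1 c0 cm1
  generalize M * F = P
  generalize F * M = Q
  noncomm_ring

omit [CharZero K] in
lemma ad_eq (M F X : Module.End K V) :
    (M * F - F * M) * X - X * (M * F - F * M) = (2 : ℕ) • ((M * F) * X * (F * M)) + c1 M F X -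
      cm1 M F X - (2 : ℕ) • ((F * M) * X * (M * F)) := by
  unfold c1 cm1
  generalize M * F = P
  generalize F * M = Q
  noncomm_ring

omit [CharZero K] in
lemma ad2_eq (t : Trip s M F) (X : Module.End K V) :
    (M * F - F * M) * ((M * F - F * M) * X - X * (M * F - F * M)) -
      ((M * F - F * M) * X - X * (M * F - F * M)) * (M * F - F * M) =
      (4 : ℕ) • ((M * F) * X * (F * M)) + c1 M F X + cm1 M F X +
        (4 : ℕ) • ((F * M) * X * (M * F)) := by
  have h1 := t.HH
  have h2 : (M * F - F * M) * ((M * F - F * M) * X - X * (M * F - F * M)) -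
      ((M * F - F * M) * X - X * (M * F - F * M)) * (M * F - F * M) =
      ((M * F - F * M) * (M * F - F * M)) * X + X * ((M * F - F * M) * (M * F - F * M)) -
      (2 : ℕ) • ((M * F - F * M) * X * (M * F - F * M)) := by
    generalize (M * F - F * M) = H
    noncomm_ring
  rw [h2, h1]
  unfold c1 cm1
  generalize M * F = P
  generalize F * M = Q
  noncomm_ring

lemma c1_add_mem (hs : LieClosed s) (t : Trip s M F) {X : Module.End K V} (hX : X ∈ s) :
    c1 M F X - cm1 M F X ∈ s ∧ c1 M F X + cm1 M F X ∈ s := by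
  have hH := t.H_mem hs
  have h1 := hs _ hH _ hX
  have h2 := hs.ad2 hH hX
  rw [ad_eq] at h1
  rw [t.ad2_eq] at h2
  have a := t.c2_mem hs hX
  have b := t.cm2_mem hs hX
  constructor
  · have := s.sub_mem (s.add_mem h1 (s.nsmul_mem b 2)) (s.nsmul_mem a 2)
    convert this using 1
    abel
  · have := s.sub_mem (s.sub_mem h2 (s.nsmul_mem b 4)) (s.nsmul_mem a 4)
    convert this using 1
    abel

lemma c1_mem (hs : LieClosed s) (t : Trip s M F) {X : Module.End K V} (hX : X ∈ s) :
    c1 M F X ∈ s := by
  obtain ⟨h1, h2⟩ := t.c1_add_mem hs hX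
  have h3 := s.smul_mem (2 : K)⁻¹ (s.add_mem h1 h2)
  convert h3 using 1
  rw [sub_add_add_cancel, ← two_smul K (c1 M F X), smul_smul, inv_mul_cancel₀ (by norm_num),
    one_smul]

lemma cm1_mem (hs : LieClosed s) (t : Trip s M F) {X : Module.End K V} (hX : X ∈ s) :
    cm1 M F X ∈ s := by
  have h2 := (t.c1_add_mem hs hX).2
  have h3 := s.sub_mem h2 (t.c1_mem hs hX)
  rwa [add_sub_cancel_left] at h3

lemma c0_mem (hs : LieClosed s) (t : Trip s M F) {X : Module.End K V} (hX : X ∈ s) :
    c0 M F X ∈ s := by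
  have h := sum_c M F X
  have : c0 M F X = ((M * F) * X * (F * M) + c1 M F X + c0 M F X + cm1 M F X +
    (F * M) * X * (M * F)) - (M * F) * X * (F * M) - c1 M F X - cm1 M F X -
    (F * M) * X * (M * F) := by abel
  rw [h] at this
  rw [this]
  exact s.sub_mem (s.sub_mem (s.sub_mem (s.sub_mem hX (t.c2_mem hs hX)) (t.c1_mem hs hX))
    (t.cm1_mem hs hX)) (t.cm2_mem hs hX)

end Trip

end Pool.Agent.Helper66.OTR
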