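import Pool.Agent.Helper66.OTR.Form

/-!
# Degrees
-/

namespace Pool.Agent.Helper66.OTR

open LinearMap

set_option linter.unusedSectionVars false

variable {K V : Type*} [Field K] [AddCommGroup V] [Module K V] [FiniteDimensional K V]

/-- `Y` has degree `d` with respect to `H` -/
def Dg (H : Module.End K V) (d : K) (Y : Module.End K V) : Prop := H * Y - Y * H = d • Y

namespace Dg

variable {H X Y : Module.End K V} {d e : K}

lemma mul (h : Dg H d X) (h' : Dg H e Y) : Dg H (d + e) (X * Y) := by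
  unfold Dg at *
  have : H * (X * Y) - X * Y * H = (H * X - X * H) * Y + X * (H * Y - Y * H) := by noncomm_ring
  rw [this, h, h', smul_mul_assoc, mul_smul_comm, add_smul]

lemma sub (h : Dg H d X) (h' : Dg H d Y) : Dg H d (X - Y) := by
  unfold Dg at *
  have : H * (X - Y) - (X - Y) * H = (H * X - X * H) - (H * Y - Y * H) := by noncomm_ring
  rw [this, h, h', smul_sub]

lemma add (h : Dg H d X) (h' : Dg H d Y) : Dg H d (X + Y) := by
  unfold Dg at *
  have : H * (X + Y) - (X + Y) * H = (H * X - X * H) + (H * Y - Y * H) := by noncomm_ring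
  rw [this, h, h', smul_add]

lemma smul (c : K) (h : Dg H d X) : Dg H d (c • X) := by
  unfold Dg at *
  rw [mul_smul_comm, smul_mul_assoc, ← smul_sub, h, smul_comm]

lemma comm (h : Dg H d X) (h' : Dg H e Y) : Dg H (d + e) (X * Y - Y * X) :=
  (h.mul h').sub (by have := h'.mul h; rwa [add_comm] at this)

lemma congr (h : Dg H d X) (hde : d = e) : Dg H e X := hde ▸ h

lemma proj (h : Dg H d Y) {E E' : Module.End K V} {a b : K} (hE : E * H = a • E)
    (hE' : H * E' = b • E') (hab : a - b ≠ d) : E * Y * E' = 0 := by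
  unfold Dg at h
  have h1 : E * (H * Y - Y * H) * E' = E * H * Y * E' - E * Y * (H * E') := by noncomm_ring
  rw [h, hE, hE', mul_smul_comm, smul_mul_assoc, smul_mul_assoc, smul_mul_assoc, mul_smul_comm,
    ← sub_smul] at h1
  have h2 : (a - b - d) • (E * Y * E') = 0 := by rw [sub_smul, ← h1, sub_self]
  rcases smul_eq_zero.1 h2 with h3 | h3
  · exact absurd (sub_eq_zero.1 h3) hab
  · exact h3

lemma apply (h : Dg H d Y) {v : V} {a : K} (hv : H v = a • v) : H (Y v) = (a + d) • Y v := by
  have h1 := congrArg (fun f => f v) h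
  simp only [LinearMap.sub_apply, Module.End.mul_apply, LinearMap.smul_apply] at h1
  rw [sub_eq_iff_eq_add] at h1
  rw [h1, hv, map_smul, add_smul, add_comm]

end Dg

variable {s : Submodule K (Module.End K V)} {M F : Module.End K V}

namespace Trip

/-- the semisimple element -/
abbrev H (_t : Trip s M F) : Module.End K V := M * F - F * M

lemma PH (t : Trip s M F) : (M * F) * t.H = (1 : K) • (M * F) := by
  rw [mul_sub, t.PP, t.PQ, sub_zero, one_smul]

lemma HP (t : Trip s M F) : t.H * (M * F) = (1 : K) • (M * F) := by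
  rw [sub_mul, t.PP, t.QP, sub_zero, one_smul]

lemma QH (t : Trip s M F) : (F * M) * t.H = (-1 : K) • (F * M) := by
  rw [mul_sub, t.QP, t.QQ, zero_sub, neg_one_smul]

lemma HQ (t : Trip s M F) : t.H * (F * M) = (-1 : K) • (F * M) := by
  rw [sub_mul, t.PQ, t.QQ, zero_sub, neg_one_smul]

lemma ZH (t : Trip s M F) : (1 - M * F - F * M) * t.H = (0 : K) • (1 - M * F - F * M) := by
  rw [sub_mul, sub_mul, one_mul, t.PH, t.QH, zero_smul]
  module

lemma HZ (t : Trip s M F) : t.H * (1 - M * F - F * M) = (0 : K) • (1 - M * F - F * M) := by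
  rw [mul_sub, mul_sub, mul_one, t.HP, t.HQ, zero_smul]
  module

lemma dg_M (t : Trip s M F) : Dg t.H 2 M := by
  unfold Dg
  have : t.H * M - M * t.H = M * F * M - F * (M * M) - (M * M) * F + M * F * M := by
    noncomm_ring
  rw [this, t.MM, t.MFM, mul_zero, zero_mul]
  module

lemma dg_F (t : Trip s M F) : Dg t.H (-2) F := by
  unfold Dg
  have : t.H * F - F * t.H = M * (F * F) - F * M * F - F * M * F + (F * F) * M := by
    noncomm_ring
  rw [this, t.FF, t.FMF, mul_zero, zero_mul]
  module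

/-- sandwiching between eigenprojections -/
lemma dg_sandwich {H E E' X : Module.End K V} {a b : K} (_h1 : E * H = a • E) (h2 : H * E = a • E)
    (h3 : E' * H = b • E') (_h4 : H * E' = b • E') : Dg H (a - b) (E * X * E') := by
  unfold Dg
  have : H * (E * X * E') - E * X * E' * H = (H * E) * X * E' - E * X * (E' * H) := by
    noncomm_ring
  rw [this, h2, h3, smul_mul_assoc, smul_mul_assoc, mul_smul_comm, ← sub_smul]

lemma dg_c2 (t : Trip s M F) (X : Module.End K V) : Dg t.H 2 ((M * F) * X * (F * M)) :=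
  (dg_sandwich t.PH t.HP t.QH t.HQ).congr (by norm_num)

lemma dg_cm2 (t : Trip s M F) (X : Module.End K V) : Dg t.H (-2) ((F * M) * X * (M * F)) :=
  (dg_sandwich t.QH t.HQ t.PH t.HP).congr (by norm_num)

lemma dg_c1 (t : Trip s M F) (X : Module.End K V) : Dg t.H 1 (c1 M F X) :=
  ((dg_sandwich t.PH t.HP t.ZH t.HZ).congr (by norm_num)).add
    ((dg_sandwich t.ZH t.HZ t.QH t.HQ).congr (by norm_num))

lemma dg_cm1 (t : Trip s M F) (X : Module.End K V) : Dg t.H (-1) (cm1 M F X) :=
  ((dg_sandwich t.ZH t.HZ t.PH t.HP).congr (by norm_num)).add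
    ((dg_sandwich t.QH t.HQ t.ZH t.HZ).congr (by norm_num))

lemma dg_c0 (t : Trip s M F) (X : Module.End K V) : Dg t.H 0 (c0 M F X) :=
  (((dg_sandwich t.PH t.HP t.PH t.HP).congr (by norm_num)).add
    ((dg_sandwich t.QH t.HQ t.QH t.HQ).congr (by norm_num))).add
    ((dg_sandwich t.ZH t.HZ t.ZH t.HZ).congr (by norm_num))

variable [CharZero K]

/-- an element of degree `2` -/
lemma eq_of_dg2 (t : Trip s M F) {Y : Module.End K V} (h : Dg t.H 2 Y) :
    Y = (M * F) * Y * (F * M) := by
  have e := sum_c M F Y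
  have z1 : c1 M F Y = 0 := by
    unfold c1
    rw [h.proj t.PH t.HZ (by norm_num), h.proj t.ZH t.HQ (by norm_num), add_zero]
  have z2 : c0 M F Y = 0 := by
    unfold c0
    rw [h.proj t.PH t.HP (by norm_num), h.proj t.QH t.HQ (by norm_num),
      h.proj t.ZH t.HZ (by norm_num)]
    simp
  have z3 : cm1 M F Y = 0 := by
    unfold cm1
    rw [h.proj t.ZH t.HP (by norm_num), h.proj t.QH t.HZ (by norm_num), add_zero]
  have z4 : (F * M) * Y * (M * F) = 0 := h.proj t.QH t.HP (by norm_num)
  rw [z1, z2, z3, z4] at e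
  simpa using e.symm

lemma eq_of_dg1 (t : Trip s M F) {Y : Module.End K V} (h : Dg t.H 1 Y) :
    Y = c1 M F Y := by
  have e := sum_c M F Y
  have z2 : c0 M F Y = 0 := by
    unfold c0
    rw [h.proj t.PH t.HP (by norm_num), h.proj t.QH t.HQ (by norm_num),
      h.proj t.ZH t.HZ (by norm_num)]
    simp
  have z3 : cm1 M F Y = 0 := by
    unfold cm1
    rw [h.proj t.ZH t.HP (by norm_num), h.proj t.QH t.HZ (by norm_num), add_zero]
  have z4 : (F * M) * Y * (M * F) = 0 := h.proj t.QH t.HP (by norm_num)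
  have z1 : (M * F) * Y * (F * M) = 0 := h.proj t.PH t.HQ (by norm_num)
  rw [z1, z2, z3, z4] at e
  simpa using e.symm

/-- vectors of weight `-1` -/
lemma H_apply (t : Trip s M F) {v : V} (hv : (F * M) v = v) : t.H v = (-1 : K) • v := by
  have := congrArg (fun f => f v) t.HQ
  simp only [Module.End.mul_apply, LinearMap.smul_apply] at this hv
  rwa [hv] at this

/-- no weights besides `1, 0, -1` -/
lemma eq_zero_of_weight (t : Trip s M F) {w : V} {a : K} (h : t.H w = a • w)
    (ha : a * a * a ≠ a) : w = 0 := by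
  have h3 : t.H * t.H * t.H = t.H := cube_comm t.MM t.MFM
  have h4 := congrArg (fun f => f w) h3
  simp only [Module.End.mul_apply, h, map_smul] at h4
  have h5 : (a * a * a - a) • w = 0 := by
    rw [sub_smul, mul_smul, mul_smul, h4, sub_self]
  rcases smul_eq_zero.1 h5 with h6 | h6
  · exact absurd (sub_eq_zero.1 h6) ha
  · exact h6

/-- the property that `M X M` is a multiple of `M` -/
def J (_t : Trip s M F) : Prop := ∀ X ∈ s, ∃ c : K, M * X * M = c • M

lemma J.symm (hs : LieClosed s) {t : Trip s M F} (j : t.J) : t.symm.J := by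
  intro X hX
  obtain ⟨c, hc⟩ := j (F * X * F) (hs.quad t.hF t.FF hX)
  refine ⟨c, ?_⟩
  have : F * X * F = F * (M * (F * X * F) * M) * F := by
    have : F * (M * (F * X * F) * M) * F = (F * M * F) * X * (F * M * F) := by noncomm_ring
    rw [this, t.FMF]
  rw [this, hc, mul_smul_comm, smul_mul_assoc, t.FMF]

lemma J.dg2 {t : Trip s M F} (hs : LieClosed s) (j : t.J) {Y : Module.End K V} (hY : Y ∈ s)
    (h : Dg t.H 2 Y) : ∃ c : K, Y = c • M := by
  obtain ⟨c, hc⟩ := j (F * Y * F) (hs.quad t.hF t.FF hY)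
  refine ⟨c, ?_⟩
  rw [t.eq_of_dg2 h, ← hc]
  noncomm_ring

lemma J.dgm2 {t : Trip s M F} (hs : LieClosed s) (j : t.J) {Y : Module.End K V} (hY : Y ∈ s)
    (h : Dg t.H (-2) Y) : ∃ c : K, Y = c • F := by
  refine (j.symm hs).dg2 hs hY ?_
  unfold Dg at h ⊢
  have : t.symm.H * Y - Y * t.symm.H = -(t.H * Y - Y * t.H) := by noncomm_ring
  rw [this, h]; module

end Trip

end Pool.Agent.Helper66.OTR
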