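import Pool.Agent.Helper66.OTR.Basic

/-!
# Traces, adjoints, and the Jacobson-Morozov lemma for quadratic elements
-/

namespace Pool.Agent.Helper66.OTR

open LinearMap

set_option linter.unusedSectionVars false

variable {K V : Type*} [Field K] [AddCommGroup V] [Module K V] [FiniteDimensional K V]

/-- `Y` is the adjoint of `X` -/
def Adj (ψ : LinearMap.BilinForm K V) (X Y : Module.End K V) : Prop :=
  ∀ x y, ψ (X x) y = ψ x (Y y)

lemma Adj.mul {ψ : LinearMap.BilinForm K V} {X X' Y Y' : Module.End K V} (h : Adj ψ X X')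
    (h' : Adj ψ Y Y') : Adj ψ (X * Y) (Y' * X') := by
  intro x y
  rw [Module.End.mul_apply, Module.End.mul_apply, h, h']

lemma Adj.trace_eq {ψ : LinearMap.BilinForm K V} (nd : ψ.Nondegenerate) {X Y : Module.End K V}
    (h : Adj ψ X Y) : trace K V X = trace K V Y := by
  have h1 : (ψ.toDual nd).conj X = Module.Dual.transpose (R := K) Y := by
    ext f v
    obtain ⟨x, rfl⟩ := (ψ.toDual nd).surjective f
    simp only [LinearEquiv.conj_apply, LinearMap.comp_apply, LinearEquiv.coe_coe,
      LinearEquiv.symm_apply_apply, Module.Dual.transpose_apply, LinearMap.BilinForm.toDual_def]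
    exact h x v
  rw [← trace_conj' X (ψ.toDual nd), h1, trace_transpose']

/-- the trace of an idempotent is its rank -/
lemma trace_idem {E : Module.End K V} (hE : E * E = E) :
    trace K V E = (Module.finrank K (LinearMap.range E) : K) := by
  have h : LinearMap.IsProj (LinearMap.range E) E := by
    refine ⟨fun x => LinearMap.mem_range_self _ _, ?_⟩
    rintro _ ⟨y, rfl⟩
    rw [← Module.End.mul_apply, hE]
  exact h.trace

/-- The standing hypotheses. -/
structure Setup (ψ : LinearMap.BilinForm K V) (s : Submodule K (Module.End K V)) : Prop where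
  nd : ψ.Nondegenerate
  alt : ∀ x, ψ x x = 0
  closed : LieClosed s
  irred : Irred s
  sp : ∀ X ∈ s, ∀ x y, ψ (X x) y = - ψ x (X y)

namespace Setup

variable {ψ : LinearMap.BilinForm K V} {s : Submodule K (Module.End K V)}

lemma neg (S : Setup ψ s) (x y : V) : ψ x y = - ψ y x := by
  have h := S.alt (x + y)
  simp only [map_add, LinearMap.add_apply, S.alt] at h
  linear_combination h

lemma adj (S : Setup ψ s) {X : Module.End K V} (hX : X ∈ s) : Adj ψ X (-X) := by
  intro x y
  rw [S.sp X hX, LinearMap.neg_apply, map_neg]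

variable [CharZero K]

lemma trace_eq_zero (S : Setup ψ s) {X : Module.End K V} (hX : X ∈ s) : trace K V X = 0 := by
  have h := (S.adj hX).trace_eq S.nd
  rw [map_neg] at h
  have h2 : (2 : K) * trace K V X = 0 := by linear_combination h
  simpa using h2

lemma nondeg [IsAlgClosed K] (S : Setup ψ s) {M : Module.End K V} (hM : M ∈ s)
    (h : ∀ X ∈ s, trace K V (M * X) = 0) : M = 0 :=
  trace_nondeg S.closed S.irred (fun _ hX => S.trace_eq_zero hX) hM h

lemma trace_nilp {X : Module.End K V} (h : X * X = 0) : trace K V X = 0 := by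
  have h1 : IsNilpotent X := ⟨2, by rw [pow_two, h]⟩
  exact (isNilpotent_trace_of_isNilpotent h1).eq_zero

/-- the trace form on `s` -/
noncomputable def tf (s : Submodule K (Module.End K V)) : LinearMap.BilinForm K s :=
  ((LinearMap.mul K (Module.End K V)).compr₂ (trace K V)).domRestrict₁₂ s s

omit [CharZero K] in
lemma tf_apply (X Y : s) : tf s X Y = trace K V (X.1 * Y.1) := rfl

/-- **Jacobson-Morozov for quadratic elements.** -/
theorem jm [IsAlgClosed K] (S : Setup ψ s) {a : Module.End K V} (ha : a ∈ s) (haa : a * a = 0) :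
    ∃ X ∈ s, a * X * a = a := by
  let T : s →ₗ[K] s :=
    { toFun := fun X => ⟨a * X.1 * a, S.closed.quad ha haa X.2⟩
      map_add' := by intro X Y; ext1; simp [mul_add, add_mul]
      map_smul' := by intro c X; ext1; simp }
  have hrefl : (tf s).IsRefl := by
    intro X Y h
    rw [tf_apply] at h ⊢
    rw [trace_mul_comm]; exact h
  have hnd : (tf s).Nondegenerate := by
    rw [LinearMap.BilinForm.nondegenerate_iff_ker_eq_bot] 
    rw [LinearMap.ker_eq_bot']
    intro X hX
    ext1
    refine S.nondeg X.2 (fun Y hY => ?_)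
    have := congrArg (fun f => f ⟨Y, hY⟩) hX
    exact this
  have h1 := LinearMap.BilinForm.orthogonal_orthogonal hnd hrefl (LinearMap.range T)
  have h2 : (⟨a, ha⟩ : s) ∈ (tf s).orthogonal ((tf s).orthogonal (LinearMap.range T)) := by
    rw [LinearMap.BilinForm.mem_orthogonal_iff]
    intro Y hY
    rw [LinearMap.BilinForm.mem_orthogonal_iff] at hY
    show tf s Y ⟨a, ha⟩ = 0
    have h3 : a * Y.1 * a = 0 := by
      refine S.nondeg (S.closed.quad ha haa Y.2) (fun X hX => ?_)
      have h4 : tf s (T ⟨X, hX⟩) Y = 0 := hY _ ⟨_, rfl⟩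
      rw [tf_apply] at h4
      have h5 : trace K V (a * X * a * Y.1) = 0 := h4
      rw [← h5, show a * Y.1 * a * X = (a * Y.1) * (a * X) by noncomm_ring, trace_mul_comm,
        show (a * X) * (a * Y.1) = a * X * a * Y.1 by noncomm_ring]
    rw [tf_apply, trace_mul_comm]
    apply trace_nilp
    rw [← mul_assoc, h3, zero_mul]
  rw [h1] at h2
  obtain ⟨X, hX⟩ := h2
  exact ⟨X.1, X.2, congrArg Subtype.val hX⟩


/-- **sl2-triples for quadratic elements.** -/
theorem exists_trip [IsAlgClosed K] (S : Setup ψ s) {N : Module.End K V} (hN : N ∈ s)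
    (hNN : N * N = 0) : ∃ F, Trip s N F := by
  obtain ⟨X, hX, hNXN⟩ := S.jm hN hNN
  have hs := S.closed
  set H := N * X - X * N with hH
  have hHs : H ∈ s := hs _ hN _ hX
  have hH3 : H * H * H = H := cube_comm hNN hNXN
  have hHN : H * N = N := by
    rw [hH, sub_mul, hNXN, mul_assoc, hNN, mul_zero, sub_zero]
  have hNH : N * H = - N := by
    rw [hH, mul_sub, ← mul_assoc, hNN, zero_mul, ← mul_assoc, hNXN, zero_sub]
  -- the degree -2 component of `X`
  set G := (H * H - H) * X * (H * H + H) with hG
  have hGs : G ∈ s := by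
    set D1 := H * X - X * H with hD1
    set D2 := H * D1 - D1 * H with hD2
    set D3 := H * D2 - D2 * H with hD3
    set D4 := H * D3 - D3 * H with hD4
    have m1 : D1 ∈ s := hs _ hHs _ hX
    have m2 : D2 ∈ s := hs _ hHs _ m1
    have m3 : D3 ∈ s := hs _ hHs _ m2
    have m4 : D4 ∈ s := hs _ hHs _ m3
    have key : D4 - (2 : ℕ) • D3 - D2 + (2 : ℕ) • D1 = (6 : ℕ) • G +
        ((H * H * H - H) * (H * X) - (4 : ℕ) • ((H * H * H - H) * (X * H)) -
          (4 : ℕ) • ((H * X) * (H * H * H - H)) + (X * H) * (H * H * H - H) -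
          (2 : ℕ) • ((H * H * H - H) * X) + (2 : ℕ) • (X * (H * H * H - H))) := by
      rw [hD4, hD3, hD2, hD1, hG]
      noncomm_ring
    rw [hH3, sub_self] at key
    simp only [zero_mul, mul_zero, smul_zero, sub_zero, add_zero] at key
    have m5 : (6 : ℕ) • G ∈ s := by
      rw [← key]
      exact s.add_mem (s.sub_mem (s.sub_mem m4 (s.nsmul_mem m3 2)) m2) (s.nsmul_mem m1 2)
    have m6 := s.smul_mem (6 : K)⁻¹ m5
    have e6 : (6 : K)⁻¹ • ((6 : ℕ) • G) = G := by
      rw [← Nat.cast_smul_eq_nsmul K, smul_smul]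
      norm_num
    rwa [e6] at m6
  have a1 : (H * H + H) * N = (2 : K) • N := by
    rw [add_mul, mul_assoc, hHN, hHN, two_smul]
  have a2 : N * (H * H - H) = (2 : K) • N := by
    rw [mul_sub, ← mul_assoc, hNH, neg_mul, hNH, neg_neg, sub_neg_eq_add, two_smul]
  have a3 : (H * H + H) * (H * H - H) = 0 := by
    have : (H * H + H) * (H * H - H) = (H * H * H - H) * H := by noncomm_ring
    rw [this, hH3, sub_self, zero_mul]
  refine ⟨(4 : K)⁻¹ • G, hN, s.smul_mem _ hGs, hNN, ?_, ?_, ?_⟩
  · rw [smul_mul_smul_comm, hG]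
    have : (H * H - H) * X * (H * H + H) * ((H * H - H) * X * (H * H + H)) =
        (H * H - H) * X * ((H * H + H) * (H * H - H)) * (X * (H * H + H)) := by noncomm_ring
    rw [this, a3]; simp
  · rw [mul_smul_comm, smul_mul_assoc, hG]
    have : N * ((H * H - H) * X * (H * H + H)) * N = (N * (H * H - H)) * X * ((H * H + H) * N) := by
      noncomm_ring
    rw [this, a1, a2]
    rw [smul_mul_assoc, smul_mul_assoc, mul_smul_comm, hNXN, smul_smul, smul_smul]
    norm_num
  · -- `F N F = F`
    have b1 : (H * H - H) * (X * N) = H * H - H := by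
      have e1 : (H * H - H) * (N * X) = 0 := by
        have : (H * H - H) * (N * X) = (H * (H * N) - H * N) * X := by noncomm_ring
        rw [this, hHN, hHN, sub_self, zero_mul]
      have e2 : (H * H - H) * H = -(H * H - H) := by
        have : (H * H - H) * H = (H * H * H - H) - (H * H - H) := by noncomm_ring
        rw [this, hH3, sub_self, zero_sub]
      have e3 : X * N = N * X - H := by rw [hH]; abel
      rw [e3, mul_sub, e1, e2, zero_sub, neg_neg]
    have b2 : G * N * G = (4 : K) • G := by
      have e1 : G * N * G = ((H * H - H) * X * ((H * H + H) * N)) * ((H * H - H) * X * (H * H + H)) := by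
        rw [hG]; noncomm_ring
      have e2 : ((H * H - H) * X * ((2 : K) • N)) * ((H * H - H) * X * (H * H + H)) =
          (2 : K) • ((H * H - H) * X * (N * (H * H - H)) * (X * (H * H + H))) := by
        rw [mul_smul_comm, smul_mul_assoc]
        congr 1
      rw [e1, a1, e2, a2, mul_smul_comm, smul_mul_assoc, smul_smul]
      have e3 : (H * H - H) * X * N * (X * (H * H + H)) = G := by
        rw [mul_assoc (H * H - H), b1, hG, mul_assoc]
      rw [e3]; norm_num
    rw [smul_mul_assoc, smul_mul_smul_comm, b2, smul_smul]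
    norm_num

end Setup

end Pool.Agent.Helper66.OTR
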