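import Pool.Agent.Helper66.OTR.Main

/-!
# Reduction from `gsp` to `sp`
-/

namespace Pool.Agent.Helper66.OTR

open LinearMap

set_option linter.unusedSectionVars false

variable {K V : Type*} [Field K] [AddCommGroup V] [Module K V] [FiniteDimensional K V]
variable [CharZero K]

/-- the symplectic part of `g`, after removing scalars -/
def spart (ψ : LinearMap.BilinForm K V) (g : Submodule K (Module.End K V)) :
    Submodule K (Module.End K V) where
  carrier := {X | (∀ x y, ψ (X x) y = - ψ x (X y)) ∧ ∃ t : K, X + t • 1 ∈ g}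
  zero_mem' := ⟨by simp, 0, by simp⟩
  add_mem' := by
    rintro a b ⟨ha, t, ht⟩ ⟨hb, u, hu⟩
    refine ⟨fun x y => ?_, t + u, ?_⟩
    · simp only [LinearMap.add_apply, map_add, ha, hb]; ring
    · have := g.add_mem ht hu
      convert this using 1
      module
  smul_mem' := by
    rintro c a ⟨ha, t, ht⟩
    refine ⟨fun x y => ?_, c * t, ?_⟩
    · simp only [LinearMap.smul_apply, map_smul, ha, smul_eq_mul]; ring
    · have := g.smul_mem c ht
      convert this using 1
      module

lemma comm_scalar (X Y : Module.End K V) (t u : K) :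
    (X + t • 1) * (Y + u • 1) - (Y + u • 1) * (X + t • 1) = X * Y - Y * X := by
  simp only [add_mul, mul_add, smul_mul_assoc, mul_smul_comm, one_mul, mul_one]
  module

variable {ψ : LinearMap.BilinForm K V} {g : Submodule K (Module.End K V)}

lemma spart_closed (hg : LieClosed g) : LieClosed (spart ψ g) := by
  rintro X ⟨hX, t, ht⟩ Y ⟨hY, u, hu⟩
  refine ⟨fun x y => ?_, 0, ?_⟩
  · simp only [LinearMap.sub_apply, Module.End.mul_apply, map_sub, hX, hY]
    ring
  · rw [zero_smul, add_zero, ← comm_scalar X Y t u]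
    exact hg _ ht _ hu

lemma mem_spart (hgsp : ∀ X ∈ g, ∃ c : K, ∀ x y, ψ (X x) y + ψ x (X y) = c * ψ x y)
    {X : Module.End K V} (hX : X ∈ g) : ∃ c : K, X - c • 1 ∈ spart ψ g ∧
      ∀ x y, ψ (X x) y + ψ x (X y) = (2 * c) * ψ x y := by
  obtain ⟨c, hc⟩ := hgsp X hX
  refine ⟨c / 2, ⟨fun x y => ?_, c / 2, by rw [sub_add_cancel]; exact hX⟩, fun x y => ?_⟩
  · have h1 := hc x y
    simp only [LinearMap.sub_apply, LinearMap.smul_apply, Module.End.one_apply, map_sub, map_smul,
      smul_eq_mul]
    linear_combination h1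
  · rw [hc]; ring

lemma spart_irred (hgsp : ∀ X ∈ g, ∃ c : K, ∀ x y, ψ (X x) y + ψ x (X y) = c * ψ x y)
    (hirr : Irred g) : Irred (spart ψ g) := by
  refine ⟨hirr.1, fun W hW => hirr.2 W fun X hX w hw => ?_⟩
  obtain ⟨c, hc, -⟩ := mem_spart hgsp hX
  have h1 := hW _ hc w hw
  have h2 := W.add_mem h1 (W.smul_mem c hw)
  simpa using h2

lemma exists_ne_of_nd (hnd : ψ.Nondegenerate) {v : V} (hv : v ≠ 0) : ∃ w, ψ v w ≠ 0 := by
  by_contra hcon
  push Not at hcon
  refine hv ?_
  apply (LinearMap.BilinForm.nondegenerate_iff_ker_eq_bot.1 hnd |> LinearMap.ker_eq_bot.1)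
  ext x
  rw [hcon x, map_zero, LinearMap.zero_apply]

lemma spart_setup (hnd : ψ.Nondegenerate) (halt : ∀ x, ψ x x = 0) (hg : LieClosed g)
    (hgsp : ∀ X ∈ g, ∃ c : K, ∀ x y, ψ (X x) y + ψ x (X y) = c * ψ x y) (hirr : Irred g) :
    Setup ψ (spart ψ g) :=
  ⟨hnd, halt, spart_closed hg, spart_irred hgsp hirr, fun _ hX => hX.1⟩

/-- square zero elements lie in the symplectic part -/
lemma nilp_mem (hnd : ψ.Nondegenerate) [Nontrivial V]
    (hgsp : ∀ X ∈ g, ∃ c : K, ∀ x y, ψ (X x) y + ψ x (X y) = c * ψ x y) {N : Module.End K V}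
    (hN : N ∈ g) (hNN : N * N = 0) : N ∈ spart ψ g := by
  obtain ⟨c, hc⟩ := hgsp N hN
  have hNN' : ∀ x, N (N x) = 0 := fun x => by rw [← Module.End.mul_apply, hNN]; rfl
  have hc0 : c = 0 := by
    by_contra hne
    obtain ⟨v, hv⟩ := exists_ne (0 : V)
    obtain ⟨w, hw⟩ := exists_ne_of_nd hnd hv
    have h1 := hc (N v) (N w)
    rw [hNN', hNN'] at h1
    simp only [map_zero, LinearMap.zero_apply, add_zero] at h1
    have h2 : ψ (N v) (N w) = 0 := by
      rcases mul_eq_zero.1 h1.symm with h | h
      · exact absurd h hne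
      · exact h
    have h3 := hc (N v) w
    have h4 := hc v (N w)
    rw [hNN'] at h3 h4
    simp only [map_zero, add_zero, h2] at h3 h4
    have h5 := hc v w
    have h6 : ψ (N v) w = 0 := by
      rcases mul_eq_zero.1 h3.symm with h | h
      · exact absurd h hne
      · exact h
    have h7 : ψ v (N w) = 0 := by
      rcases mul_eq_zero.1 h4.symm with h | h
      · exact absurd h hne
      · exact h
    rw [h6, h7, add_zero] at h5
    rcases mul_eq_zero.1 h5.symm with h | h
    · exact hne h
    · exact hw h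
  refine ⟨fun x y => ?_, 0, by rw [zero_smul, add_zero]; exact hN⟩
  have := hc x y
  rw [hc0, zero_mul] at this
  exact eq_neg_of_add_eq_zero_left this

/-- the multiplier of an idempotent -/
lemma idem_mem (hnd : ψ.Nondegenerate) [Nontrivial V]
    (hgsp : ∀ X ∈ g, ∃ c : K, ∀ x y, ψ (X x) y + ψ x (X y) = c * ψ x y) {e : Module.End K V}
    (he : e ∈ g) (hee : e * e = e) :
    e = 0 ∨ e = 1 ∨ (e - (2 : K)⁻¹ • 1 ∈ spart ψ g) := by
  obtain ⟨c, hc, hc'⟩ := mem_spart hgsp he
  have hee' : ∀ x, e (e x) = e x := fun x => by rw [← Module.End.mul_apply, hee]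
  by_cases h0 : e = 0
  · exact Or.inl h0
  by_cases h1 : e = 1
  · exact Or.inr (Or.inl h1)
  refine Or.inr (Or.inr ?_)
  have hne : (1 : Module.End K V) - e ≠ 0 := fun h => h1 (sub_eq_zero.1 h).symm
  -- `ψ (e x) ((1 - e) y)` is nonzero for some `x, y`
  have hz : ∀ y, e (y - e y) = 0 := fun y => by rw [map_sub, hee', sub_self]
  have key : ∀ x y, ψ (e x) (y - e y) = (2 * c) * ψ (e x) (y - e y) := by
    intro x y
    have := hc' (e x) (y - e y)
    rw [hee', hz, map_zero, add_zero] at this
    exact this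
  have key0 : ∀ x y, (2 * c) * ψ (x - e x) (y - e y) = 0 := by
    intro x y
    have := hc' (x - e x) (y - e y)
    rw [hz, hz, map_zero, map_zero, LinearMap.zero_apply, add_zero] at this
    exact this.symm
  have key2 : ∀ x y, (2 - 2 * c) * ψ (e x) (e y) = 0 := by
    intro x y
    have := hc' (e x) (e y)
    rw [hee', hee'] at this
    linear_combination this
  by_cases hall : ∀ x y, ψ (e x) (y - e y) = 0
  · exfalso
    -- `ψ` is the orthogonal sum of the two parts
    by_cases hc0 : 2 * c = 0
    · -- then `ψ (e x) (e y) = 0`, so `e = 0`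
      apply h0
      ext x
      by_contra hx
      obtain ⟨y, hy⟩ := exists_ne_of_nd hnd hx
      apply hy
      have e1 : ψ (e x) y = ψ (e x) (y - e y) + ψ (e x) (e y) := by
        rw [← map_add]; congr 1; abel
      have e2 := key2 x y
      rw [hc0, sub_zero] at e2
      rw [e1, hall]
      simpa using e2
    · -- then `1 - e` is zero
      apply hne
      ext x
      by_contra hx
      obtain ⟨y, hy⟩ := exists_ne_of_nd hnd hx
      have hx' : (1 - e) x = x - e x := rfl
      rw [hx'] at hy
      apply hy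
      have e1 : ψ (x - e x) y = ψ (x - e x) (y - e y) + ψ (x - e x) (e y) := by
        rw [← map_add]; congr 1; abel
      have e2 : ψ (x - e x) (y - e y) = 0 := by
        rcases mul_eq_zero.1 (key0 x y) with h | h
        · exact absurd h hc0
        · exact h
      have e3 : ψ (x - e x) (e y) = 0 := by
        have h2 := hc' (x - e x) (e y)
        rw [hz, map_zero, LinearMap.zero_apply, zero_add, hee'] at h2
        -- `ψ (x - e x) (e y) = 2 c ψ (x - e x) (e y)`; use that `2 c = 1` or it vanishes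
        by_contra h3
        have h4 : (1 - 2 * c) * ψ (x - e x) (e y) = 0 := by linear_combination h2
        rcases mul_eq_zero.1 h4 with h5 | h5
        · -- `2 c = 1`: then `ψ (e x) (e y) = 0` and everything pairing with `e y` vanishes
          have h6 : 2 * c = 1 := by linear_combination -h5
          -- `e y ≠ 0`
          have hey : e y ≠ 0 := by
            intro h7; rw [h7, map_zero] at h3; exact h3 rfl
          obtain ⟨z, hz⟩ := exists_ne_of_nd hnd hey
          apply hz
          have e4 : ψ (e y) z = ψ (e y) (z - e z) + ψ (e y) (e z) := by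
            rw [← map_add]; congr 1; abel
          have e5 := key2 y z
          rw [h6] at e5
          rw [e4, hall, zero_add]
          have : (2 - 1 : K) = 1 := by norm_num
          rw [this, one_mul] at e5
          exact e5
        · exact h3 h5
      rw [e1, e2, e3, add_zero]
  · push Not at hall
    obtain ⟨x, y, hxy⟩ := hall
    have h2 : 2 * c = 1 := by
      have := key x y
      have h3 : (2 * c - 1) * ψ (e x) (y - e y) = 0 := by linear_combination -this
      rcases mul_eq_zero.1 h3 with h4 | h4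
      · linear_combination h4
      · exact absurd h4 hxy
    have h3 : c = (2 : K)⁻¹ := by
      exact eq_inv_of_mul_eq_one_right h2
    rwa [← h3]

/-- generation by idempotents passes to the symplectic part -/
lemma spart_gen (hnd : ψ.Nondegenerate) [Nontrivial V]
    (hgsp : ∀ X ∈ g, ∃ c : K, ∀ x y, ψ (X x) y + ψ x (X y) = c * ψ x y)
    (hgen : ∀ g' : Submodule K (Module.End K V), LieClosed g' →
      (∀ e ∈ g, e * e = e → e ∈ g') → g ≤ g') : Gen (spart ψ g) := by
  intro s' hs' hs'' X hX
  have hcl : LieClosed (spart ψ s') := spart_closed hs'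
  let g' : Submodule K (Module.End K V) :=
    { carrier := {Y | ∃ u : K, Y + u • 1 ∈ spart ψ s' ∧ Y + u • 1 ∈ s'}
      zero_mem' := ⟨0, by simp, by simp⟩
      add_mem' := by
        rintro a b ⟨t, ht, ht'⟩ ⟨u, hu, hu'⟩
        have e : a + b + (t + u) • (1 : Module.End K V) = (a + t • 1) + (b + u • 1) := by module
        refine ⟨t + u, ?_, ?_⟩
        · rw [e]; exact Submodule.add_mem _ ht hu
        · rw [e]; exact Submodule.add_mem _ ht' hu'
      smul_mem' := by
        rintro c a ⟨t, ht, ht'⟩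
        have e : c • a + (c * t) • (1 : Module.End K V) = c • (a + t • 1) := by module
        refine ⟨c * t, ?_, ?_⟩
        · rw [e]; exact Submodule.smul_mem _ _ ht
        · rw [e]; exact Submodule.smul_mem _ _ ht' }
  have hle : g ≤ g' := by
    refine hgen g' ?_ ?_
    · rintro Y ⟨t, ht, ht'⟩ Z ⟨u, hu, hu'⟩
      refine ⟨0, ?_, ?_⟩
      · rw [zero_smul, add_zero, ← comm_scalar Y Z t u]
        exact hcl _ ht _ hu
      · rw [zero_smul, add_zero, ← comm_scalar Y Z t u]
        exact hs' _ ht' _ hu'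
    · intro e he hee
      rcases idem_mem hnd hgsp he hee with h | h | h
      · exact ⟨0, by rw [h]; simp, by rw [h]; simp⟩
      · refine ⟨-1, ?_, ?_⟩ <;>
        · rw [h, neg_one_smul, add_neg_cancel]
          exact Submodule.zero_mem _
      · have h2 : (e - (2 : K)⁻¹ • 1) * (e - (2 : K)⁻¹ • 1) = (4 : K)⁻¹ • 1 := by
          simp only [sub_mul, mul_sub, smul_mul_assoc, mul_smul_comm, one_mul, mul_one, hee]
          match_scalars <;> norm_num
        have h3 := hs'' _ h h2
        have h4 : e + (-(2 : K)⁻¹) • (1 : Module.End K V) = e - (2 : K)⁻¹ • 1 := by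
          rw [neg_smul]; abel
        refine ⟨-(2 : K)⁻¹, ?_, ?_⟩
        · rw [h4]
          exact ⟨h.1, 0, by rw [zero_smul, add_zero]; exact h3⟩
        · rw [h4]; exact h3
  obtain ⟨hXsp, t, ht⟩ := hX
  obtain ⟨u, ⟨hu, -⟩, hu'⟩ := hle ht
  -- `t + u = 0`
  have htu : t + u = 0 := by
    by_contra hne
    obtain ⟨v, hv⟩ := exists_ne (0 : V)
    obtain ⟨w, hw⟩ := exists_ne_of_nd hnd hv
    apply hw
    have h1 := hu v w
    simp only [LinearMap.add_apply, LinearMap.smul_apply, Module.End.one_apply, map_add, map_smul,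
      smul_eq_mul, hXsp v w] at h1
    have h2 : (t + u) * ψ v w = 0 := by
      have h3 : (2 : K) * ((t + u) * ψ v w) = 0 := by linear_combination h1
      simpa using h3
    rcases mul_eq_zero.1 h2 with h3 | h3
    · exact absurd h3 hne
    · exact h3
  have : X + t • 1 + u • 1 = X := by
    rw [add_assoc, ← add_smul, htu, zero_smul, add_zero]
  rwa [this] at hu'

/-- if the symplectic part is everything then `sp ⊆ g` -/
lemma sp_le_of_spart (hnd : ψ.Nondegenerate) (halt : ∀ x, ψ x x = 0) (hg : LieClosed g)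
    (S : Setup ψ (spart ψ g))
    (hall : ∀ X : Module.End K V, (∀ x y, ψ (X x) y = - ψ x (X y)) → X ∈ spart ψ g)
    {X : Module.End K V} (hX : ∀ x y, ψ (X x) y = - ψ x (X y)) : X ∈ g := by
  have hcomm : ∀ Y Z : Module.End K V, (∀ x y, ψ (Y x) y = - ψ x (Y y)) →
      (∀ x y, ψ (Z x) y = - ψ x (Z y)) → Y * Z - Z * Y ∈ g := by
    intro Y Z hY hZ
    obtain ⟨-, t, ht⟩ := hall Y hY
    obtain ⟨-, u, hu⟩ := hall Z hZ
    rw [← comm_scalar Y Z t u]
    exact hg _ ht _ hu
  have hdiag : ∀ u, dot ψ u u ∈ g := by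
    intro u
    by_cases hu : u = 0
    · have : dot ψ u u = 0 := by
        rw [hu]; ext x; simp [dot_apply]
      rw [this]; exact g.zero_mem
    obtain ⟨v, hv⟩ := exists_ne_of_nd hnd hu
    have hv' : ψ v u ≠ 0 := by rw [S.neg]; exact neg_ne_zero.2 hv
    have h1 := hcomm _ _ (S.dot_sp u v) (S.dot_sp u u)
    rw [comm_dot (S.dot_sp u v), dot_apply, halt, zero_smul, zero_add, dot_smul, smul_dot] at h1
    have h2 := g.smul_mem (2 * ψ v u)⁻¹ h1
    have h3 : (2 * ψ v u)⁻¹ • (ψ v u • dot ψ u u + ψ v u • dot ψ u u) = dot ψ u u := by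
      rw [← two_smul K (ψ v u • dot ψ u u), smul_smul, smul_smul, mul_assoc,
        inv_mul_cancel₀ (mul_ne_zero two_ne_zero hv'), one_smul]
    rwa [h3] at h2
  have hdot : ∀ u w, dot ψ u w ∈ g := by
    intro u w
    have h1 := g.sub_mem (g.sub_mem (hdiag (u + w)) (hdiag u)) (hdiag w)
    rw [add_dot, dot_add, dot_add, dot_symm ψ w u] at h1
    have h2 := g.smul_mem (2 : K)⁻¹ h1
    have h3 : (2 : K)⁻¹ • (dot ψ u u + dot ψ u w + (dot ψ u w + dot ψ w w) - dot ψ u u -
        dot ψ w w) = dot ψ u w := by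
      match_scalars <;> norm_num
    rwa [h3] at h2
  exact S.sp_le hdot hX

end Pool.Agent.Helper66.OTR
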