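import Pool.Agent.Helper66.OTR.Half

/-!
# Square zero elements of degree one are injective on `V_{-1}`
-/

namespace Pool.Agent.Helper66.OTR

open LinearMap

set_option linter.unusedSectionVars false

variable {K V : Type*} [Field K] [AddCommGroup V] [Module K V] [FiniteDimensional K V]
variable {s : Submodule K (Module.End K V)} {M F : Module.End K V}
variable [CharZero K]

namespace Trip

/-- there are no elements of degree outside `-2, ..., 2` -/
lemma dg_big (t : Trip s M F) {Y : Module.End K V} {d : K} (h : Dg t.H d Y)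
    (h0 : d ≠ 0) (h1 : d ≠ 1) (h2 : d ≠ 2) (h3 : d ≠ -1) (h4 : d ≠ -2) : Y = 0 := by
  have e := sum_c M F Y
  have z1 : c1 M F Y = 0 := by
    unfold c1
    rw [h.proj t.PH t.HZ (by rw [sub_zero]; exact h1.symm),
      h.proj t.ZH t.HQ (by rw [zero_sub, neg_neg]; exact h1.symm), add_zero]
  have z2 : c0 M F Y = 0 := by
    unfold c0
    rw [h.proj t.PH t.HP (by rw [sub_self]; exact h0.symm),
      h.proj t.QH t.HQ (by rw [sub_self]; exact h0.symm),
      h.proj t.ZH t.HZ (by rw [sub_self]; exact h0.symm)]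
    simp
  have z3 : cm1 M F Y = 0 := by
    unfold cm1
    rw [h.proj t.ZH t.HP (by rw [zero_sub]; exact h3.symm),
      h.proj t.QH t.HZ (by rw [sub_zero]; exact h3.symm), add_zero]
  have z4 : (F * M) * Y * (M * F) = 0 := h.proj t.QH t.HP (by
    intro h5; apply h4; rw [← h5]; norm_num)
  have z5 : (M * F) * Y * (F * M) = 0 := h.proj t.PH t.HQ (by
    intro h5; apply h2; rw [← h5]; norm_num)
  rw [z1, z2, z3, z4, z5] at e
  simpa using e.symm

/-- `Y = P₁ Y + P₀ Y + P₋₁ Y` -/
lemma left_sum (M F Y : Module.End K V) :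
    (M * F) * Y + (1 - M * F - F * M) * Y + (F * M) * Y = Y := by
  noncomm_ring

lemma right_sum (M F Y : Module.End K V) :
    Y * (M * F) + Y * (1 - M * F - F * M) + Y * (F * M) = Y := by
  noncomm_ring

/-- sandwiching from the left only -/
lemma left_eq (t : Trip s M F) {Y E' : Module.End K V} {d b : K} (h : Dg t.H d Y)
    (hE' : t.H * E' = b • E') :
    (1 - b ≠ d → (M * F) * Y * E' = 0) ∧ (0 - b ≠ d → (1 - M * F - F * M) * Y * E' = 0) ∧
      (-1 - b ≠ d → (F * M) * Y * E' = 0) :=
  ⟨fun hn => h.proj t.PH hE' hn, fun hn => h.proj t.ZH hE' hn, fun hn => h.proj t.QH hE' hn⟩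

/-- elements of degree `-1` kill `V_{-1}` -/
lemma dgm1_Q (t : Trip s M F) {Y : Module.End K V} (h : Dg t.H (-1) Y) : Y * (F * M) = 0 := by
  obtain ⟨h1, h2, h3⟩ := t.left_eq h t.HQ
  have e := left_sum M F (Y * (F * M))
  rw [← mul_assoc, ← mul_assoc (1 - M * F - F * M), ← mul_assoc (F * M), h1 (by norm_num),
    h2 (by norm_num), h3 (by norm_num)] at e
  simpa using e.symm

lemma dgm2_Q (t : Trip s M F) {Y : Module.End K V} (h : Dg t.H (-2) Y) : Y * (F * M) = 0 := by
  obtain ⟨h1, h2, h3⟩ := t.left_eq h t.HQ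
  have e := left_sum M F (Y * (F * M))
  rw [← mul_assoc, ← mul_assoc (1 - M * F - F * M), ← mul_assoc (F * M), h1 (by norm_num),
    h2 (by norm_num), h3 (by norm_num)] at e
  simpa using e.symm

lemma dg1_Q (t : Trip s M F) {Y : Module.End K V} (h : Dg t.H 1 Y) :
    Y * (F * M) = (1 - M * F - F * M) * Y * (F * M) := by
  obtain ⟨h1, h2, h3⟩ := t.left_eq h t.HQ
  have e := left_sum M F (Y * (F * M))
  rw [← mul_assoc, ← mul_assoc (1 - M * F - F * M), ← mul_assoc (F * M), h1 (by norm_num),
    h3 (by norm_num)] at e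
  simpa using e.symm

lemma dg1_P (t : Trip s M F) {Y : Module.End K V} (h : Dg t.H 1 Y) : Y * (M * F) = 0 := by
  obtain ⟨h1, h2, h3⟩ := t.left_eq h t.HP
  have e := left_sum M F (Y * (M * F))
  rw [← mul_assoc, ← mul_assoc (1 - M * F - F * M), ← mul_assoc (F * M), h1 (by norm_num),
    h2 (by norm_num), h3 (by norm_num)] at e
  simpa using e.symm

lemma dg1_Z (t : Trip s M F) {Y : Module.End K V} (h : Dg t.H 1 Y) :
    Y * (1 - M * F - F * M) = (M * F) * Y * (1 - M * F - F * M) := by
  obtain ⟨h1, h2, h3⟩ := t.left_eq h t.HZ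
  have e := left_sum M F (Y * (1 - M * F - F * M))
  rw [← mul_assoc, ← mul_assoc (1 - M * F - F * M), ← mul_assoc (F * M), h2 (by norm_num),
    h3 (by norm_num)] at e
  simpa using e.symm

lemma dg1_lZ (t : Trip s M F) {Y : Module.End K V} (h : Dg t.H 1 Y) :
    (1 - M * F - F * M) * Y = (1 - M * F - F * M) * Y * (F * M) := by
  have e := right_sum M F ((1 - M * F - F * M) * Y)
  rw [h.proj t.ZH t.HP (by norm_num), h.proj t.ZH t.HZ (by norm_num)] at e
  simpa using e.symm

lemma dg1_lP (t : Trip s M F) {Y : Module.End K V} (h : Dg t.H 1 Y) :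
    (M * F) * Y = (M * F) * Y * (1 - M * F - F * M) := by
  have e := right_sum M F ((M * F) * Y)
  rw [h.proj t.PH t.HP (by norm_num), h.proj t.PH t.HQ (by norm_num)] at e
  simpa using e.symm

lemma dg2_Q (t : Trip s M F) {Y : Module.End K V} (h : Dg t.H 2 Y) : Y * (F * M) = Y := by
  rw [t.eq_of_dg2 h, mul_assoc, t.QQ]

lemma dg2_lP (t : Trip s M F) {Y : Module.End K V} (h : Dg t.H 2 Y) : (M * F) * Y = Y := by
  conv_lhs => rw [t.eq_of_dg2 h]
  have : (M * F) * ((M * F) * Y * (F * M)) = (M * F) * (M * F) * Y * (F * M) := by noncomm_ring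
  rw [this, t.PP, ← t.eq_of_dg2 h]

/-- elements of degree `0` commute with the projections -/
lemma dg0_comm (t : Trip s M F) {Y : Module.End K V} (h : Dg t.H 0 Y) :
    Y * (F * M) = (F * M) * Y ∧ Y * (M * F) = (M * F) * Y := by
  have h1 : t.H * Y = Y * t.H := by
    have : t.H * Y - Y * t.H = 0 := by
      have h2 : t.H * Y - Y * t.H = (0 : K) • Y := h
      rw [h2, zero_smul]
    exact sub_eq_zero.1 this
  have h2 : (t.H * t.H) * Y = Y * (t.H * t.H) := by
    rw [mul_assoc, h1, ← mul_assoc, h1, mul_assoc]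
  have e1 : (M * F + F * M) * Y = Y * (M * F + F * M) := by
    rw [← t.HH]; exact h2
  have e2 : (M * F - F * M) * Y = Y * (M * F - F * M) := h1
  have e3 : (2 : K) • (Y * (F * M)) = (2 : K) • ((F * M) * Y) := by
    have : (2 : K) • (Y * (F * M)) = Y * (M * F + F * M) - Y * (M * F - F * M) := by
      rw [two_smul]; noncomm_ring
    rw [this, ← e1, ← e2, two_smul]; noncomm_ring
  have e4 : (2 : K) • (Y * (M * F)) = (2 : K) • ((M * F) * Y) := by
    have : (2 : K) • (Y * (M * F)) = Y * (M * F + F * M) + Y * (M * F - F * M) := by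
      rw [two_smul]; noncomm_ring
    rw [this, ← e1, ← e2, two_smul]; noncomm_ring
  exact ⟨smul_right_injective _ (two_ne_zero (α := K)) e3,
    smul_right_injective _ (two_ne_zero (α := K)) e4⟩

end Trip

/-- trace of `a X` when `a X a = a` -/
lemma trace_of_inv {a X : Module.End K V} (h : a * X * a = a) :
    trace K V (a * X) = (Module.finrank K (LinearMap.range a) : K) := by
  have hE : a * X * (a * X) = a * X := by rw [← mul_assoc, h]
  have hr : LinearMap.range (a * X) = LinearMap.range a := by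
    apply le_antisymm
    · rintro _ ⟨w, rfl⟩
      exact ⟨X w, rfl⟩
    · rintro _ ⟨w, rfl⟩
      refine ⟨a w, ?_⟩
      rw [← Module.End.mul_apply, h]
  rw [trace_idem hE, hr]

/-- **Parity.** -/
lemma parity [IsAlgClosed K] (t : Trip s M F) (hodd : Odd (Module.finrank K (LinearMap.range M)))
    {Z : Module.End K V} {k : K} (h1 : (F * M) * Z = Z) (h2 : Z * (F * M) = Z)
    (hZ : Z * Z = k • (F * M)) (htr : trace K V Z = 0) : k = 0 := by
  by_contra hk
  obtain ⟨κ, hκ⟩ := IsAlgClosed.exists_pow_nat_eq k (n := 2) (by norm_num)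
  have hκ0 : κ ≠ 0 := by
    rintro rfl
    exact hk (by rw [← hκ]; ring)
  set E : Module.End K V := (2 * κ)⁻¹ • Z + (2 : K)⁻¹ • (F * M) with hE
  have hEE : E * E = E := by
    have : E * E = ((2 * κ)⁻¹ * (2 * κ)⁻¹) • (Z * Z) +
        ((2 * κ)⁻¹ * (2 : K)⁻¹) • (Z * (F * M)) +
        ((2 * κ)⁻¹ * (2 : K)⁻¹) • ((F * M) * Z) + ((2 : K)⁻¹ * (2 : K)⁻¹) • ((F * M) * (F * M)) := by
      rw [hE]
      simp only [add_mul, mul_add, smul_mul_assoc, mul_smul_comm]
      module
    rw [this, hZ, h1, h2, t.QQ, hE, ← hκ, smul_smul]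
    match_scalars
    · field_simp; ring
    · field_simp; ring
  have h3 := trace_idem hEE
  rw [hE, map_add, map_smul, map_smul, htr, smul_zero, zero_add, trace_mul_comm, t.trace_eq,
    smul_eq_mul] at h3
  have h4 : ((Module.finrank K (LinearMap.range M) : ℕ) : K) =
      ((2 * Module.finrank K (LinearMap.range E) : ℕ) : K) := by
    rw [Nat.cast_mul, Nat.cast_ofNat, ← h3]
    ring
  have h5 : Module.finrank K (LinearMap.range M) = 2 * Module.finrank K (LinearMap.range E) := by
    exact_mod_cast h4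
  rw [h5] at hodd
  exact (Nat.not_odd_iff_even.2 (even_two_mul _)) hodd

lemma Trip.odd_ne (t : Trip s M F) (hodd : Odd (Module.finrank K (LinearMap.range M))) :
    F * M ≠ 0 := by
  intro h
  have : M = 0 := by rw [← t.MFM, mul_assoc, h, mul_zero]
  rw [this, LinearMap.range_zero, finrank_bot] at hodd
  exact absurd hodd (by decide)

namespace Setup

variable {ψ : LinearMap.BilinForm K V}
variable [IsAlgClosed K]

/-- trace identity from the adjunction -/
lemma trace_Q (S : Setup ψ s) (t : Trip s M F) {Y : Module.End K V} (hY : Y ∈ s) :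
    trace K V (Y * (F * M)) = - trace K V (Y * (M * F)) := by
  have h1 : Adj ψ (Y * (F * M)) ((M * F) * (-Y)) := by
    have := (S.adj hY).mul ((S.adj t.hF).mul (S.adj t.hM))
    rwa [neg_mul_neg] at this
  rw [h1.trace_eq S.nd, mul_neg, map_neg, trace_mul_comm]

/-- **Lemma K.** -/
theorem inj (S : Setup ψ s) (t : Trip s M F) (j : t.J)
    (hodd : Odd (Module.finrank K (LinearMap.range M))) {a : Module.End K V} (ha : a ∈ t.A)
    (haa : a * a = 0) (ha0 : a ≠ 0) : ∃ X ∈ s, X * a * (F * M) = F * M := by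
  obtain ⟨X₀, hX₀, haX₀⟩ := S.jm ha.1 haa
  have hd := ha.2
  set X := Trip.cm1 M F X₀ with hX
  have hXs : X ∈ s := t.cm1_mem S.closed hX₀
  have hXd : Dg t.H (-1) X := t.dg_cm1 X₀
  have haX : a * X * a = a := by
    have e1 : (M * F) * a = a * (1 - M * F - F * M) := by
      rw [t.dg1_Z hd, ← t.dg1_lP hd]
    have e2 : a * (F * M) = (1 - M * F - F * M) * a := by
      rw [t.dg1_Q hd, ← t.dg1_lZ hd]
    have e3 : a * X * a = (a * (1 - M * F - F * M)) * X₀ * ((M * F) * a) +
        (a * (F * M)) * X₀ * ((1 - M * F - F * M) * a) := by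
      rw [hX]; unfold Trip.cm1; noncomm_ring
    have e4 : (a * (1 - M * F - F * M)) * X₀ * ((M * F) * a) =
        (M * F) * (a * X₀ * a) * (1 - M * F - F * M) := by
      rw [← e1]
      nth_rewrite 2 [e1]
      noncomm_ring
    have e5 : (a * (F * M)) * X₀ * ((1 - M * F - F * M) * a) =
        (1 - M * F - F * M) * (a * X₀ * a) * (F * M) := by
      rw [← e2]
      nth_rewrite 1 [e2]
      noncomm_ring
    rw [e3, e4, e5, haX₀, ← t.dg1_Z hd, ← t.dg1_Q hd]
    have e6 := Trip.right_sum M F a
    rw [t.dg1_P hd, zero_add] at e6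
    exact e6
  set G := a * X - X * a with hG
  have hGs : G ∈ s := S.closed _ ha.1 _ hXs
  have hGd : Dg t.H 0 G := (hd.comm hXd).congr (by norm_num)
  have hG3 : G * G * G = G := cube_comm haa haX
  obtain ⟨hGQ, hGP⟩ := t.dg0_comm hGd
  obtain ⟨c, hc⟩ := j.dg2 S.closed (S.closed _ hGs _ t.hM) ((hGd.comm t.dg_M).congr (by norm_num))
  -- traces
  have hm : ((Module.finrank K (LinearMap.range M) : ℕ) : K) ≠ 0 := by
    have := hodd.pos
    exact_mod_cast this.ne'
  have htr1 : c * (Module.finrank K (LinearMap.range M) : K) =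
      trace K V (G * (M * F)) - trace K V (G * (F * M)) := by
    have h1 := congrArg (fun Y => trace K V (Y * F)) hc
    simp only [smul_mul_assoc, map_smul, t.trace_eq, smul_eq_mul] at h1
    rw [← h1, sub_mul, map_sub, mul_assoc G M F]
    congr 1
    rw [mul_assoc M G F, trace_mul_comm, mul_assoc]
  have htr2 : c * (Module.finrank K (LinearMap.range M) : K) =
      (Module.finrank K (LinearMap.range a) : K) := by
    rw [htr1, ← trace_of_inv haX, ← map_sub, ← mul_sub]
    have h1 : G * (M * F - F * M) = a * X * t.H - X * (a * t.H) := by rw [hG]; noncomm_ring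
    rw [h1, map_sub, trace_mul_comm K X, mul_assoc a t.H X, mul_assoc a X t.H, ← map_sub, ← mul_sub]
    have h2 : X * t.H - t.H * X = X := by
      have h3 : t.H * X - X * t.H = (-1 : K) • X := hXd
      have h4 : X * t.H - t.H * X = -(t.H * X - X * t.H) := by abel
      rw [h4, h3]; simp
    rw [h2]
  have htr3 : c * (Module.finrank K (LinearMap.range M) : K) = - (2 * trace K V (G * (F * M))) := by
    rw [htr1, S.trace_Q t hGs]; ring
  have hr : (Module.finrank K (LinearMap.range a) : K) ≠ 0 := by
    intro h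
    apply ha0
    apply eq_zero_of_rank
    exact_mod_cast h
  have hc0 : c ≠ 0 := by
    rintro rfl
    rw [zero_mul] at htr2
    exact hr htr2.symm
  -- `D`
  obtain ⟨D, hD⟩ : ∃ D, D = G * (F * M) := ⟨_, rfl⟩
  rw [← hD] at htr3
  have hDQ : D * (F * M) = D := by rw [hD, mul_assoc, t.QQ]
  have hQD : (F * M) * D = D := by rw [hD, hGQ, ← mul_assoc, t.QQ]
  have hD3 : D * D * D = D := by
    have h1 : D * D * D = G * ((F * M) * G) * ((F * M) * G) * (F * M) := by rw [hD]; noncomm_ring
    rw [h1, ← hGQ]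
    have h2 : G * (G * (F * M)) * (G * (F * M)) * (F * M) = G * G * ((F * M) * G) *
      ((F * M) * (F * M)) := by noncomm_ring
    rw [h2, ← hGQ, t.QQ]
    have h3 : G * G * (G * (F * M)) * (F * M) = G * G * G * ((F * M) * (F * M)) := by noncomm_ring
    rw [h3, t.QQ, hG3, hD]
  have hE : F * G * M = D + c • (F * M) := by
    have h1 : G * M = M * G + c • M := by rw [← hc]; abel
    rw [mul_assoc, h1, mul_add, mul_smul_comm, ← mul_assoc, ← hGQ, hD]
  have hE3 : (F * G * M) * (F * G * M) * (F * G * M) = F * G * M := by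
    have h1 : (F * G * M) * (F * G * M) * (F * G * M) =
        F * (G * (M * F)) * (G * (M * F)) * G * M := by noncomm_ring
    rw [h1, hGP]
    have h2 : F * ((M * F) * G) * ((M * F) * G) * G * M = (F * M * F) * (G * (M * F)) * G * G * M := by
      noncomm_ring
    rw [h2, t.FMF, hGP]
    have h3 : F * ((M * F) * G) * G * G * M = (F * M * F) * (G * G * G) * M := by noncomm_ring
    rw [h3, t.FMF, hG3]
  have hi : (3 * c) • (D * D) + (3 * c * c) • D + (c * c * c - c) • (F * M) = 0 := by
    rw [hE] at hE3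
    have h1 : (D + c • (F * M)) * (D + c • (F * M)) * (D + c • (F * M)) =
        D * D * D + (3 * c) • (D * D) + (3 * c * c) • D + (c * c * c) • (F * M) := by
      have h2 : (D + c • (F * M)) * (D + c • (F * M)) = D * D + (2 * c) • D + (c * c) • (F * M) := by
        simp only [add_mul, mul_add, smul_mul_assoc, mul_smul_comm, hDQ, hQD, t.QQ]
        module
      rw [h2]
      simp only [add_mul, mul_add, smul_mul_assoc, mul_smul_comm, hDQ, hQD, t.QQ,
        mul_assoc D D (F * M)]
      module
    rw [h1, hD3] at hE3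
    have h3 : (3 * c) • (D * D) + (3 * c * c) • D + (c * c * c - c) • (F * M) =
        (D + (3 * c) • (D * D) + (3 * c * c) • D + (c * c * c) • (F * M)) -
          (D + c • (F * M)) := by module
    rw [h3, hE3, sub_self]
  have hii : (3 : K) • (D * D) + (3 * c) • D + (c * c - 1) • (F * M) = 0 := by
    have h1 : (3 : K) • (D * D) + (3 * c) • D + (c * c - 1) • (F * M) =
      c⁻¹ • ((3 * c) • (D * D) + (3 * c * c) • D + (c * c * c - c) • (F * M)) := by
      match_scalars <;> field_simp
    rw [h1, hi, smul_zero]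
  have hiii : (3 : K) • D + (3 * c) • (D * D) + (c * c - 1) • D = 0 := by
    have h1 := congrArg (fun Y => Y * D) hii
    simp only [add_mul, smul_mul_assoc, zero_mul, hQD, hD3] at h1
    exact h1
  have hiv : (c * c - 1) • ((2 : K) • D + c • (F * M)) = 0 := by
    have h1 : (c * c - 1) • ((2 : K) • D + c • (F * M)) =
        c • ((3 : K) • (D * D) + (3 * c) • D + (c * c - 1) • (F * M)) -
        ((3 : K) • D + (3 * c) • (D * D) + (c * c - 1) • D) := by module
    rw [h1, hii, hiii]; simp
  have hQne : F * M ≠ 0 := t.odd_ne hodd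
  by_cases hc1 : c * c - 1 = 0
  · -- parity contradiction
    exfalso
    have h1 : (2 : K) • D + c • (F * M) = (2 : K) • D + c • (F * M) := rfl
    have h2 : D * D = -c • D := by
      rw [hc1, zero_smul, add_zero] at hii
      have h3 : (3 : K) • (D * D + c • D) = 0 := by rw [← hii]; module
      rcases smul_eq_zero.1 h3 with h4 | h4
      · norm_num at h4
      · rw [neg_smul]; exact eq_neg_of_add_eq_zero_left h4
    have h5 : ((2 : K) • D + c • (F * M)) * ((2 : K) • D + c • (F * M)) = (1 : K) • (F * M) := by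
      simp only [add_mul, mul_add, smul_mul_assoc, mul_smul_comm, hDQ, hQD, t.QQ, smul_smul, h2]
      have h6 : c * c = 1 := sub_eq_zero.1 hc1
      match_scalars
      · ring
      · linear_combination h6
    have h7 : trace K V ((2 : K) • D + c • (F * M)) = 0 := by
      rw [map_add, map_smul, map_smul, trace_mul_comm K F M, t.trace_eq, smul_eq_mul,
        smul_eq_mul, htr3]
      ring
    exact one_ne_zero (parity t hodd (by
      rw [mul_add, mul_smul_comm, mul_smul_comm, hQD, t.QQ]) (by
      rw [add_mul, smul_mul_assoc, smul_mul_assoc, hDQ, t.QQ]) h5 h7)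
  · have h1 : (2 : K) • D + c • (F * M) = 0 := by
      rcases smul_eq_zero.1 hiv with h2 | h2
      · exact absurd h2 hc1
      · exact h2
    have h2 : D = (-(c / 2)) • (F * M) := by
      have h3 : (2 : K)⁻¹ • ((2 : K) • D + c • (F * M)) = 0 := by rw [h1, smul_zero]
      rw [smul_add, smul_smul, inv_mul_cancel₀ two_ne_zero, one_smul, smul_smul] at h3
      rw [eq_neg_of_add_eq_zero_left h3, ← neg_smul]
      congr 1
      ring
    have h3 : c * c = 4 := by
      have h4 := hD3
      rw [h2] at h4
      simp only [smul_mul_assoc, mul_smul_comm, smul_smul, t.QQ] at h4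
      have h5 : (-(c / 2) * (-(c / 2)) * (-(c / 2)) - -(c / 2)) • (F * M) = 0 := by
        rw [sub_smul, sub_eq_zero, ← h4]
        congr 1
        ring
      rcases smul_eq_zero.1 h5 with h6 | h6
      · have h7 : c * (c * c - 4) = 0 := by linear_combination -8 * h6
        rcases mul_eq_zero.1 h7 with h8 | h8
        · exact absurd h8 hc0
        · exact sub_eq_zero.1 h8
      · exact absurd h6 hQne
    have h4 : c = 2 := by
      have h5 : (c - 2) * (c + 2) = 0 := by linear_combination h3
      rcases mul_eq_zero.1 h5 with h6 | h6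
      · exact sub_eq_zero.1 h6
      · exfalso
        have h7 : c = -2 := eq_neg_of_add_eq_zero_left h6
        rw [h7] at htr2
        have h8 : ((Module.finrank K (LinearMap.range a) +
          2 * Module.finrank K (LinearMap.range M) : ℕ) : K) = 0 := by
          rw [Nat.cast_add, ← htr2, Nat.cast_mul]
          push_cast
          ring
        have h9 : Module.finrank K (LinearMap.range a) +
          2 * Module.finrank K (LinearMap.range M) = 0 := by exact_mod_cast h8
        have := hodd.pos
        omega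
    refine ⟨X, hXs, ?_⟩
    rw [h4] at h2
    have h5 : a * X * (F * M) = 0 := by rw [mul_assoc, t.dgm1_Q hXd, mul_zero]
    have h6 : D = - (X * a * (F * M)) := by
      rw [hD, hG, sub_mul, h5, zero_sub]
    rw [h6] at h2
    have h7 : X * a * (F * M) = - -(X * a * (F * M)) := by rw [neg_neg]
    rw [h7, h2, ← neg_smul]
    have : -(-((2 : K) / 2)) = 1 := by norm_num
    rw [this, one_smul]

end Setup

end Pool.Agent.Helper66.OTR
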