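import Pool.Agent.Helper66.OTR.Square

/-!
# The main theorem for subalgebras of `sp`
-/

namespace Pool.Agent.Helper66.OTR

open LinearMap

set_option linter.unusedSectionVars false

variable {K V : Type*} [Field K] [AddCommGroup V] [Module K V] [FiniteDimensional K V]
variable {s : Submodule K (Module.End K V)} {M F h : Module.End K V}
variable [CharZero K]

namespace Trip

/-- the degree one part seen from `V_{-1}` -/
lemma c1_Q (t : Trip s M F) (X : Module.End K V) :
    c1 M F X * (F * M) = (1 - M * F - F * M) * X * (F * M) := by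
  unfold c1
  have h1 : (1 - M * F - F * M) * (F * M) = 0 := by
    rw [sub_mul, sub_mul, one_mul, t.PQ, t.QQ]; simp
  rw [add_mul, mul_assoc _ (1 - M * F - F * M) (F * M), h1, mul_zero, zero_add,
    mul_assoc _ (F * M) (F * M), t.QQ]

lemma cm1_lQ (t : Trip s M F) (X : Module.End K V) :
    (F * M) * cm1 M F X = (F * M) * X * (1 - M * F - F * M) := by
  unfold cm1
  have h1 : (F * M) * (1 - M * F - F * M) = 0 := by
    rw [mul_sub, mul_sub, mul_one, t.QP, t.QQ]; simp
  have h2 : (F * M) * ((1 - M * F - F * M) * X * (M * F)) =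
    ((F * M) * (1 - M * F - F * M)) * X * (M * F) := by noncomm_ring
  have h3 : (F * M) * ((F * M) * X * (1 - M * F - F * M)) =
    ((F * M) * (F * M)) * X * (1 - M * F - F * M) := by noncomm_ring
  rw [mul_add, h2, h3, h1, t.QQ]
  simp

lemma ZZ (t : Trip s M F) : (1 - M * F - F * M) * (1 - M * F - F * M) = 1 - M * F - F * M := by
  have : (1 - M * F - F * M) * (1 - M * F - F * M) = 1 - (2 : ℕ) • (M * F) - (2 : ℕ) • (F * M) +
    (M * F) * (M * F) + (M * F) * (F * M) + (F * M) * (M * F) + (F * M) * (F * M) := by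
    noncomm_ring
  rw [this, t.PP, t.PQ, t.QP, t.QQ]
  noncomm_ring

end Trip

namespace Setup

variable {ψ : LinearMap.BilinForm K V}
variable [IsAlgClosed K]

/-- products of elements of degree `-1` and `1` are scalar on `V_{-1}` -/
lemma prod_m1 (S : Setup ψ s) (c : Cpt s M F h) {Y x : Module.End K V} (hY : Y ∈ s)
    (hYd : Dg c.t.H (-1) Y) (hx : x ∈ c.t.A) :
    ∃ k : K, (F * M) * Y * x * (F * M) = k • (F * M) := by
  have t := c.t
  obtain ⟨z, hz⟩ : ∃ z, z = M * Y - Y * M := ⟨_, rfl⟩
  have hzA : z ∈ c.t.A := by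
    rw [hz]
    exact ⟨S.closed _ t.hM _ hY, (t.dg_M.comm hYd).congr (by norm_num)⟩
  have hFY : F * Y = 0 := by
    refine t.dg_big (d := -3) ((t.dg_F.mul hYd).congr (by norm_num)) ?_ ?_ ?_ ?_ ?_ <;> norm_num
  have hFz : F * z = (F * M) * Y := by
    rw [hz, mul_sub, ← mul_assoc F Y M, hFY, zero_mul, sub_zero, mul_assoc]
  have e1 := S.sq c (Submodule.add_mem _ hzA hx)
  have e2 : (z + x) * (z + x) = z * z + x * x + (z * x + x * z) := by noncomm_ring
  rw [e2, S.sq c hzA, S.sq c hx, zero_add, zero_add] at e1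
  obtain ⟨ω, hω⟩ := c.j.dg2 S.closed (S.closed _ hzA.1 _ hx.1)
    ((hzA.2.comm hx.2).congr (by norm_num))
  have e3 : z * x = (2⁻¹ * ω) • M := by
    have : z * x = (2 : K)⁻¹ • ((z * x + x * z) + (z * x - x * z)) := by
      match_scalars <;> norm_num
    rw [this, e1, hω, zero_add, smul_smul]
  refine ⟨2⁻¹ * ω, ?_⟩
  have e4 : (F * M) * Y * x * (F * M) = F * (z * x) * (F * M) := by
    rw [← hFz, mul_assoc F z x]
  rw [e4, e3, mul_smul_comm, smul_mul_assoc, t.QQ]

/-- products on `V_{-1}` -/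
lemma prod_Q (S : Setup ψ s) (c : Cpt s M F h) {X Y : Module.End K V} (hX : X ∈ s) (hY : Y ∈ s) :
    ∃ k : K, (F * M) * (X * Y) * (F * M) =
      k • (F * M) + ((F * M) * X * (F * M)) * ((F * M) * Y * (F * M)) := by
  have t := c.t
  obtain ⟨β, hβ⟩ := c.j.dgm2 S.closed (t.cm2_mem S.closed hX) (t.dg_cm2 X)
  obtain ⟨α, hα⟩ := c.j.dg2 S.closed (t.c2_mem S.closed hY) (t.dg_c2 Y)
  obtain ⟨k, hk⟩ := S.prod_m1 c (t.cm1_mem S.closed hX) (t.dg_cm1 X)
    (x := Trip.c1 M F Y) ⟨t.c1_mem S.closed hY, t.dg_c1 Y⟩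
  refine ⟨β * α + k, ?_⟩
  rw [t.cm1_lQ, mul_assoc _ (Trip.c1 M F Y) (F * M), t.c1_Q] at hk
  have e1 : (F * M) * (X * Y) * (F * M) =
      ((F * M) * X * (M * F)) * Y * (F * M) + (F * M) * X * (1 - M * F - F * M) * Y * (F * M) +
        (F * M) * X * (F * M) * Y * (F * M) := by
    noncomm_ring
  have e2 : ((F * M) * X * (M * F)) * Y * (F * M) =
      ((F * M) * X * (M * F)) * ((M * F) * Y * (F * M)) := by
    have : ((F * M) * X * (M * F)) * ((M * F) * Y * (F * M)) =
      (F * M) * X * ((M * F) * (M * F)) * Y * (F * M) := by noncomm_ring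
    rw [this, t.PP]
  have e3 : (F * M) * X * (1 - M * F - F * M) * Y * (F * M) =
      (F * M) * X * (1 - M * F - F * M) * ((1 - M * F - F * M) * Y * (F * M)) := by
    have : (F * M) * X * (1 - M * F - F * M) * ((1 - M * F - F * M) * Y * (F * M)) =
      (F * M) * X * ((1 - M * F - F * M) * (1 - M * F - F * M)) * Y * (F * M) := by
      simp only [mul_assoc]
    rw [this, t.ZZ]
  have e4 : (F * M) * X * (F * M) * Y * (F * M) =
      ((F * M) * X * (F * M)) * ((F * M) * Y * (F * M)) := by
    have : ((F * M) * X * (F * M)) * ((F * M) * Y * (F * M)) =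
      (F * M) * X * ((F * M) * (F * M)) * Y * (F * M) := by noncomm_ring
    rw [this, t.QQ]
  rw [e1, e2, e3, hk, e4, hβ, hα, smul_mul_smul_comm]
  rw [add_smul]

/-- **Half-idempotents act on `V_{-1}` as scalars.** -/
theorem half_scalar (S : Setup ψ s) (c : Cpt s M F h) {g : Module.End K V} (hg : g ∈ s)
    (hgg : g * g = (4 : K)⁻¹ • 1) : ∃ k : K, (F * M) * g * (F * M) = k • (F * M) := by
  have t := c.t
  have hQne : F * M ≠ 0 := t.odd_ne c.odd
  obtain ⟨D, hD⟩ : ∃ D, D = (F * M) * g * (F * M) := ⟨_, rfl⟩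
  have hDQ : D * (F * M) = D := by rw [hD, mul_assoc, t.QQ]
  have hQD : (F * M) * D = D := by
    have : (F * M) * ((F * M) * g * (F * M)) = ((F * M) * (F * M)) * g * (F * M) := by
      noncomm_ring
    rw [hD, this, t.QQ]
  obtain ⟨k, hk⟩ : ∃ k : K, D * D = k • (F * M) := by
    obtain ⟨k, hk⟩ := S.prod_Q c hg hg
    rw [hgg, ← hD] at hk
    refine ⟨(4 : K)⁻¹ - k, ?_⟩
    rw [sub_smul]
    have e1 : (F * M) * ((4 : K)⁻¹ • 1) * (F * M) = (4 : K)⁻¹ • (F * M) := by
      rw [mul_smul_comm, smul_mul_assoc, mul_one, t.QQ]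
    rw [e1] at hk
    rw [hk]; abel
  -- degree zero part
  obtain ⟨g₀, hg₀⟩ : ∃ g₀, g₀ = Trip.c0 M F g := ⟨_, rfl⟩
  have hg₀s : g₀ ∈ s := by rw [hg₀]; exact t.c0_mem S.closed hg
  have hg₀d : Dg t.H 0 g₀ := by rw [hg₀]; exact t.dg_c0 g
  have hZM : (1 - M * F - F * M) * M = 0 := by
    rw [sub_mul, sub_mul, one_mul, t.MFM, mul_assoc F M M, t.MM]; simp
  have hMZ : M * (1 - M * F - F * M) = 0 := by
    rw [mul_sub, mul_sub, mul_one, ← mul_assoc M M F, t.MM, ← mul_assoc, t.MFM]; simp
  have hFZ : F * (1 - M * F - F * M) = 0 := by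
    rw [mul_sub, mul_sub, mul_one, ← mul_assoc F M F, t.FMF, ← mul_assoc F F M, t.FF]; simp
  have hg₀M : g₀ * M = (M * F) * g * M := by
    rw [hg₀]; unfold Trip.c0
    have : ((M * F) * g * (M * F) + (F * M) * g * (F * M) +
        (1 - M * F - F * M) * g * (1 - M * F - F * M)) * M =
        (M * F) * g * (M * F * M) + (F * M) * g * F * (M * M) +
        (1 - M * F - F * M) * g * ((1 - M * F - F * M) * M) := by
      noncomm_ring
    rw [this, t.MFM, t.MM, hZM]; simp
  have hMg₀ : M * g₀ = M * D := by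
    rw [hg₀, hD]; unfold Trip.c0
    have : M * ((M * F) * g * (M * F) + (F * M) * g * (F * M) +
        (1 - M * F - F * M) * g * (1 - M * F - F * M)) =
        (M * M) * (F * g * (M * F)) + M * ((F * M) * g * (F * M)) +
        (M * (1 - M * F - F * M)) * g * (1 - M * F - F * M) := by
      noncomm_ring
    rw [this, t.MM, hMZ]; simp
  have hg₀Q : g₀ * (F * M) = D := by
    obtain ⟨e1, -⟩ := t.dg0_comm hg₀d
    have : g₀ * (F * M) = (F * M) * g₀ * (F * M) := by rw [← e1, mul_assoc, t.QQ]
    rw [this, mul_assoc F M g₀, hMg₀, ← mul_assoc F M D, hQD, hDQ]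
  obtain ⟨γ, hγ⟩ := c.j.dg2 S.closed (S.closed _ hg₀s _ t.hM) ((hg₀d.comm t.dg_M).congr (by norm_num))
  have hE : F * g * M = D + γ • (F * M) := by
    have e1 : F * g * M = F * (g₀ * M) := by
      rw [hg₀M]
      have : F * ((M * F) * g * M) = (F * M * F) * g * M := by noncomm_ring
      rw [this, t.FMF]
    have e2 : g₀ * M = M * D + γ • M := by rw [← hγ, ← hMg₀]; abel
    rw [e1, e2, mul_add, mul_smul_comm, ← mul_assoc, hQD]
  -- adjoint of `D² = k Q`
  have adjQ : Adj ψ (F * M) (M * F) := by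
    have := (S.adj t.hF).mul (S.adj t.hM)
    rwa [neg_mul_neg] at this
  have hPP2 : (M * F) * g * (M * F) * g * (M * F) = k • (M * F) := by
    have e1 : Adj ψ ((F * M) * g * (F * M) * g * (F * M))
        ((M * F) * ((-g) * ((M * F) * ((-g) * (M * F))))) :=
      (((adjQ.mul (S.adj hg)).mul adjQ).mul (S.adj hg)).mul adjQ
    have e2 : (F * M) * g * (F * M) * g * (F * M) = k • (F * M) := by
      rw [← hk, hD]
      have : ((F * M) * g * (F * M)) * ((F * M) * g * (F * M)) =
        (F * M) * g * ((F * M) * (F * M)) * g * (F * M) := by noncomm_ring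
      rw [this, t.QQ]
    rw [e2] at e1
    have e3 : Adj ψ (k • (F * M)) (k • (M * F)) := by
      intro x y
      rw [LinearMap.smul_apply, LinearMap.smul_apply, map_smul, map_smul, LinearMap.smul_apply,
        adjQ]
    -- uniqueness of adjoints
    have e4 : (M * F) * ((-g) * ((M * F) * ((-g) * (M * F)))) = k • (M * F) := by
      ext y
      rw [← sub_eq_zero]
      by_contra hne
      obtain ⟨x, hx⟩ := S.exists_ne hne
      apply hx
      rw [S.neg, map_sub, ← e1, ← e3, sub_self, neg_zero]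
    rw [← e4]
    noncomm_ring
  have hEE : (D + γ • (F * M)) * (D + γ • (F * M)) = k • (F * M) := by
    rw [← hE]
    have e1 : F * g * M * (F * g * M) = (F * M * F) * g * (M * F) * g * (M * F * M) := by
      rw [t.FMF, t.MFM]; noncomm_ring
    have e2 : (F * M * F) * g * (M * F) * g * (M * F * M) =
      F * ((M * F) * g * (M * F) * g * (M * F)) * M := by noncomm_ring
    rw [e1, e2, hPP2, mul_smul_comm, smul_mul_assoc]
    congr 1
    rw [← mul_assoc, t.FMF]
  have hlin : γ • ((2 : K) • D + γ • (F * M)) = 0 := by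
    have e1 : (D + γ • (F * M)) * (D + γ • (F * M)) = D * D + (2 * γ) • D + (γ * γ) • (F * M) := by
      simp only [add_mul, mul_add, smul_mul_assoc, mul_smul_comm, hDQ, hQD, t.QQ]
      module
    rw [e1, hk] at hEE
    have e2 : γ • ((2 : K) • D + γ • (F * M)) =
      (k • (F * M) + (2 * γ) • D + (γ * γ) • (F * M)) - k • (F * M) := by module
    rw [e2, hEE, sub_self]
  by_cases hγ0 : γ = 0
  swap
  · refine ⟨-(γ / 2), ?_⟩
    rw [← hD]
    rcases smul_eq_zero.1 hlin with h1 | h1
    · exact absurd h1 hγ0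
    · have h3 : (2 : K)⁻¹ • ((2 : K) • D + γ • (F * M)) = 0 := by rw [h1, smul_zero]
      rw [smul_add, smul_smul, inv_mul_cancel₀ two_ne_zero, one_smul, smul_smul] at h3
      rw [eq_neg_of_add_eq_zero_left h3, ← neg_smul]
      congr 1
      ring
  rw [hγ0, zero_smul, add_zero] at hE
  rw [hγ0, zero_smul] at hγ
  by_cases hD0 : D = 0
  · exact ⟨0, by rw [← hD, hD0, zero_smul]⟩
  exfalso
  -- trace of `D`
  have htrD : trace K V D = 0 := by
    have e1 : Adj ψ D (-((M * F) * g * (M * F))) := by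
      have := (adjQ.mul (S.adj hg)).mul adjQ
      rw [← hD] at this
      have e : (M * F) * (-g * (M * F)) = -((M * F) * g * (M * F)) := by noncomm_ring
      rwa [e] at this
    have e2 := e1.trace_eq S.nd
    have e3 : trace K V ((M * F) * g * (M * F)) = trace K V D := by
      rw [← hE]
      have : (M * F) * g * (M * F) = M * (F * g * (M * F)) := by noncomm_ring
      rw [this, trace_mul_comm]
      have : F * g * (M * F) * M = F * g * (M * F * M) := by noncomm_ring
      rw [this, t.MFM]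
    rw [map_neg, e3] at e2
    have e4 : (2 : K) * trace K V D = 0 := by linear_combination e2
    simpa using e4
  have hk0 : k = 0 := parity t c.odd hQD hDQ hk htrD
  rw [hk0, zero_smul] at hk
  -- first component
  obtain ⟨α, hα⟩ := c.j.dg2 S.closed (t.c2_mem S.closed hg) (t.dg_c2 g)
  obtain ⟨x, hx⟩ : ∃ x, x = Trip.c1 M F g := ⟨_, rfl⟩
  have hxA : x ∈ c.t.A := by rw [hx]; exact ⟨t.c1_mem S.closed hg, t.dg_c1 g⟩
  have hxx := S.sq c hxA
  have hxQ : x * (F * M) = (1 - M * F - F * M) * g * (F * M) := by rw [hx, t.c1_Q]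
  have hPx : (M * F) * x = (M * F) * g * (1 - M * F - F * M) := by
    rw [hx]; unfold Trip.c1
    have h1 : (M * F) * (1 - M * F - F * M) = 0 := by
      rw [mul_sub, mul_sub, mul_one, t.PP, t.PQ]; simp
    have h2 : (M * F) * ((M * F) * g * (1 - M * F - F * M) + (1 - M * F - F * M) * g * (F * M)) =
      ((M * F) * (M * F)) * g * (1 - M * F - F * M) +
        ((M * F) * (1 - M * F - F * M)) * g * (F * M) := by noncomm_ring
    rw [h2, t.PP, h1]; simp
  have hα0 : α = 0 := by
    have e1 : (M * F) * (g * g) * (F * M) = ((M * F) * g) * ((M * F) * g * (F * M)) +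
        ((M * F) * g * (1 - M * F - F * M)) * (g * (F * M)) +
        ((M * F) * g * (F * M)) * (g * (F * M)) := by noncomm_ring
    have e2 : (M * F) * (g * g) * (F * M) = 0 := by
      rw [hgg, mul_smul_comm, smul_mul_assoc, mul_one, t.PQ, smul_zero]
    have e3 : ((M * F) * g * (1 - M * F - F * M)) * (g * (F * M)) = 0 := by
      have : ((M * F) * g * (1 - M * F - F * M)) * (g * (F * M)) =
          ((M * F) * g * (1 - M * F - F * M)) * ((1 - M * F - F * M) * g * (F * M)) := by
        have : ((M * F) * g * (1 - M * F - F * M)) * ((1 - M * F - F * M) * g * (F * M)) =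
            (M * F) * g * ((1 - M * F - F * M) * (1 - M * F - F * M)) * (g * (F * M)) := by
          simp only [mul_assoc]
        rw [this, t.ZZ]
      rw [this, ← hPx, ← hxQ]
      have : (M * F) * x * (x * (F * M)) = (M * F) * (x * x) * (F * M) := by noncomm_ring
      rw [this, hxx]; simp
    rw [e2, e3, hα] at e1
    have e4 : ((M * F) * g) * (α • M) = α • (M * D) := by
      rw [mul_smul_comm, ← hg₀M, ← hMg₀]
      congr 1
      exact sub_eq_zero.1 hγ
    have e5 : α • M * (g * (F * M)) = α • (M * D) := by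
      rw [smul_mul_assoc, hD]
      congr 1
      have : M * ((F * M) * g * (F * M)) = (M * F * M) * (g * (F * M)) := by noncomm_ring
      rw [this, t.MFM]
    rw [e4, e5, add_zero] at e1
    have e6 : (2 * α) • (M * D) = 0 := by rw [e1]; module
    rcases smul_eq_zero.1 e6 with h1 | h1
    · simpa using h1
    · exfalso
      apply hD0
      rw [← hQD, mul_assoc, h1, mul_zero]
  rw [hα0, zero_smul] at hα
  -- second component
  have hcomp2 : g₀ * x * (F * M) + x * D = 0 := by
    have e1 : (1 - M * F - F * M) * (g * g) * (F * M) =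
        ((1 - M * F - F * M) * g) * ((M * F) * g * (F * M)) +
        ((1 - M * F - F * M) * g * (1 - M * F - F * M)) * (g * (F * M)) +
        ((1 - M * F - F * M) * g * (F * M)) * (g * (F * M)) := by noncomm_ring
    have e2 : (1 - M * F - F * M) * (g * g) * (F * M) = 0 := by
      rw [hgg, mul_smul_comm, smul_mul_assoc, mul_one]
      have : (1 - M * F - F * M) * (F * M) = 0 := by
        rw [sub_mul, sub_mul, one_mul, t.PQ, t.QQ]; simp
      rw [this, smul_zero]
    have e3 : ((1 - M * F - F * M) * g * (1 - M * F - F * M)) * (g * (F * M)) =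
        g₀ * x * (F * M) := by
      rw [mul_assoc g₀, hxQ]
      have e4 : g₀ * (1 - M * F - F * M) = (1 - M * F - F * M) * g * (1 - M * F - F * M) := by
        rw [hg₀]; unfold Trip.c0
        have h1 : (M * F) * (1 - M * F - F * M) = 0 := by
          rw [mul_sub, mul_sub, mul_one, t.PP, t.PQ]; simp
        have h2 : (F * M) * (1 - M * F - F * M) = 0 := by
          rw [mul_sub, mul_sub, mul_one, t.QP, t.QQ]; simp
        rw [add_mul, add_mul, mul_assoc _ (M * F) (1 - M * F - F * M), h1,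
          mul_assoc _ (F * M) (1 - M * F - F * M), h2,
          mul_assoc _ (1 - M * F - F * M) (1 - M * F - F * M), t.ZZ]
        simp
      have e5 : g₀ * ((1 - M * F - F * M) * g * (F * M)) =
        (g₀ * (1 - M * F - F * M)) * (g * (F * M)) := by simp only [mul_assoc]
      rw [e5, e4]
    have e6 : ((1 - M * F - F * M) * g * (F * M)) * (g * (F * M)) = x * D := by
      rw [← hxQ, hD]
      simp only [mul_assoc]
    rw [e2, hα, mul_zero, zero_add, e3, e6] at e1
    exact e1.symm
  have hu : (g₀ * x - x * g₀) * (F * M) = (-2 : K) • (x * D) := by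
    have e1 : g₀ * x * (F * M) = - (x * D) := eq_neg_of_add_eq_zero_left hcomp2
    rw [sub_mul, e1, mul_assoc x g₀, hg₀Q]
    module
  have huA : (g₀ * x - x * g₀) ∈ c.t.A :=
    ⟨S.closed _ hg₀s _ hxA.1, (hg₀d.comm hxA.2).congr (by norm_num)⟩
  have hxD : x * D = 0 := by
    by_cases hu0 : g₀ * x - x * g₀ = 0
    · rw [hu0, zero_mul] at hu
      rcases smul_eq_zero.1 hu.symm with h1 | h1
      · norm_num at h1
      · exact h1
    · exfalso
      obtain ⟨X, hX, hXu⟩ := S.inj c.t c.j c.odd huA (S.sq c huA) hu0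
      apply hD0
      rw [← hQD, ← hXu, mul_assoc X, hu]
      have : X * ((-2 : K) • (x * D)) * D = (-2 : K) • (X * x * (D * D)) := by
        rw [mul_smul_comm, smul_mul_assoc]
        simp only [mul_assoc]
      rw [this, hk]; simp
  have hx0 : x = 0 := by
    by_contra hne
    obtain ⟨X, hX, hXu⟩ := S.inj c.t c.j c.odd hxA hxx hne
    apply hD0
    rw [← hQD, ← hXu]
    have : X * x * (F * M) * D = X * (x * ((F * M) * D)) := by simp only [mul_assoc]
    rw [this, hQD, hxD, mul_zero]
  -- contradiction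
  rw [hx0, zero_mul] at hxQ
  have e1 : (F * M) * (g * g) * (F * M) = ((F * M) * g) * ((M * F) * g * (F * M)) +
      ((F * M) * g) * ((1 - M * F - F * M) * g * (F * M)) +
      ((F * M) * g * (F * M)) * (g * (F * M)) := by noncomm_ring
  have e2 : ((F * M) * g * (F * M)) * (g * (F * M)) = D * D := by
    conv_rhs => rw [hD]
    have : ((F * M) * g * (F * M)) * ((F * M) * g * (F * M)) =
      (F * M) * g * ((F * M) * (F * M)) * (g * (F * M)) := by noncomm_ring
    rw [this, t.QQ]
  rw [hα, ← hxQ, e2, hk, hgg, mul_smul_comm, smul_mul_assoc, mul_one, t.QQ] at e1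
  simp only [mul_zero, add_zero] at e1
  rcases smul_eq_zero.1 e1 with h1 | h1
  · norm_num at h1
  · exact hQne h1

/-- **Main theorem for subalgebras of `sp`.** -/
theorem main_odd (S : Setup ψ s) (hgen : Gen s) {N : Module.End K V} (hN : N ∈ s)
    (hNN : N * N = 0) (hodd : Odd (Module.finrank K (LinearMap.range N))) {X : Module.End K V}
    (hX : ∀ x y, ψ (X x) y = - ψ x (X y)) : X ∈ s := by
  obtain ⟨M, F, h, c⟩ := S.exists_cpt hgen hN hNN hodd
  have t := c.t
  have hQne : F * M ≠ 0 := t.odd_ne c.odd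
  -- everything is scalar on `V_{-1}`
  let s' : Submodule K (Module.End K V) :=
    { carrier := {Y | Y ∈ s ∧ ∃ k : K, (F * M) * Y * (F * M) = k • (F * M)}
      zero_mem' := ⟨s.zero_mem, 0, by simp⟩
      add_mem' := by
        rintro a b ⟨ha, k, hk⟩ ⟨hb, l, hl⟩
        refine ⟨s.add_mem ha hb, k + l, ?_⟩
        rw [mul_add, add_mul, hk, hl, add_smul]
      smul_mem' := by
        rintro r a ⟨ha, k, hk⟩
        refine ⟨s.smul_mem r ha, r * k, ?_⟩
        rw [mul_smul_comm, smul_mul_assoc, hk, smul_smul] }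
  have hs' : LieClosed s' := by
    rintro Y ⟨hY, k, hk⟩ Z ⟨hZ, l, hl⟩
    refine ⟨S.closed _ hY _ hZ, ?_⟩
    obtain ⟨u, hu⟩ := S.prod_Q c hY hZ
    obtain ⟨v, hv⟩ := S.prod_Q c hZ hY
    refine ⟨u - v, ?_⟩
    rw [mul_sub, sub_mul, hu, hv, hk, hl, smul_mul_smul_comm, smul_mul_smul_comm, t.QQ,
      mul_comm l k]
    module
  have hle : s ≤ s' := hgen s' hs' (fun g hg hgg => ⟨hg, S.half_scalar c hg hgg⟩)
  have hsc : ∀ Y ∈ s, ∃ k : K, (F * M) * Y * (F * M) = k • (F * M) := fun Y hY => (hle hY).2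
  -- a vector
  obtain ⟨w, hw⟩ : ∃ w, (F * M) w ≠ 0 := by
    by_contra hcon
    push Not at hcon
    exact hQne (LinearMap.ext hcon)
  obtain ⟨v₀, hv₀⟩ : ∃ v₀, v₀ = (F * M) w := ⟨_, rfl⟩
  rw [← hv₀] at hw
  have hv₀' : (F * M) v₀ = v₀ := by
    rw [hv₀, ← Module.End.mul_apply, t.QQ]
  have h0 : ∀ Y ∈ s, Dg t.H 0 Y → ∃ c : K, Y v₀ = c • v₀ := by
    intro Y hY hd
    obtain ⟨k, hk⟩ := hsc Y hY
    refine ⟨k, ?_⟩
    have e1 : Y * (F * M) = k • (F * M) := by
      rw [← hk, ← (t.dg0_comm hd).1, mul_assoc, t.QQ]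
    have e2 := congrArg (fun f => f v₀) e1
    rw [Module.End.mul_apply, LinearMap.smul_apply, hv₀'] at e2
    exact e2
  have hall := t.stable S.closed S.irred c.j hv₀' hw h0
  have hrank : Module.finrank K (LinearMap.range M) = 1 := by
    have e1 : LinearMap.range (F * M) ≤ Submodule.span K {v₀} := by
      rintro _ ⟨z, rfl⟩
      obtain ⟨k, hk⟩ := hall ((F * M) z) (by rw [← Module.End.mul_apply, t.QQ])
      rw [hk]
      exact Submodule.smul_mem _ _ (Submodule.mem_span_singleton_self _)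
    have e2 := Submodule.finrank_mono e1
    rw [finrank_span_singleton hw] at e2
    have e3 : LinearMap.range M = (LinearMap.range (F * M)).map M := by
      rw [← LinearMap.range_comp]
      congr 1
      have := t.MFM
      rw [mul_assoc] at this
      exact this.symm
    have e4 : Module.finrank K (LinearMap.range M) ≤ Module.finrank K (LinearMap.range (F * M)) := by
      rw [e3]; exact Submodule.finrank_map_le _ _
    have := c.odd.pos
    omega
  exact S.rank_one t.hM hrank hX

end Setup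

end Pool.Agent.Helper66.OTR
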