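import Pool.Agent.Helper66.OTR.RankTwo

/-!
# Minimal square zero elements of odd rank
-/

namespace Pool.Agent.Helper66.OTR

open LinearMap Polynomial

set_option linter.unusedSectionVars false

variable {K V : Type*} [Field K] [AddCommGroup V] [Module K V] [FiniteDimensional K V]

/-- polynomials in `x` lie in every subspace containing the powers of `x` -/
lemma aeval_mem {A : Type*} [Ring A] [Algebra K A] {x : A} {U : Submodule K A}
    (h : ∀ n : ℕ, x ^ n ∈ U) (p : K[X]) : aeval x p ∈ U := by
  rw [aeval_eq_sum_range]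
  exact U.sum_mem fun i _ => U.smul_mem _ (h i)

lemma LieClosed.quad2 [CharZero K] {s : Submodule K (Module.End K V)} (hs : LieClosed s)
    {b b' X : Module.End K V} (hb : b ∈ s) (hb' : b' ∈ s) (h1 : b * b = 0) (h2 : b' * b' = 0)
    (h3 : b * b' + b' * b = 0) (hX : X ∈ s) : b * X * b' + b' * X * b ∈ s := by
  have e1 := hs.quad hb h1 hX
  have e2 := hs.quad hb' h2 hX
  have e3 := hs.quad (s.add_mem hb hb') (by
    have : (b + b') * (b + b') = b * b + b' * b' + (b * b' + b' * b) := by noncomm_ring
    rw [this, h1, h2, h3]; simp) hX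
  have e4 := s.sub_mem (s.sub_mem e3 e1) e2
  convert e4 using 1
  noncomm_ring

/-- ranks of triples -/
lemma Trip.trace_eq {s : Submodule K (Module.End K V)} {M F : Module.End K V} (t : Trip s M F) :
    trace K V (M * F) = (Module.finrank K (LinearMap.range M) : K) := by
  have h : LinearMap.range (M * F) = LinearMap.range M := by
    apply le_antisymm
    · rintro _ ⟨w, rfl⟩
      exact ⟨F w, rfl⟩
    · rintro _ ⟨w, rfl⟩
      refine ⟨M w, ?_⟩
      rw [← Module.End.mul_apply, t.MFM]
  rw [trace_idem t.PP, h]

section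

variable {s : Submodule K (Module.End K V)} {N F a : Module.End K V}

lemma NxN (NN : N * N = 0) (h : N * F * a = a) (n : ℕ) : N * (a * F) ^ n * N = 0 := by
  rcases n with _ | n
  · simp [NN]
  · rw [pow_succ']
    have : N * (a * F * (a * F) ^ n) * N = N * a * (F * (a * F) ^ n * N) := by noncomm_ring
    rw [this]
    have h2 : N * a = 0 := by
      rw [← h]
      have : N * (N * F * a) = N * N * (F * a) := by noncomm_ring
      rw [this, NN, zero_mul]
    rw [h2, zero_mul]

lemma NFxN (h0 : N * F * N = N) (h : N * F * a = a) (n : ℕ) :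
    N * F * (a * F) ^ n * N = (a * F) ^ n * N := by
  rcases n with _ | n
  · simp [h0]
  · rw [pow_succ']
    have : N * F * (a * F * (a * F) ^ n) * N = N * F * a * (F * (a * F) ^ n * N) := by
      noncomm_ring
    rw [this, h]; noncomm_ring

lemma pow_mem_aux [CharZero K] (hs : LieClosed s) (t : Trip s N F) (ha : a ∈ s)
    (h : N * F * a = a) (h' : a * F * N = a) (n : ℕ) : (a * F) ^ n * N ∈ s := by
  induction n with
  | zero => simpa using t.hM
  | succ n ih =>
    have e1 : (a * F) ^ n * N * ((a * F) ^ n * N) = 0 := by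
      have : (a * F) ^ n * N * ((a * F) ^ n * N) = (a * F) ^ n * (N * (a * F) ^ n * N) := by
        noncomm_ring
      rw [this, NxN t.MM h, mul_zero]
    have hNa : N * a = 0 := by
      rw [← h]
      have : N * (N * F * a) = N * N * (F * a) := by noncomm_ring
      rw [this, t.MM, zero_mul]
    have e2 : a * a = 0 := by
      have : a * a = a * F * (N * a) := by
        rw [← mul_assoc, h']
      rw [this, hNa, mul_zero]
    have e3 : (a * F) ^ n * N * a + a * ((a * F) ^ n * N) = 0 := by
      rw [mul_assoc, hNa, mul_zero, zero_add]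
      have : a * ((a * F) ^ n * N) = a * F * (N * (a * F) ^ n * N) := by
        have h6 : a * F * (N * (a * F) ^ n * N) = a * F * N * ((a * F) ^ n * N) := by noncomm_ring
        rw [h6, h']
      rw [this, NxN t.MM h, mul_zero]
    have e4 := hs.quad2 ih ha e1 e2 e3 t.hF
    have e5 : (a * F) ^ n * N * F * a + a * F * ((a * F) ^ n * N) = (2 : K) • ((a * F) ^ (n + 1) * N) := by
      have h6 : (a * F) ^ n * N * F * a = (a * F) ^ n * (N * F * a) := by noncomm_ring
      have h7 : (a * F) ^ n * a = (a * F) ^ n * (a * F * N) := by rw [h']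
      have h8 : (a * F) ^ n * (a * F * N) = (a * F) ^ (n + 1) * N := by
        rw [pow_succ]; noncomm_ring
      have h9 : a * F * ((a * F) ^ n * N) = (a * F) ^ (n + 1) * N := by
        rw [pow_succ']; noncomm_ring
      rw [h6, h, h7, h8, h9, two_smul]
    rw [e5] at e4
    have := s.smul_mem (2 : K)⁻¹ e4
    rwa [smul_smul, inv_mul_cancel₀ two_ne_zero, one_smul] at this

lemma poly_mem [CharZero K] (hs : LieClosed s) (t : Trip s N F) (ha : a ∈ s)
    (h : N * F * a = a) (h' : a * F * N = a) (p : K[X]) : aeval (a * F) p * N ∈ s :=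
  aeval_mem (U := s.comap (LinearMap.mulRight K N)) (fun n => pow_mem_aux hs t ha h h' n) p

lemma N_poly (NN : N * N = 0) (h : N * F * a = a) (p : K[X]) : N * aeval (a * F) p * N = 0 := by
  have := aeval_mem (x := a * F) (U := LinearMap.ker ((LinearMap.mulRight K N) ∘ₗ
    (LinearMap.mulLeft K N))) (fun n => by
      rw [LinearMap.mem_ker]
      exact NxN NN h n) p
  rw [LinearMap.mem_ker] at this
  exact this

lemma NF_poly (h0 : N * F * N = N) (h : N * F * a = a) (p : K[X]) :
    N * F * aeval (a * F) p * N = aeval (a * F) p * N := by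
  have := aeval_mem (x := a * F) (U := LinearMap.ker ((LinearMap.mulRight K N) ∘ₗ
    (LinearMap.mulLeft K (N * F)) - LinearMap.mulRight K N)) (fun n => by
      rw [LinearMap.mem_ker, LinearMap.sub_apply, sub_eq_zero]
      exact NFxN h0 h n) p
  rw [LinearMap.mem_ker, LinearMap.sub_apply, sub_eq_zero] at this
  exact this

/-- additivity of the rank -/
lemma rank_add (t : Trip s N F) (h : N * F * a = a) {p q : K[X]}
    (hpq : IsCoprime p q) (h0 : aeval (a * F) (p * q) * N = 0) :
    Module.finrank K (LinearMap.range (aeval (a * F) p * N)) +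
      Module.finrank K (LinearMap.range (aeval (a * F) q * N)) =
      Module.finrank K (LinearMap.range N) := by
  obtain ⟨u, v, huv⟩ := hpq
  set A := aeval (a * F) p * N with hA
  set B := aeval (a * F) q * N with hB
  have hinf : LinearMap.range A ⊓ LinearMap.range B = ⊥ := by
    rw [eq_bot_iff]
    rintro w ⟨⟨α, rfl⟩, ⟨β, hβ⟩⟩
    rw [Submodule.mem_bot]
    have h1 : aeval (a * F) q (A α) = 0 := by
      have : aeval (a * F) q * A = 0 := by
        rw [hA, ← mul_assoc, ← map_mul, mul_comm q p, h0]
      rw [← Module.End.mul_apply, this, LinearMap.zero_apply]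
    have h2 : aeval (a * F) p (B β) = 0 := by
      have : aeval (a * F) p * B = 0 := by
        rw [hB, ← mul_assoc, ← map_mul, h0]
      rw [← Module.End.mul_apply, this, LinearMap.zero_apply]
    rw [hβ] at h2
    have h4 : ∀ w, aeval (a * F) q w = 0 → aeval (a * F) p w = 0 → w = 0 := by
      intro w hq hp
      have h3 : aeval (a * F) (u * p + v * q) w = w := by
        rw [huv]; simp
      rw [← h3, map_add, map_mul, map_mul, LinearMap.add_apply, Module.End.mul_apply,
        Module.End.mul_apply, hq, hp, map_zero, map_zero, add_zero]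
    exact h4 _ h1 h2
  have hsup : LinearMap.range A ⊔ LinearMap.range B = LinearMap.range N := by
    apply le_antisymm
    · rw [sup_le_iff]
      constructor
      · rintro _ ⟨w, rfl⟩
        rw [hA, ← NF_poly t.MFM h]
        exact ⟨_, rfl⟩
      · rintro _ ⟨w, rfl⟩
        rw [hB, ← NF_poly t.MFM h]
        exact ⟨_, rfl⟩
    · rintro _ ⟨w, rfl⟩
      have e1 : N = A * (F * (aeval (a * F) u * N)) + B * (F * (aeval (a * F) v * N)) := by
        have e2 : A * (F * (aeval (a * F) u * N)) = aeval (a * F) (u * p) * N := by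
          have : A * (F * (aeval (a * F) u * N)) =
            aeval (a * F) p * (N * F * aeval (a * F) u * N) := by rw [hA]; noncomm_ring
          rw [this, NF_poly t.MFM h, ← mul_assoc, ← map_mul, mul_comm u p]
        have e3 : B * (F * (aeval (a * F) v * N)) = aeval (a * F) (v * q) * N := by
          have : B * (F * (aeval (a * F) v * N)) =
            aeval (a * F) q * (N * F * aeval (a * F) v * N) := by rw [hB]; noncomm_ring
          rw [this, NF_poly t.MFM h, ← mul_assoc, ← map_mul, mul_comm v q]
        rw [e2, e3, ← add_mul, ← map_add, huv, map_one, one_mul]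
      rw [e1, LinearMap.add_apply]
      exact Submodule.add_mem_sup ⟨_, rfl⟩ ⟨_, rfl⟩
  have h4 := Submodule.finrank_sup_add_finrank_inf_eq (LinearMap.range A) (LinearMap.range B)
  rw [hinf, hsup, finrank_bot, add_zero] at h4
  exact h4.symm

/-- `N` is a square zero element of odd rank, minimal with this property -/
structure MinOdd (s : Submodule K (Module.End K V)) (N : Module.End K V) : Prop where
  odd : Odd (Module.finrank K (LinearMap.range N))
  min : ∀ N' ∈ s, N' * N' = 0 → Odd (Module.finrank K (LinearMap.range N')) →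
    Module.finrank K (LinearMap.range N) ≤ Module.finrank K (LinearMap.range N')

lemma eq_zero_of_rank {X : Module.End K V} (h : Module.finrank K (LinearMap.range X) = 0) :
    X = 0 := by
  rwa [Submodule.finrank_eq_zero, LinearMap.range_eq_bot] at h

lemma MinOdd.split [CharZero K] (mo : MinOdd s N) (hs : LieClosed s) (t : Trip s N F) (ha : a ∈ s)
    (h : N * F * a = a) (h' : a * F * N = a) {p q : K[X]} (hpq : IsCoprime p q)
    (h0 : aeval (a * F) (p * q) * N = 0) :
    aeval (a * F) p * N = 0 ∨ aeval (a * F) q * N = 0 := by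
  have h1 := rank_add t h hpq h0
  have sq : ∀ r : K[X], aeval (a * F) r * N * (aeval (a * F) r * N) = 0 := by
    intro r
    have : aeval (a * F) r * N * (aeval (a * F) r * N) =
      aeval (a * F) r * (N * aeval (a * F) r * N) := by noncomm_ring
    rw [this, N_poly t.MM h, mul_zero]
  have hodd := mo.odd
  rw [← h1] at hodd
  rcases Nat.even_or_odd (Module.finrank K (LinearMap.range (aeval (a * F) p * N))) with he | ho
  · have ho' := (Nat.odd_add.1 hodd)
    have ho2 : Odd (Module.finrank K (LinearMap.range (aeval (a * F) q * N))) := by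
      by_contra hcon
      rw [Nat.not_odd_iff_even] at hcon
      exact (Nat.not_odd_iff_even.2 he) (ho'.2 hcon)
    have := mo.min _ (poly_mem hs t ha h h' q) (sq q) ho2
    left
    exact eq_zero_of_rank (by omega)
  · have := mo.min _ (poly_mem hs t ha h h' p) (sq p) ho
    right
    exact eq_zero_of_rank (by omega)

lemma MinOdd.ne_zero (mo : MinOdd s N) : N ≠ 0 := by
  rintro rfl
  have := mo.odd
  rw [LinearMap.range_zero, finrank_bot] at this
  exact absurd this (by decide)

lemma MinOdd.exists_pow [CharZero K] [IsAlgClosed K] (mo : MinOdd s N) (hs : LieClosed s)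
    (t : Trip s N F) (ha : a ∈ s) (h : N * F * a = a) (h' : a * F * N = a) :
    ∀ n : ℕ, ∀ f : K[X], f ≠ 0 → f.natDegree ≤ n → aeval (a * F) f * N = 0 →
      ∃ (μ : K) (k : ℕ), aeval (a * F) ((X - C μ) ^ k) * N = 0 := by
  intro n
  induction n with
  | zero =>
    intro f hf hd h0
    exfalso
    have h1 := Polynomial.eq_C_of_natDegree_le_zero hd
    have h2 : f.coeff 0 ≠ 0 := by
      intro h3
      rw [h3, map_zero] at h1
      exact hf h1
    rw [h1, aeval_C, Algebra.algebraMap_eq_smul_one, smul_mul_assoc, one_mul] at h0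
    rcases smul_eq_zero.1 h0 with h3 | h3
    · exact h2 h3
    · exact mo.ne_zero h3
  | succ n ih =>
    intro f hf hd h0
    rcases Nat.eq_zero_or_pos f.natDegree with hz | hpos
    · exact ih f hf (by omega) h0
    obtain ⟨μ, hμ⟩ := IsAlgClosed.exists_root f (by
      intro h1
      rw [Polynomial.degree_eq_natDegree hf] at h1
      have : f.natDegree = 0 := by exact_mod_cast h1
      omega)
    obtain ⟨g, hg, hg'⟩ := Polynomial.exists_eq_pow_rootMultiplicity_mul_and_not_dvd f hf μ
    have hk : 0 < f.rootMultiplicity μ := (Polynomial.rootMultiplicity_pos hf).2 hμ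
    have hg0 : g ≠ 0 := by
      rintro rfl
      exact hg' (dvd_zero _)
    have hcop : IsCoprime ((X - C μ) ^ (f.rootMultiplicity μ)) g :=
      (((Polynomial.irreducible_X_sub_C μ).coprime_iff_not_dvd).2 hg').pow_left
    rcases mo.split hs t ha h h' hcop (by rw [← hg]; exact h0) with h1 | h1
    · exact ⟨μ, _, h1⟩
    · refine ih g hg0 ?_ h1
      have h2 : f.natDegree = f.rootMultiplicity μ + g.natDegree := by
        conv_lhs => rw [hg]
        rw [Polynomial.natDegree_mul (pow_ne_zero _ (Polynomial.X_sub_C_ne_zero μ)) hg0,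
          Polynomial.natDegree_pow, Polynomial.natDegree_X_sub_C, mul_one]
      omega

/-- every `N X N` is a scalar plus a nilpotent -/
lemma MinOdd.scal [CharZero K] [IsAlgClosed K] (mo : MinOdd s N) (hs : LieClosed s)
    (t : Trip s N F) {X : Module.End K V} (hX : X ∈ s) :
    ∃ μ : K, IsNilpotent ((N * X * N - μ • N) * F) := by
  have ha := hs.quad t.hM t.MM hX
  have h : N * F * (N * X * N) = N * X * N := by
    have : N * F * (N * X * N) = (N * F * N) * X * N := by noncomm_ring
    rw [this, t.MFM]
  have h' : (N * X * N) * F * N = N * X * N := by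
    have : (N * X * N) * F * N = N * X * (N * F * N) := by noncomm_ring
    rw [this, t.MFM]
  set a := N * X * N with haX
  obtain ⟨μ, k, hk⟩ := mo.exists_pow hs t ha h h' _ (minpoly K (a * F))
    (minpoly.ne_zero (Algebra.IsIntegral.isIntegral _)) le_rfl (by rw [minpoly.aeval, zero_mul])
  refine ⟨μ, k + 1, ?_⟩
  set b := a - μ • N with hb
  have key : ∀ n : ℕ, (b * F) ^ n * N = aeval (a * F) ((Polynomial.X - C μ) ^ n) * N := by
    intro n
    induction n with
    | zero => simp
    | succ n ih =>
      rw [pow_succ', mul_assoc, ih, pow_succ' (Polynomial.X - C μ), map_mul]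
      have e1 := NF_poly t.MFM h ((Polynomial.X - C μ) ^ n)
      set Z := aeval (a * F) ((Polynomial.X - C μ) ^ n) with hZ
      have e2 : aeval (a * F) (Polynomial.X - C μ) = a * F - μ • 1 := by
        rw [map_sub, aeval_X, aeval_C, Algebra.algebraMap_eq_smul_one]
      rw [e2, hb]
      have e3 : (a - μ • N) * F * (Z * N) = a * F * (Z * N) - μ • (N * F * Z * N) := by
        rw [sub_mul, sub_mul, smul_mul_assoc, smul_mul_assoc]
        congr 2
      rw [e3, e1]
      simp only [sub_mul, smul_mul_assoc, one_mul, mul_assoc]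
  have hNFb : N * F * b = b := by
    rw [hb, mul_sub, h, mul_smul_comm, t.MFM]
  have e5 : (b * F) ^ (k + 1) = (b * F) ^ k * N * (F * b * F) := by
    rw [pow_succ]
    conv_lhs => rw [← hNFb]
    have : (N * F * b * F) ^ k = (b * F) ^ k := by rw [hNFb]
    rw [this]
    noncomm_ring
  rw [e5, key, hk, zero_mul]

end

namespace Setup

variable {ψ : LinearMap.BilinForm K V} {s : Submodule K (Module.End K V)}
variable [CharZero K] [IsAlgClosed K]

lemma tr_nilp {X : Module.End K V} (h : IsNilpotent X) : trace K V X = 0 :=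
  (isNilpotent_trace_of_isNilpotent h).eq_zero

/-- **Minimal square zero elements of odd rank.** -/
theorem minOdd_J (S : Setup ψ s) {N F : Module.End K V} (mo : MinOdd s N) (t : Trip s N F) :
    t.J := by
  intro X hX
  have hm : ((Module.finrank K (LinearMap.range N) : ℕ) : K) ≠ 0 := by
    have := mo.odd.pos
    exact_mod_cast this.ne'
  obtain ⟨μ, hμ⟩ := mo.scal S.closed t hX
  refine ⟨μ, ?_⟩
  rw [← sub_eq_zero]
  set b := N * X * N - μ • N with hb
  have hbs : b ∈ s := s.sub_mem (S.closed.quad t.hM t.MM hX) (s.smul_mem _ t.hM)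
  have hbL : N * F * b = b := by
    rw [hb, mul_sub, mul_smul_comm, t.MFM]
    have : N * F * (N * X * N) = (N * F * N) * X * N := by noncomm_ring
    rw [this, t.MFM]
  have hbR : b * F * N = b := by
    rw [hb, sub_mul, sub_mul, smul_mul_assoc, smul_mul_assoc, t.MFM]
    have : (N * X * N) * F * N = N * X * (N * F * N) := by noncomm_ring
    rw [this, t.MFM]
  refine S.nondeg hbs fun Y hY => ?_
  obtain ⟨ν, hν⟩ := mo.scal S.closed t hY
  obtain ⟨κ, hκ⟩ := mo.scal S.closed t (s.add_mem hX hY)
  set b' := N * Y * N - ν • N with hb'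
  have e1 : (N * (X + Y) * N - κ • N) * F = b * F + b' * F + (μ + ν - κ) • (N * F) := by
    rw [hb, hb']
    simp only [mul_add, add_mul, sub_mul, smul_mul_assoc]
    module
  have e2 : μ + ν - κ = 0 := by
    have h1 := tr_nilp hκ
    rw [e1, map_add, map_add, map_smul, tr_nilp hμ, tr_nilp hν, t.trace_eq, zero_add, zero_add,
      smul_eq_mul] at h1
    rcases mul_eq_zero.1 h1 with h2 | h2
    · exact h2
    · exact absurd h2 hm
  rw [e2, zero_smul, add_zero] at e1
  rw [e1] at hκ
  have sqn : ∀ Z : Module.End K V, IsNilpotent Z → trace K V (Z * Z) = 0 := fun Z hZ =>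
    tr_nilp ((Commute.refl Z).isNilpotent_mul_left hZ)
  have e3 : trace K V (b * F * (b' * F)) = 0 := by
    have h1 := sqn _ hκ
    have h2 : (b * F + b' * F) * (b * F + b' * F) = b * F * (b * F) + b' * F * (b' * F) +
      (b * F * (b' * F) + b' * F * (b * F)) := by noncomm_ring
    rw [h2, map_add, map_add, map_add, sqn _ hμ, sqn _ hν, trace_mul_comm K (b' * F)] at h1
    have h3 : (2 : K) * trace K V (b * F * (b' * F)) = 0 := by linear_combination h1
    simpa using h3
  -- trace
  have e4 : trace K V (b * Y) = trace K V (b * F * (N * Y * N) * F) := by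
    calc trace K V (b * Y) = trace K V ((N * F) * (b * F * N * Y)) := by
          rw [show (N * F) * (b * F * N * Y) = (N * F * b) * F * N * Y by noncomm_ring, hbL, hbR]
      _ = trace K V ((b * F * N * Y) * (N * F)) := trace_mul_comm _ _ _
      _ = trace K V (b * F * (N * Y * N) * F) := by congr 1
  rw [e4]
  have e5 : N * Y * N = b' + ν • N := by rw [hb']; abel
  rw [e5]
  have e6 : b * F * (b' + ν • N) * F = b * F * (b' * F) + ν • (b * F) := by
    rw [mul_add, add_mul, mul_smul_comm, smul_mul_assoc, hbR]
    congr 1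
  rw [e6, map_add, map_smul, e3, tr_nilp hμ, smul_zero, add_zero]

end Setup

end Pool.Agent.Helper66.OTR
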