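import Pool.Agent.Helper66.OTR.OrthSimple

/-!
# Orthogonal Lie algebras: the main theorem
-/

namespace Pool.Agent.Helper66.OTR

open LinearMap Module.End

set_option linter.unusedSectionVars false

variable {K V : Type*} [Field K] [AddCommGroup V] [Module K V] [FiniteDimensional K V]

namespace OSetup

variable {B : LinearMap.BilinForm K V} {s : Submodule K (Module.End K V)}

lemma wedge_symm (B : LinearMap.BilinForm K V) (u w : V) : wedge B w u = - wedge B u w := by
  ext x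
  simp only [wedge_apply, LinearMap.neg_apply]
  abel

lemma wedge_add (B : LinearMap.BilinForm K V) (u w w' : V) :
    wedge B u (w + w') = wedge B u w + wedge B u w' := by
  ext x
  simp only [wedge_apply, LinearMap.add_apply, map_add]
  module

lemma wedge_smul (B : LinearMap.BilinForm K V) (c : K) (u w : V) :
    wedge B u (c • w) = c • wedge B u w := by
  ext x
  simp only [wedge_apply, LinearMap.smul_apply, map_smul, smul_eq_mul]
  module

lemma add_wedge (B : LinearMap.BilinForm K V) (u w w' : V) :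
    wedge B (w + w') u = wedge B w u + wedge B w' u := by
  ext x
  simp only [wedge_apply, LinearMap.add_apply, map_add]
  module

lemma smul_wedge (B : LinearMap.BilinForm K V) (c : K) (u w : V) :
    wedge B (c • w) u = c • wedge B w u := by
  ext x
  simp only [wedge_apply, LinearMap.smul_apply, map_smul, smul_eq_mul]
  module

lemma wedge_self (B : LinearMap.BilinForm K V) (u : V) : wedge B u u = 0 := by
  ext x
  simp only [wedge_apply, sub_self, LinearMap.zero_apply]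

theorem final (O : OSetup B s) (h2 : (2 : K) ≠ 0) {a a' : V} {F : Submodule K V}
    (haa : B a a' ≠ 0) (ha : B a a = 0) (ha' : B a' a' = 0) (haF : ∀ f ∈ F, B a f = 0)
    (haF' : ∀ f ∈ F, B a' f = 0)
    (hdec : ∀ x : V, ∃ r r' : K, ∃ f ∈ F, x = r • a + r' • a' + f)
    (hind : ∀ W : Submodule K V, (∀ Z ∈ s, degOne a a' F Z ∨ degOne a' a F Z ∨ degZero a a' F Z →
      ∀ x ∈ W, Z x ∈ W) → W = ⊥ ∨ W = ⊤)
    {X : Module.End K V} (hX : ∀ x y, B (X x) y = - B x (X y)) : X ∈ s := by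
  have haa' : B a' a ≠ 0 := by rwa [O.symm]
  have hind' : ∀ W : Submodule K V, (∀ Z ∈ s, degOne a' a F Z ∨ degOne a a' F Z ∨ degZero a' a F Z →
      ∀ x ∈ W, Z x ∈ W) → W = ⊥ ∨ W = ⊤ := by
    intro W hW
    refine hind W (fun Z hZ h => hW Z hZ ?_)
    rcases h with h | h | h
    · exact Or.inr (Or.inl h)
    · exact Or.inl h
    · exact Or.inr (Or.inr (degZero_symm h))
  have n1 := O.Wp_ne haa ha haF hind
  have n2 := O.Wp_ne haa' ha' haF' hind'
  have i1 : Wp s a' a F ≤ Wp s a a' F := O.Wp_incl haa n2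
  have i2 : Wp s a a' F ≤ Wp s a' a F := O.Wp_incl haa' n1
  -- everything
  have htop : (K ∙ a) ⊔ (K ∙ a') ⊔ Wp s a a' F = ⊤ := by
    have h1 := hind ((K ∙ a) ⊔ (K ∙ a') ⊔ Wp s a a' F) ?_
    · rcases h1 with h1 | h1
      · exfalso
        have h3 : a ∈ (K ∙ a) ⊔ (K ∙ a') ⊔ Wp s a a' F :=
          Submodule.mem_sup_left (Submodule.mem_sup_left (Submodule.mem_span_singleton_self a))
        rw [h1, Submodule.mem_bot] at h3
        apply haa
        rw [h3, map_zero, LinearMap.zero_apply]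
      · exact h1
    · intro Z hZ hdeg x hx
      obtain ⟨y, hy, w, hw, rfl⟩ := Submodule.mem_sup.1 hx
      obtain ⟨y₁, hy₁, y₂, hy₂, rfl⟩ := Submodule.mem_sup.1 hy
      obtain ⟨r, rfl⟩ := Submodule.mem_span_singleton.1 hy₁
      obtain ⟨r', rfl⟩ := Submodule.mem_span_singleton.1 hy₂
      have hwF : w ∈ F := Wp_le hw
      rw [map_add, map_add, map_smul, map_smul]
      have q1 : Z a ∈ (K ∙ a) ⊔ (K ∙ a') ⊔ Wp s a a' F := by
        rcases hdeg with h | h | h
        · rw [h.1]; exact Submodule.zero_mem _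
        · exact Submodule.mem_sup_right (i1 ⟨Z, hZ, h, rfl⟩)
        · exact Submodule.mem_sup_left (Submodule.mem_sup_left h.1)
      have q2 : Z a' ∈ (K ∙ a) ⊔ (K ∙ a') ⊔ Wp s a a' F := by
        rcases hdeg with h | h | h
        · exact Submodule.mem_sup_right ⟨Z, hZ, h, rfl⟩
        · rw [h.1]; exact Submodule.zero_mem _
        · exact Submodule.mem_sup_left (Submodule.mem_sup_right h.2.1)
      have q3 : Z w ∈ (K ∙ a) ⊔ (K ∙ a') ⊔ Wp s a a' F := by
        rcases hdeg with h | h | h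
        · exact Submodule.mem_sup_left (Submodule.mem_sup_left (h.2.2 w hwF))
        · exact Submodule.mem_sup_left (Submodule.mem_sup_right (h.2.2 w hwF))
        · exact Submodule.mem_sup_right (O.Wp_stable hZ h hw)
      exact Submodule.add_mem _ (Submodule.add_mem _ (Submodule.smul_mem _ _ q1)
        (Submodule.smul_mem _ _ q2)) q3
  have hF : ∀ f ∈ F, f ∈ Wp s a a' F := by
    intro f hf
    have h1 : f ∈ (K ∙ a) ⊔ (K ∙ a') ⊔ Wp s a a' F := by rw [htop]; trivial
    obtain ⟨y, hy, w, hw, hyw⟩ := Submodule.mem_sup.1 h1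
    obtain ⟨y₁, hy₁, y₂, hy₂, rfl⟩ := Submodule.mem_sup.1 hy
    obtain ⟨r, rfl⟩ := Submodule.mem_span_singleton.1 hy₁
    obtain ⟨r', rfl⟩ := Submodule.mem_span_singleton.1 hy₂
    have hwF : w ∈ F := Wp_le hw
    have e1 : r' = 0 := by
      have h3 := haF f hf
      rw [← hyw, map_add, map_add, map_smul, map_smul, ha, haF w hwF, smul_zero, zero_add,
        add_zero, smul_eq_mul] at h3
      rcases mul_eq_zero.1 h3 with h4 | h4
      · exact h4
      · exact absurd h4 haa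
    have e2 : r = 0 := by
      have h3 := haF' f hf
      rw [← hyw, map_add, map_add, map_smul, map_smul, ha', haF' w hwF, smul_zero, add_zero,
        add_zero, smul_eq_mul] at h3
      rcases mul_eq_zero.1 h3 with h4 | h4
      · exact h4
      · exact absurd h4 haa'
    rw [← hyw, e1, e2, zero_smul, zero_smul, add_zero, zero_add]
    exact hw
  have hdec' : ∀ x : V, ∃ r r' : K, ∃ f ∈ F, x = r • a' + r' • a + f := by
    intro x
    obtain ⟨r, r', f, hf, rfl⟩ := hdec x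
    exact ⟨r', r, f, hf, by abel⟩
  have w1 : ∀ f ∈ F, wedge B a f ∈ s := fun f hf => O.wedge_mem haa ha haF haF' hdec (hF f hf)
  have w2 : ∀ f ∈ F, wedge B a' f ∈ s := fun f hf =>
    O.wedge_mem haa' ha' haF' haF hdec' (i2 (hF f hf))
  have w3 : ∀ f ∈ F, ∀ f' ∈ F, (B a a') • wedge B f f' - (B f f') • wedge B a' a ∈ s := by
    intro f hf f' hf'
    have h3 := O.closed _ (w1 f hf) _ (w2 f' hf')
    rw [comm_wedge (O.wedge_so a f)] at h3
    have e1 : wedge B a f a' = (B a a') • f := by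
      rw [wedge_apply, O.symm f a', haF' f hf, zero_smul, sub_zero]
    have e2 : wedge B a f f' = -(B f f') • a := by
      rw [wedge_apply, haF f' hf', zero_smul, zero_sub, neg_smul]
    rw [e1, e2, smul_wedge, wedge_smul] at h3
    convert h3 using 1
    module
  have w4 : ∀ f ∈ F, ∀ f' ∈ F, wedge B f f' ∈ s := by
    intro f hf f' hf'
    have h3 := s.sub_mem (w3 f hf f' hf') (w3 f' hf' f hf)
    rw [O.symm f' f, wedge_symm B f f'] at h3
    have h4 : (B a a') • wedge B f f' - (B f f') • wedge B a' a -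
        ((B a a') • (-wedge B f f') - (B f f') • wedge B a' a) =
        (2 * B a a') • wedge B f f' := by module
    rw [h4] at h3
    exact (s.smul_mem_iff (mul_ne_zero h2 haa)).1 h3
  have w5 : wedge B a' a ∈ s := by
    obtain ⟨w, hw, u, hu, huw⟩ := n1
    have h3 := s.sub_mem (s.smul_mem (B a a') (w4 u (Wp_le hu) w (Wp_le hw)))
      (w3 u (Wp_le hu) w (Wp_le hw))
    rw [sub_sub_cancel] at h3
    exact (s.smul_mem_iff huw).1 h3
  refine O.so_le h2 (fun u w => ?_) hX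
  obtain ⟨r, r', f, hf, rfl⟩ := hdec u
  obtain ⟨t, t', g, hg, rfl⟩ := hdec w
  simp only [add_wedge, wedge_add, smul_wedge, wedge_smul, wedge_self]
  have w6 : wedge B a a' ∈ s := by
    rw [wedge_symm B a' a]; exact s.neg_mem w5
  have w7 : ∀ f ∈ F, wedge B f a ∈ s := fun f hf => by
    rw [wedge_symm B a f]; exact s.neg_mem (w1 f hf)
  have w8 : ∀ f ∈ F, wedge B f a' ∈ s := fun f hf => by
    rw [wedge_symm B a' f]; exact s.neg_mem (w2 f hf)
  repeat' first
    | apply s.add_mem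
    | apply s.smul_mem
    | exact s.zero_mem
    | exact w5
    | exact w6
    | exact w1 _ hg
    | exact w2 _ hg
    | exact w7 _ hf
    | exact w8 _ hf
    | exact w4 _ hf _ hg

variable {γ : V ≃ₗ[K] V} {c ζ ζ' : K} {l l' : V}

/-- **The main theorem for orthogonal Lie algebras.** -/
theorem orth_simple [IsAlgClosed K] (O : OSetup B s) (h2 : (2 : K) ≠ 0)
    (hs : ∀ X ∈ s, cj γ X ∈ s) (P : Pair B γ c ζ ζ' l l') (hne : ζ ≠ ζ')
    (h3 : ∀ ν, ∀ x ∈ ge γ ν, x ≠ 0 → ν ≠ ζ → ν ≠ ζ' → ∀ ν', ∀ x' ∈ ge γ ν', x' ≠ 0 → ν' ≠ ζ →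
      ν' ≠ ζ' → ζ * ζ ≠ ν * ν')
    (h4 : ∀ ν, ∀ x ∈ ge γ ν, x ≠ 0 → ν ≠ ζ → ν ≠ ζ' → ∀ ν', ∀ x' ∈ ge γ ν', x' ≠ 0 → ν' ≠ ζ →
      ν' ≠ ζ' → ∀ ν'', ∀ x'' ∈ ge γ ν'', x'' ≠ 0 → ν'' ≠ ζ → ν'' ≠ ζ' → ζ * ν'' ≠ ν * ν')
    {X : Module.End K V} (hX : ∀ x y, B (X x) y = - B x (X y)) : X ∈ s := by
  have hne0 : ∀ ν, ∀ x ∈ ge γ ν, x ≠ 0 → ν ≠ 0 := by
    rintro ν x hx hx0 rfl
    exact hx0 (ge_zero hx)
  have horth : ∀ ν, ∀ x ∈ ge γ ν, ∀ ν', ∀ y ∈ ge γ ν', ν * ν' ≠ c → B x y = 0 :=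
    fun ν x hx ν' y hy h => orth_gen P.sim h hx hy
  have hll : B l l = 0 := by
    refine horth ζ l P.hl ζ l P.hl (fun h => hne ?_)
    exact mul_left_cancel₀ P.hζ (h.trans P.mul.symm)
  have hll' : B l' l' = 0 := by
    refine horth ζ' l' P.hl' ζ' l' P.hl' (fun h => hne ?_)
    exact mul_right_cancel₀ P.hζ' (P.mul.trans h.symm)
  have hlF : ∀ f ∈ oth γ ζ ζ', B l f = 0 := by
    intro f hf
    refine oth_ind (p := fun f => B l f = 0) (map_zero _)
      (fun x y hx hy => by rw [map_add, hx, hy, add_zero]) (fun ν h h' x hx => ?_) hf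
    exact horth ζ l P.hl ν x hx (fun h5 => h' (mul_left_cancel₀ P.hζ (h5.trans P.mul.symm)))
  have hlF' : ∀ f ∈ oth γ ζ ζ', B l' f = 0 := by
    intro f hf
    refine oth_ind (p := fun f => B l' f = 0) (map_zero _)
      (fun x y hx hy => by rw [map_add, hx, hy, add_zero]) (fun ν h h' x hx => ?_) hf
    exact horth ζ' l' P.hl' ν x hx (fun h5 => h (mul_left_cancel₀ P.hζ' (by
      rw [h5, mul_comm, P.mul])))
  have hdec : ∀ x : V, ∃ r r' : K, ∃ f ∈ oth γ ζ ζ', x = r • l + r' • l' + f := by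
    intro x
    refine vec_induction (γ := γ) (p := fun x => ∃ r r' : K, ∃ f ∈ oth γ ζ ζ',
      x = r • l + r' • l' + f) ⟨0, 0, 0, Submodule.zero_mem _, by simp⟩ ?_ (fun ν x hx => ?_) x
    · rintro x y ⟨r, r', f, hf, rfl⟩ ⟨t, t', g, hg, rfl⟩
      exact ⟨r + t, r' + t', f + g, Submodule.add_mem _ hf hg, by module⟩
    · by_cases h5 : ν = ζ
      · subst h5
        obtain ⟨κ, rfl⟩ := P.line x hx
        exact ⟨κ, 0, 0, Submodule.zero_mem _, by simp⟩
      by_cases h6 : ν = ζ'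
      · subst h6
        obtain ⟨κ, rfl⟩ := P.line' x hx
        exact ⟨0, κ, 0, Submodule.zero_mem _, by simp⟩
      · exact ⟨0, 0, x, mem_oth h5 h6 hx, by simp⟩
  -- `Z l` has no component at `l'`, and conversely
  have skl : ∀ Z ∈ s, Z l ∈ ge γ ζ' → Z l = 0 := by
    intro Z hZ h
    obtain ⟨κ, hκ⟩ := P.line' _ h
    have h5 := O.so Z hZ l l
    rw [O.symm l (Z l), hκ, map_smul, LinearMap.smul_apply, smul_eq_mul] at h5
    have h6 : (2 : K) * (κ * B l' l) = 0 := by linear_combination h5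
    rcases mul_eq_zero.1 h6 with h7 | h7
    · exact absurd h7 h2
    rcases mul_eq_zero.1 h7 with h8 | h8
    · rw [hκ, h8, zero_smul]
    · exact absurd (by rwa [O.symm] at h8) P.pair
  have skl' : ∀ Z ∈ s, Z l' ∈ ge γ ζ → Z l' = 0 := by
    intro Z hZ h
    obtain ⟨κ, hκ⟩ := P.line _ h
    have h5 := O.so Z hZ l' l'
    rw [O.symm l' (Z l'), hκ, map_smul, LinearMap.smul_apply, smul_eq_mul] at h5
    have h6 : (2 : K) * (κ * B l l') = 0 := by linear_combination h5
    rcases mul_eq_zero.1 h6 with h7 | h7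
    · exact absurd h7 h2
    rcases mul_eq_zero.1 h7 with h8 | h8
    · rw [hκ, h8, zero_smul]
    · exact absurd h8 P.pair
  -- dual eigenvalues
  have dual : ∀ ν, ∀ x ∈ ge γ ν, x ≠ 0 → ν ≠ ζ → ν ≠ ζ' →
      ∃ ν', ∃ y ∈ ge γ ν', y ≠ 0 ∧ ν' ≠ ζ ∧ ν' ≠ ζ' ∧ ν * ν' = c := by
    intro ν x hx hx0 h h'
    obtain ⟨ν', y, hy, hy0, hνν⟩ := O.exists_dual P.sim hx hx0
    have hy1 := hne0 ν' y hy hy0
    refine ⟨ν', y, hy, hy0, ?_, ?_, hνν⟩
    · rintro rfl
      exact h' (mul_right_cancel₀ hy1 (by rw [hνν, mul_comm, P.mul]))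
    · rintro rfl
      exact h (mul_right_cancel₀ hy1 (by rw [hνν, P.mul]))
  have tri : ∀ μ, ∀ Z ∈ s, Z ∈ (cj γ).maxGenEigenspace μ →
      degOne l l' (oth γ ζ ζ') Z ∨ degOne l' l (oth γ ζ ζ') Z ∨ degZero l l' (oth γ ζ ζ') Z := by
    intro μ Z hZ hZμ
    have hm : ∀ ν, ∀ x ∈ ge γ ν, Z x ∈ ge γ (μ * ν) := fun ν x hx => map_gen hZμ hx
    by_cases hA : ∃ ν, ∃ x ∈ ge γ ν, x ≠ 0 ∧ ν ≠ ζ ∧ ν ≠ ζ' ∧ μ * ν = ζ
    · obtain ⟨ν, x, hx, hx0, hν, hν', hμν⟩ := hA
      have hν0 := hne0 ν x hx hx0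
      have hμ0 : μ ≠ 0 := by
        rintro rfl
        rw [zero_mul] at hμν
        exact P.hζ hμν.symm
      obtain ⟨ν₁, y, hy, hy0, hν1, hν1', hνν1⟩ := dual ν x hx hx0 hν hν'
      left
      refine ⟨?_, ?_, fun f hf => ?_⟩
      · -- `Z l = 0`
        have h5 := hm ζ l P.hl
        by_contra h6
        by_cases h7 : μ * ζ = ζ'
        · rw [h7] at h5
          exact h6 (skl Z hZ h5)
        by_cases h8 : μ * ζ = ζ
        · have : μ = 1 := mul_right_cancel₀ P.hζ (by rw [h8, one_mul])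
          rw [this, one_mul] at hμν
          exact hν hμν
        · refine h3 ν x hx hx0 hν hν' (μ * ζ) (Z l) h5 h6 h8 h7 ?_
          rw [← mul_assoc, mul_comm ν μ, hμν]
      · -- `Z l' ∈ F`
        have h5 := hm ζ' l' P.hl'
        by_cases h6 : Z l' = 0
        · rw [h6]; exact Submodule.zero_mem _
        by_cases h7 : μ * ζ' = ζ
        · rw [h7] at h5
          exact absurd (skl' Z hZ h5) h6
        by_cases h8 : μ * ζ' = ζ'
        · have : μ = 1 := mul_right_cancel₀ P.hζ' (by rw [h8, one_mul])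
          rw [this, one_mul] at hμν
          exact absurd hμν hν
        · exact mem_oth h7 h8 h5
      · -- `Z F ⊆ K l`
        refine oth_ind (p := fun f => Z f ∈ K ∙ l) (by rw [map_zero]; exact Submodule.zero_mem _)
          (fun u w hu hw => by rw [map_add]; exact Submodule.add_mem _ hu hw)
          (fun ν₂ k2 k2' u hu => ?_) hf
        have h5 := hm ν₂ u hu
        by_cases h6 : Z u = 0
        · rw [h6]; exact Submodule.zero_mem _
        have hu0 : u ≠ 0 := by rintro rfl; exact h6 (map_zero _)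
        by_cases h7 : μ * ν₂ = ζ
        · rw [h7] at h5
          obtain ⟨κ, hκ⟩ := P.line _ h5
          rw [hκ]
          exact Submodule.smul_mem _ _ (Submodule.mem_span_singleton_self l)
        exfalso
        by_cases h8 : μ * ν₂ = ζ'
        · -- `ζ² = ν * (c / ν₂)`
          obtain ⟨ν₃, y₃, hy₃, hy₃0, k3, k3', hν23⟩ := dual ν₂ u hu hu0 k2 k2'
          refine h3 ν x hx hx0 hν hν' ν₃ y₃ hy₃ hy₃0 k3 k3' ?_
          have hν2 := hne0 ν₂ u hu hu0
          -- `μ ν = ζ`, `μ ν₂ = ζ'`, `ζ ζ' = c = ν₂ ν₃`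
          have e1 : μ * ν₂ * ζ = ν₂ * ν₃ := by rw [h8, mul_comm ζ' ζ, P.mul, hν23]
          have e2 : μ * ζ = ν₃ := mul_left_cancel₀ hν2 (by rw [← e1]; ring)
          rw [← e2, ← hμν]; ring
        · refine h4 ν x hx hx0 hν hν' (μ * ν₂) (Z u) h5 h6 h7 h8 ν₂ u hu hu0 k2 k2' ?_
          rw [← hμν]; ring
    by_cases hB : ∃ ν, ∃ x ∈ ge γ ν, x ≠ 0 ∧ ν ≠ ζ ∧ ν ≠ ζ' ∧ μ * ζ = ν
    · obtain ⟨ν, x, hx, hx0, hν, hν', hμν⟩ := hB
      have hν0 := hne0 ν x hx hx0
      have hμ0 : μ ≠ 0 := by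
        rintro rfl
        rw [zero_mul] at hμν
        exact hν0 hμν.symm
      right; left
      refine ⟨?_, ?_, fun f hf => ?_⟩
      · -- `Z l' = 0`
        have h5 := hm ζ' l' P.hl'
        by_contra h6
        by_cases h7 : μ * ζ' = ζ
        · rw [h7] at h5
          exact h6 (skl' Z hZ h5)
        by_cases h8 : μ * ζ' = ζ'
        · have : μ = 1 := mul_right_cancel₀ P.hζ' (by rw [h8, one_mul])
          rw [this, one_mul] at hμν
          exact hν hμν.symm
        · -- `μ ζ' = ν₂`, `μ ζ = ν`, so with the dual `ν₃` of `ν₂`, `ζ ζ = ν ν₃`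
          obtain ⟨ν₃, y₃, hy₃, hy₃0, k3, k3', hν23⟩ := dual (μ * ζ') (Z l') h5 h6 h7 h8
          refine h3 ν x hx hx0 hν hν' ν₃ y₃ hy₃ hy₃0 k3 k3' ?_
          have e1 : μ * ζ' * ν₃ = ζ * ζ' := by rw [hν23, P.mul]
          have e2 : μ * ν₃ = ζ := mul_right_cancel₀ P.hζ' (by rw [← e1]; ring)
          rw [← hμν]
          calc ζ * ζ = ζ * (μ * ν₃) := by rw [e2]
            _ = μ * ζ * ν₃ := by ring
      · -- `Z l ∈ F`
        have h5 := hm ζ l P.hl
        rw [hμν] at h5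
        exact mem_oth hν hν' h5
      · -- `Z F ⊆ K l'`
        refine oth_ind (p := fun f => Z f ∈ K ∙ l') (by rw [map_zero]; exact Submodule.zero_mem _)
          (fun u w hu hw => by rw [map_add]; exact Submodule.add_mem _ hu hw)
          (fun ν₂ k2 k2' u hu => ?_) hf
        have h5 := hm ν₂ u hu
        by_cases h6 : Z u = 0
        · rw [h6]; exact Submodule.zero_mem _
        have hu0 : u ≠ 0 := by rintro rfl; exact h6 (map_zero _)
        by_cases h7 : μ * ν₂ = ζ'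
        · rw [h7] at h5
          obtain ⟨κ, hκ⟩ := P.line' _ h5
          rw [hκ]
          exact Submodule.smul_mem _ _ (Submodule.mem_span_singleton_self l')
        exfalso
        by_cases h8 : μ * ν₂ = ζ
        · exact hA ⟨ν₂, u, hu, hu0, k2, k2', h8⟩
        · -- `μ ν₂ = ν₃` in `E`, `μ ζ = ν`: `ζ ν₃ = ν ν₂`
          refine h4 ν x hx hx0 hν hν' ν₂ u hu hu0 k2 k2' (μ * ν₂) (Z u) h5 h6 h8 h7 ?_
          rw [← hμν]; ring
    · right; right
      refine ⟨?_, ?_, fun f hf => ?_⟩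
      · have h5 := hm ζ l P.hl
        by_cases h6 : Z l = 0
        · rw [h6]; exact Submodule.zero_mem _
        by_cases h7 : μ * ζ = ζ
        · rw [h7] at h5
          obtain ⟨κ, hκ⟩ := P.line _ h5
          rw [hκ]
          exact Submodule.smul_mem _ _ (Submodule.mem_span_singleton_self l)
        by_cases h8 : μ * ζ = ζ'
        · rw [h8] at h5
          exact absurd (skl Z hZ h5) h6
        · exact absurd ⟨μ * ζ, Z l, h5, h6, h7, h8, rfl⟩ hB
      · have h5 := hm ζ' l' P.hl'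
        by_cases h6 : Z l' = 0
        · rw [h6]; exact Submodule.zero_mem _
        by_cases h7 : μ * ζ' = ζ'
        · rw [h7] at h5
          obtain ⟨κ, hκ⟩ := P.line' _ h5
          rw [hκ]
          exact Submodule.smul_mem _ _ (Submodule.mem_span_singleton_self l')
        by_cases h8 : μ * ζ' = ζ
        · rw [h8] at h5
          exact absurd (skl' Z hZ h5) h6
        · exfalso
          obtain ⟨ν₃, y₃, hy₃, hy₃0, k3, k3', hν23⟩ := dual (μ * ζ') (Z l') h5 h6 h8 h7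
          -- `μ ν₃ = ζ`
          refine hA ⟨ν₃, y₃, hy₃, hy₃0, k3, k3', ?_⟩
          have e1 : μ * ζ' * ν₃ = ζ * ζ' := by rw [hν23, P.mul]
          exact mul_right_cancel₀ P.hζ' (by rw [← e1]; ring)
      · refine oth_ind (p := fun f => Z f ∈ oth γ ζ ζ')
          (by rw [map_zero]; exact Submodule.zero_mem _)
          (fun u w hu hw => by rw [map_add]; exact Submodule.add_mem _ hu hw)
          (fun ν₂ k2 k2' u hu => ?_) hf
        have h5 := hm ν₂ u hu
        by_cases h6 : Z u = 0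
        · rw [h6]; exact Submodule.zero_mem _
        have hu0 : u ≠ 0 := by rintro rfl; exact h6 (map_zero _)
        by_cases h7 : μ * ν₂ = ζ
        · exact absurd ⟨ν₂, u, hu, hu0, k2, k2', h7⟩ hA
        by_cases h8 : μ * ν₂ = ζ'
        · exfalso
          obtain ⟨ν₃, y₃, hy₃, hy₃0, k3, k3', hν23⟩ := dual ν₂ u hu hu0 k2 k2'
          have hν2 := hne0 ν₂ u hu hu0
          refine hB ⟨ν₃, y₃, hy₃, hy₃0, k3, k3', ?_⟩
          have e1 : μ * ν₂ * ζ = ν₂ * ν₃ := by rw [h8, mul_comm ζ' ζ, P.mul, hν23]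
          exact mul_left_cancel₀ hν2 (by rw [← e1]; ring)
        · exact mem_oth h7 h8 h5
  refine O.final h2 P.pair hll hll' hlF hlF' hdec (fun W hW => O.irred W ?_) hX
  intro Y hY
  refine hom_induction hs (p := fun Y => ∀ w ∈ W, Y w ∈ W) ?_ ?_ ?_ hY
  · intro x _
    rw [LinearMap.zero_apply]; exact W.zero_mem
  · intro Y₁ Y₂ k1 k2 x hx
    rw [LinearMap.add_apply]; exact W.add_mem (k1 x hx) (k2 x hx)
  · intro μ Z hZ hZμ x hx
    exact hW Z hZ (tri μ Z hZ hZμ) x hx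

end OSetup

end Pool.Agent.Helper66.OTR
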