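import Pool.Agent.Helper66.OTR.Ratio

/-!
# Orthogonal Lie algebras normalized by an isometry with an independent simple eigenvalue
-/

namespace Pool.Agent.Helper66.OTR

open LinearMap Module.End

set_option linter.unusedSectionVars false

variable {K V : Type*} [Field K] [AddCommGroup V] [Module K V] [FiniteDimensional K V]

/-- the element `u ∧ w` of the orthogonal Lie algebra -/
def wedge (B : LinearMap.BilinForm K V) (u w : V) : Module.End K V :=
  (B u).smulRight w - (B w).smulRight u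

lemma wedge_apply (B : LinearMap.BilinForm K V) (u w x : V) :
    wedge B u w x = B u x • w - B w x • u := rfl

/-- The standing hypotheses. -/
structure OSetup (B : LinearMap.BilinForm K V) (s : Submodule K (Module.End K V)) : Prop where
  nd : B.Nondegenerate
  symm : ∀ x y, B x y = B y x
  closed : LieClosed s
  irred : ∀ W : Submodule K V, (∀ X ∈ s, ∀ w ∈ W, X w ∈ W) → W = ⊥ ∨ W = ⊤
  so : ∀ X ∈ s, ∀ x y, B (X x) y = - B x (X y)

/-- the elements of degree one -/
def degOne (a a' : V) (F : Submodule K V) (Z : Module.End K V) : Prop :=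
  Z a = 0 ∧ Z a' ∈ F ∧ ∀ f ∈ F, Z f ∈ K ∙ a

/-- the elements of degree zero -/
def degZero (a a' : V) (F : Submodule K V) (Z : Module.End K V) : Prop :=
  Z a ∈ K ∙ a ∧ Z a' ∈ K ∙ a' ∧ ∀ f ∈ F, Z f ∈ F

lemma degZero_symm {a a' : V} {F : Submodule K V} {Z : Module.End K V} (h : degZero a a' F Z) :
    degZero a' a F Z := ⟨h.2.1, h.1, h.2.2⟩

/-- the vectors `Z a'` for `Z` of degree one -/
def Wp (s : Submodule K (Module.End K V)) (a a' : V) (F : Submodule K V) : Submodule K V where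
  carrier := {w | ∃ Z ∈ s, degOne a a' F Z ∧ Z a' = w}
  zero_mem' := ⟨0, s.zero_mem, ⟨rfl, F.zero_mem, fun _ _ => Submodule.zero_mem _⟩, rfl⟩
  add_mem' := by
    rintro _ _ ⟨Z, hZ, ⟨h1, h2, h3⟩, rfl⟩ ⟨Y, hY, ⟨k1, k2, k3⟩, rfl⟩
    refine ⟨Z + Y, s.add_mem hZ hY, ⟨?_, F.add_mem h2 k2, fun f hf => ?_⟩, rfl⟩
    · rw [LinearMap.add_apply, h1, k1, add_zero]
    · exact Submodule.add_mem _ (h3 f hf) (k3 f hf)
  smul_mem' := by
    rintro t _ ⟨Z, hZ, ⟨h1, h2, h3⟩, rfl⟩
    refine ⟨t • Z, s.smul_mem _ hZ, ⟨?_, F.smul_mem _ h2, fun f hf => ?_⟩, rfl⟩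
    · rw [LinearMap.smul_apply, h1, smul_zero]
    · exact Submodule.smul_mem _ _ (h3 f hf)

lemma Wp_le {s : Submodule K (Module.End K V)} {a a' : V} {F : Submodule K V} :
    Wp s a a' F ≤ F := by
  rintro _ ⟨Z, _, h, rfl⟩
  exact h.2.1

namespace OSetup

variable {B : LinearMap.BilinForm K V} {s : Submodule K (Module.End K V)}

lemma exists_ne (O : OSetup B s) {v : V} (hv : v ≠ 0) : ∃ w, B v w ≠ 0 := by
  by_contra hcon
  push Not at hcon
  refine hv ?_
  apply (LinearMap.BilinForm.nondegenerate_iff_ker_eq_bot.1 O.nd |> LinearMap.ker_eq_bot.1)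
  ext x
  rw [hcon x, map_zero, LinearMap.zero_apply]

lemma wedge_so (O : OSetup B s) (u w x y : V) : B (wedge B u w x) y = - B x (wedge B u w y) := by
  simp only [wedge_apply, map_sub, map_smul, LinearMap.sub_apply, LinearMap.smul_apply,
    smul_eq_mul]
  rw [O.symm x u, O.symm x w]
  ring

lemma comm_wedge {X : Module.End K V} (hX : ∀ x y, B (X x) y = - B x (X y)) (u w : V) :
    X * wedge B u w - wedge B u w * X = wedge B (X u) w + wedge B u (X w) := by
  ext x
  simp only [LinearMap.sub_apply, Module.End.mul_apply, wedge_apply, map_sub, map_smul,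
    LinearMap.add_apply, hX]
  module

/-- the orthogonal Lie algebra is spanned by the wedges -/
lemma so_le (O : OSetup B s) (h2 : (2 : K) ≠ 0) (h : ∀ u w, wedge B u w ∈ s)
    {X : Module.End K V} (hX : ∀ x y, B (X x) y = - B x (X y)) : X ∈ s := by
  classical
  set b := Module.finBasis K V with hb
  set b' := B.dualBasis O.nd b with hb'
  have h1 : ∀ x : V, ∑ i, B (b' i) x • b i = x := by
    intro x
    conv_rhs => rw [← b.sum_repr x]
    refine Finset.sum_congr rfl fun i _ => ?_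
    congr 1
    conv_lhs => rw [← b.sum_repr x]
    rw [map_sum]
    simp only [map_smul, smul_eq_mul]
    rw [Finset.sum_eq_single i]
    · rw [hb', LinearMap.BilinForm.apply_dualBasis_left]; simp
    · intro j _ hj
      rw [hb', LinearMap.BilinForm.apply_dualBasis_left]; simp [hj]
    · simp
  have h2' : ∀ x : V, ∑ i, B x (b i) • b' i = x := by
    intro x
    apply (LinearMap.BilinForm.nondegenerate_iff_ker_eq_bot.1 O.nd |> LinearMap.ker_eq_bot.1)
    refine b.ext fun j => ?_
    rw [map_sum, LinearMap.sum_apply]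
    simp only [map_smul, LinearMap.smul_apply, smul_eq_mul]
    rw [Finset.sum_eq_single j]
    · rw [hb', LinearMap.BilinForm.apply_dualBasis_left]; simp
    · intro i _ hj
      rw [hb', LinearMap.BilinForm.apply_dualBasis_left, if_neg (Ne.symm hj), mul_zero]
    · simp
  have h3 : X = (2 : K)⁻¹ • ∑ i, wedge B (b' i) (X (b i)) := by
    ext x
    rw [LinearMap.smul_apply, LinearMap.sum_apply]
    simp only [wedge_apply]
    rw [Finset.sum_sub_distrib]
    have e1 : ∑ i, B (b' i) x • X (b i) = X x := by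
      conv_rhs => rw [← h1 x]
      rw [map_sum]
      simp only [map_smul]
    have e2 : ∑ i, B (X (b i)) x • b' i = - X x := by
      conv_rhs => rw [← h2' (X x)]
      rw [← Finset.sum_neg_distrib]
      refine Finset.sum_congr rfl fun i _ => ?_
      rw [hX, O.symm (b i) (X x), neg_smul]
    rw [e1, e2, sub_neg_eq_add, ← two_smul K (X x), smul_smul, inv_mul_cancel₀ h2, one_smul]
  rw [h3]
  exact s.smul_mem _ (s.sum_mem fun i _ => h _ _)

variable {γ : V ≃ₗ[K] V} {c ζ ζ' : K} {l l' : V}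

lemma exists_dual [IsAlgClosed K] (O : OSetup B s) (sim : ∀ x y, B (γ x) (γ y) = c * B x y)
    {ν : K} {x : V} (hx : x ∈ ge γ ν) (hx0 : x ≠ 0) :
    ∃ ν', ∃ y ∈ ge γ ν', y ≠ 0 ∧ ν * ν' = c := by
  obtain ⟨y, hy⟩ := O.exists_ne hx0
  by_contra hcon
  push Not at hcon
  apply hy
  refine vec_induction (γ := γ) (p := fun y => B x y = 0) (by simp)
    (fun a b ha hb => by rw [map_add, ha, hb, add_zero]) (fun ν y hy => ?_) y
  by_cases hy0 : y = 0
  · rw [hy0, map_zero]
  · exact orth_gen sim (hcon ν y hy hy0) hx hy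

/-- a simple eigenvalue gives a pair -/
lemma exists_pair [IsAlgClosed K] (O : OSetup B s) (sim : ∀ x y, B (γ x) (γ y) = c * B x y)
    (h1 : Module.finrank K (ge γ ζ) = 1) : ∃ l l', Pair B γ c ζ (c / ζ) l l' := by
  obtain ⟨⟨l, hl⟩, hl0, hline⟩ := finrank_eq_one_iff'.1 h1
  have hl0' : l ≠ 0 := fun h => hl0 (Subtype.ext h)
  have line : ∀ x ∈ ge γ ζ, ∃ κ : K, x = κ • l := by
    intro x hx
    obtain ⟨κ, hκ⟩ := hline ⟨x, hx⟩
    exact ⟨κ, (congrArg Subtype.val hκ).symm⟩
  have hζ : ζ ≠ 0 := by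
    rintro rfl
    exact hl0' (ge_zero hl)
  obtain ⟨m, hm⟩ := O.exists_ne hl0'
  have hc : c ≠ 0 := by
    rintro rfl
    have := sim (γ.symm l) (γ.symm m)
    rw [γ.apply_symm_apply, γ.apply_symm_apply, zero_mul] at this
    exact hm this
  have hζ' : c / ζ ≠ 0 := div_ne_zero hc hζ
  have hmul : ζ * (c / ζ) = c := mul_div_cancel₀ c hζ
  have hinj : ∀ x ∈ ge γ (c / ζ), B l x = 0 → x = 0 := by
    intro x hx hlx
    by_contra hx0
    obtain ⟨y, hy⟩ := O.exists_ne hx0
    apply hy
    rw [O.symm]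
    refine vec_induction (γ := γ) (p := fun y => B y x = 0) (by simp)
      (fun a b ha hb => by rw [map_add, LinearMap.add_apply, ha, hb, add_zero])
      (fun ν y hy => ?_) y
    by_cases hν : ν * (c / ζ) = c
    · have : ν = ζ := mul_right_cancel₀ hζ' (hν.trans hmul.symm)
      subst this
      obtain ⟨κ, rfl⟩ := line y hy
      rw [map_smul, LinearMap.smul_apply, hlx, smul_zero]
    · exact orth_gen sim hν hy hx
  obtain ⟨l', hl', hll'⟩ : ∃ l' ∈ ge γ (c / ζ), B l l' ≠ 0 := by
    by_contra hcon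
    push Not at hcon
    apply hm
    refine vec_induction (γ := γ) (p := fun y => B l y = 0) (by simp)
      (fun a b ha hb => by rw [map_add, ha, hb, add_zero])
      (fun ν y hy => ?_) m
    by_cases hν : ζ * ν = c
    · have : ν = c / ζ := mul_left_cancel₀ hζ (hν.trans hmul.symm)
      subst this
      exact hcon y hy
    · exact orth_gen sim hν hl hy
  refine ⟨l, l', sim, hl, hl', line, fun x hx => ?_, hll', hmul, hζ, hζ'⟩
  refine ⟨B l x / B l l', ?_⟩
  have := hinj (x - (B l x / B l l') • l') (Submodule.sub_mem _ hx (Submodule.smul_mem _ _ hl'))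
    (by rw [map_sub, map_smul, smul_eq_mul, div_mul_cancel₀ _ hll', sub_self])
  exact sub_eq_zero.1 this

/-- stability of `Wp` under elements of degree zero -/
lemma Wp_stable (O : OSetup B s) {a a' : V} {F : Submodule K V} {Z : Module.End K V} (hZ : Z ∈ s)
    (h0 : degZero a a' F Z) {w : V} (hw : w ∈ Wp s a a' F) : Z w ∈ Wp s a a' F := by
  obtain ⟨T, hT, ⟨h1, h2, h3⟩, rfl⟩ := hw
  obtain ⟨k1, k2, k3⟩ := h0
  obtain ⟨t, ht⟩ := Submodule.mem_span_singleton.1 k1
  obtain ⟨t', ht'⟩ := Submodule.mem_span_singleton.1 k2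
  have h4 : Z (T a') - t' • T a' ∈ Wp s a a' F := by
    refine ⟨Z * T - T * Z, O.closed _ hZ _ hT, ⟨?_, ?_, fun f hf => ?_⟩, ?_⟩
    · rw [LinearMap.sub_apply, Module.End.mul_apply, Module.End.mul_apply, h1, ← ht, map_smul, h1,
        map_zero, smul_zero, sub_zero]
    · rw [LinearMap.sub_apply, Module.End.mul_apply, Module.End.mul_apply, ← ht', map_smul]
      exact F.sub_mem (k3 _ h2) (F.smul_mem _ h2)
    · rw [LinearMap.sub_apply, Module.End.mul_apply, Module.End.mul_apply]
      refine Submodule.sub_mem _ ?_ (h3 _ (k3 f hf))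
      obtain ⟨r, hr⟩ := Submodule.mem_span_singleton.1 (h3 f hf)
      rw [← hr, map_smul]
      exact Submodule.smul_mem _ _ k1
    · rw [LinearMap.sub_apply, Module.End.mul_apply, Module.End.mul_apply, ← ht', map_smul]
  have h5 : T a' ∈ Wp s a a' F := ⟨T, hT, ⟨h1, h2, h3⟩, rfl⟩
  have := (Wp s a a' F).add_mem h4 ((Wp s a a' F).smul_mem t' h5)
  rwa [sub_add_cancel] at this

/-- the value of an element of degree one on `F` -/
lemma degOne_apply (O : OSetup B s) {a a' : V} {F : Submodule K V} (haa : B a a' ≠ 0)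
    {Z : Module.End K V} (hZ : Z ∈ s) (h : degOne a a' F Z) {f : V} (hf : f ∈ F) :
    Z f = -(B f (Z a') / B a a') • a := by
  obtain ⟨r, hr⟩ := Submodule.mem_span_singleton.1 (h.2.2 f hf)
  have h1 := O.so Z hZ f a'
  rw [← hr, map_smul, LinearMap.smul_apply, smul_eq_mul] at h1
  rw [← hr]
  congr 1
  rw [← neg_div, eq_div_iff haa, h1]

/-- the form does not vanish on `Wp` -/
lemma Wp_ne (O : OSetup B s) {a a' : V} {F : Submodule K V} (haa : B a a' ≠ 0) (ha : B a a = 0)
    (haF : ∀ f ∈ F, B a f = 0)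
    (hind : ∀ W : Submodule K V, (∀ Z ∈ s, degOne a a' F Z ∨ degOne a' a F Z ∨ degZero a a' F Z →
      ∀ x ∈ W, Z x ∈ W) → W = ⊥ ∨ W = ⊤) :
    ∃ w ∈ Wp s a' a F, ∃ u ∈ Wp s a' a F, B u w ≠ 0 := by
  by_contra hcon
  push Not at hcon
  have h1 := hind ((K ∙ a) ⊔ Wp s a' a F) ?_
  · rcases h1 with h1 | h1
    · have h2 : a ∈ (K ∙ a) ⊔ Wp s a' a F :=
        Submodule.mem_sup_left (Submodule.mem_span_singleton_self a)
      rw [h1, Submodule.mem_bot] at h2
      apply haa
      rw [h2, map_zero, LinearMap.zero_apply]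
    · have h2 : a' ∈ (K ∙ a) ⊔ Wp s a' a F := by rw [h1]; trivial
      obtain ⟨y, hy, z, hz, hyz⟩ := Submodule.mem_sup.1 h2
      obtain ⟨r, rfl⟩ := Submodule.mem_span_singleton.1 hy
      apply haa
      rw [← hyz, map_add, map_smul, ha, haF z (Wp_le hz), smul_zero, add_zero]
  · intro Z hZ hdeg x hx
    obtain ⟨y, hy, w, hw, rfl⟩ := Submodule.mem_sup.1 hx
    obtain ⟨r, rfl⟩ := Submodule.mem_span_singleton.1 hy
    have hwF : w ∈ F := Wp_le hw
    rw [map_add, map_smul]
    rcases hdeg with h | h | h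
    · rw [h.1, smul_zero, zero_add]
      exact Submodule.mem_sup_left (h.2.2 w hwF)
    · refine Submodule.add_mem _ (Submodule.smul_mem _ _ (Submodule.mem_sup_right ?_)) ?_
      · exact ⟨Z, hZ, h, rfl⟩
      · rw [O.degOne_apply (by rwa [O.symm]) hZ h hwF,
          hcon (Z a) ⟨Z, hZ, h, rfl⟩ w hw, zero_div, neg_zero, zero_smul]
        exact Submodule.zero_mem _
    · exact Submodule.add_mem _
        (Submodule.smul_mem _ _ (Submodule.mem_sup_left h.1))
        (Submodule.mem_sup_right (O.Wp_stable hZ (degZero_symm h) hw))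

/-- inclusion of the two spaces -/
lemma Wp_incl (O : OSetup B s) {a a' : V} {F : Submodule K V} (haa : B a a' ≠ 0)
    (h : ∃ w ∈ Wp s a a' F, ∃ u ∈ Wp s a a' F, B u w ≠ 0) : Wp s a' a F ≤ Wp s a a' F := by
  obtain ⟨w, hw, u, hu, huw⟩ := h
  have huF : u ∈ F := Wp_le hu
  obtain ⟨T, hT, hT1, rfl⟩ := hw
  rintro _ ⟨T', hT', hT1', rfl⟩
  have haa' : B a' a ≠ 0 := by rwa [O.symm]
  have e1 : (T * T' - T' * T) u = -(B u (T' a) / B a a') • T a' +
      (B u (T a') / B a a') • T' a := by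
    rw [LinearMap.sub_apply, Module.End.mul_apply, Module.End.mul_apply,
      O.degOne_apply haa hT hT1 huF, O.degOne_apply haa' hT' hT1' huF, O.symm a' a, map_smul,
      map_smul]
    module
  have h0 : degZero a a' F (T * T' - T' * T) := by
    refine ⟨?_, ?_, fun f hf => ?_⟩
    · rw [LinearMap.sub_apply, Module.End.mul_apply, Module.End.mul_apply, hT1.1, map_zero,
        sub_zero]
      exact hT1.2.2 _ hT1'.2.1
    · rw [LinearMap.sub_apply, Module.End.mul_apply, Module.End.mul_apply, hT1'.1, map_zero,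
        zero_sub]
      exact Submodule.neg_mem _ (hT1'.2.2 _ hT1.2.1)
    · rw [LinearMap.sub_apply, Module.End.mul_apply, Module.End.mul_apply,
        O.degOne_apply haa hT hT1 hf, O.degOne_apply haa' hT' hT1' hf, map_smul, map_smul]
      exact F.sub_mem (F.smul_mem _ hT1.2.1) (F.smul_mem _ hT1'.2.1)
  have h1 := O.Wp_stable (O.closed _ hT _ hT') h0 hu
  rw [e1] at h1
  have h2 : T a' ∈ Wp s a a' F := ⟨T, hT, hT1, rfl⟩
  have h3 := (Wp s a a' F).add_mem h1 ((Wp s a a' F).smul_mem (B u (T' a) / B a a') h2)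
  have h4 : -(B u (T' a) / B a a') • T a' + (B u (T a') / B a a') • T' a +
      (B u (T' a) / B a a') • T a' = (B u (T a') / B a a') • T' a := by module
  rw [h4] at h3
  exact ((Wp s a a' F).smul_mem_iff (div_ne_zero huw haa)).1 h3

/-- the wedges with `a` lie in `s` -/
lemma wedge_mem (O : OSetup B s) {a a' : V} {F : Submodule K V} (haa : B a a' ≠ 0)
    (ha : B a a = 0) (haF : ∀ f ∈ F, B a f = 0) (haF' : ∀ f ∈ F, B a' f = 0)
    (hdec : ∀ x : V, ∃ r r' : K, ∃ f ∈ F, x = r • a + r' • a' + f)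
    {f : V} (hf : f ∈ Wp s a a' F) : wedge B a f ∈ s := by
  obtain ⟨T, hT, hT1, rfl⟩ := hf
  have : wedge B a (T a') = (B a a') • T := by
    ext x
    obtain ⟨r, r', f, hf, rfl⟩ := hdec x
    rw [LinearMap.smul_apply, wedge_apply]
    simp only [map_add, map_smul, smul_eq_mul]
    rw [ha, haF f hf, hT1.1, O.degOne_apply haa hT hT1 hf, O.symm (T a') a, haF _ hT1.2.1,
      O.symm (T a') a', haF' _ hT1.2.1, O.symm (T a') f]
    simp only [mul_zero, zero_add, add_zero, smul_zero, smul_add, smul_smul]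
    rw [mul_neg, mul_div_cancel₀ _ haa]
    module
  rw [this]
  exact s.smul_mem _ hT

end OSetup

end Pool.Agent.Helper66.OTR
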