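import Pool.Agent.Helper66.OTR.Line

/-!
# A normalizing similitude with one simple eigenvalue of slope zero
-/

namespace Pool.Agent.Helper66.OTR

open LinearMap Module.End

set_option linter.unusedSectionVars false

variable {K V : Type*} [Field K] [AddCommGroup V] [Module K V] [FiniteDimensional K V]

namespace Setup

variable {ψ : LinearMap.BilinForm K V} {s : Submodule K (Module.End K V)}
variable {γ : V ≃ₗ[K] V} {c ζ ζ' : K} {l l' : V}
variable [CharZero K] [IsAlgClosed K]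

theorem prank (S : Setup ψ s) (hs : ∀ X ∈ s, cj γ X ∈ s) (P : Pair ψ γ c ζ ζ' l l')
    {v : K → ℝ} (hv : ∀ a b, a ≠ 0 → b ≠ 0 → v (a * b) = v a + v b) {a t : ℝ} (ht : 0 < t)
    (hvζ : v ζ = a) (hvζ' : v ζ' = a + 3 * t)
    (hE : ∀ ν, ∀ x ∈ ge γ ν, x ≠ 0 → ν ≠ ζ → ν ≠ ζ' → a + t ≤ v ν ∧ v ν ≤ a + 2 * t)
    {ν₀ : K} {x₀ : V} (hx₀ : x₀ ∈ ge γ ν₀) (hx₀0 : x₀ ≠ 0) (h₀ : a + t < v ν₀)
    (h₀' : v ν₀ < a + 2 * t) {X : Module.End K V}
    (hX : ∀ x y, ψ (X x) y = - ψ x (X y)) : X ∈ s := by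
  by_contra hcon
  have hne0 : ∀ ν, ∀ x ∈ ge γ ν, x ≠ 0 → ν ≠ 0 := by
    rintro ν x hx hx0 rfl
    exact hx0 (ge_zero hx)
  have spec : ∀ ν, ∀ x ∈ ge γ ν, x ≠ 0 → (ν = ζ ∧ v ν = a) ∨ (ν = ζ' ∧ v ν = a + 3 * t) ∨
      (a + t ≤ v ν ∧ v ν ≤ a + 2 * t) := by
    intro ν x hx hx0
    by_cases h1 : ν = ζ
    · exact Or.inl ⟨h1, by rw [h1, hvζ]⟩
    by_cases h2 : ν = ζ'
    · exact Or.inr (Or.inl ⟨h2, by rw [h2, hvζ']⟩)
    exact Or.inr (Or.inr (hE ν x hx hx0 h1 h2))
  have hμ0 : ∀ μ, ∀ Z ∈ (cj γ).maxGenEigenspace μ, Z ≠ 0 → μ ≠ 0 := by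
    rintro μ Z hZ hZ0 rfl
    exact hZ0 (hom_zero hZ)
  have hmul : ∀ μ, ∀ Z ∈ (cj γ).maxGenEigenspace μ, ∀ ν, ∀ x ∈ ge γ ν, Z x ≠ 0 →
      Z x ∈ ge γ (μ * ν) ∧ v (μ * ν) = v μ + v ν := by
    intro μ Z hZ ν x hx hZx
    have hx0 : x ≠ 0 := by rintro rfl; exact hZx (map_zero _)
    have hZ0 : Z ≠ 0 := by rintro rfl; exact hZx rfl
    exact ⟨map_gen hZ hx, hv _ _ (hμ0 μ Z hZ hZ0) (hne0 ν x hx hx0)⟩
  have bound : ∀ μ, ∀ Z ∈ s, Z ∈ (cj γ).maxGenEigenspace μ → Z ≠ 0 →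
      -t ≤ v μ ∧ v μ ≤ t := by
    intro μ Z hZ hZμ hZ0
    constructor
    · by_contra hlt
      push Not at hlt
      apply hcon
      refine S.homog P hZ hZ0 ?_ (fun ν h1 h2 x hx => ?_) hX
      · by_contra h
        obtain ⟨h3, h4⟩ := hmul μ Z hZμ ζ l P.hl h
        rcases spec _ _ h3 h with ⟨-, h5⟩ | ⟨-, h5⟩ | ⟨h5, -⟩ <;> linarith
      · by_cases h : Z x = 0
        · exact ⟨0, by rw [h, zero_smul]⟩
        obtain ⟨h3, h4⟩ := hmul μ Z hZμ ν x hx h
        have hx0 : x ≠ 0 := by rintro rfl; exact h (map_zero _)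
        have h6 := hE ν x hx hx0 h1 h2
        rcases spec _ _ h3 h with ⟨h5, -⟩ | ⟨-, h5⟩ | ⟨h5, -⟩
        · rw [h5] at h3
          exact P.line _ h3
        · linarith
        · linarith
    · by_contra hlt
      push Not at hlt
      apply hcon
      refine S.homog (P.symm S.neg) hZ hZ0 ?_ (fun ν h1 h2 x hx => ?_) hX
      · by_contra h
        obtain ⟨h3, h4⟩ := hmul μ Z hZμ ζ' l' P.hl' h
        rcases spec _ _ h3 h with ⟨-, h5⟩ | ⟨-, h5⟩ | ⟨-, h5⟩ <;> linarith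
      · by_cases h : Z x = 0
        · exact ⟨0, by rw [h, zero_smul]⟩
        obtain ⟨h3, h4⟩ := hmul μ Z hZμ ν x hx h
        have hx0 : x ≠ 0 := by rintro rfl; exact h (map_zero _)
        have h6 := hE ν x hx hx0 h2 h1
        rcases spec _ _ h3 h with ⟨-, h5⟩ | ⟨h5, -⟩ | ⟨h5, h7⟩
        · linarith
        · rw [h5] at h3
          exact P.line' _ h3
        · linarith
  -- the common kernel of the homogeneous elements of degree outside `{0, t, -t}`
  let T : K → Prop := fun μ => v μ = 0 ∨ v μ = t ∨ v μ = -t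
  let U : Submodule K V :=
    { carrier := {x | ∀ μ, ¬ T μ → ∀ Z ∈ s, Z ∈ (cj γ).maxGenEigenspace μ → Z x = 0}
      zero_mem' := by
        intro μ _ Z _ _
        exact map_zero _
      add_mem' := by
        intro a b ha hb μ h1 Z h2 h3
        rw [map_add, ha μ h1 Z h2 h3, hb μ h1 Z h2 h3, add_zero]
      smul_mem' := by
        intro r a ha μ h1 Z h2 h3
        rw [map_smul, ha μ h1 Z h2 h3, smul_zero] }
  have hUst : ∀ Y ∈ s, ∀ x ∈ U, Y x ∈ U := by
    intro Y hY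
    refine hom_induction hs (p := fun Y => ∀ x ∈ U, Y x ∈ U) ?_ ?_ ?_ hY
    · intro x _
      rw [LinearMap.zero_apply]; exact U.zero_mem
    · intro Y₁ Y₂ h1 h2 x hx
      rw [LinearMap.add_apply]; exact U.add_mem (h1 x hx) (h2 x hx)
    · intro η Y hY hYη x hx
      by_cases hT : T η
      swap
      · rw [hx η hT Y hY hYη]; exact U.zero_mem
      intro μ hμT Z hZ hZμ
      by_cases hZ0 : Z = 0
      · rw [hZ0, LinearMap.zero_apply]
      by_cases hY0 : Y = 0
      · rw [hY0, LinearMap.zero_apply, map_zero]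
      have e1 : Z (Y x) = (Z * Y - Y * Z) x + Y (Z x) := by
        rw [LinearMap.sub_apply, Module.End.mul_apply, Module.End.mul_apply]; abel
      rw [e1, hx μ hμT Z hZ hZμ, map_zero, add_zero]
      have h1 : Z * Y - Y * Z ∈ s := S.closed _ hZ _ hY
      have h2 : Z * Y - Y * Z ∈ (cj γ).maxGenEigenspace (μ * η) := by
        refine Submodule.sub_mem _ (mul_gen hZμ hYη) ?_
        rw [mul_comm μ η]
        exact mul_gen hYη hZμ
      by_cases h3 : T (μ * η)
      · exfalso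
        have h4 : v (μ * η) = v μ + v η := hv _ _ (hμ0 μ Z hZμ hZ0) (hμ0 η Y hYη hY0)
        have h5 := bound μ Z hZ hZμ hZ0
        have h6 : ¬ (v μ = 0) := fun h => hμT (Or.inl h)
        have h7 : ¬ (v μ = t) := fun h => hμT (Or.inr (Or.inl h))
        have h8 : ¬ (v μ = -t) := fun h => hμT (Or.inr (Or.inr h))
        rcases hT with h | h | h <;> rcases h3 with h' | h' | h' <;> rw [h4, h] at h' <;>
          first
          | exact h6 (by linarith)
          | exact h7 (by linarith)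
          | exact h8 (by linarith)
      · exact hx _ h3 _ h1 h2
  have hlU : l ∈ U := by
    intro μ hμT Z hZ hZμ
    by_contra h
    obtain ⟨h3, h4⟩ := hmul μ Z hZμ ζ l P.hl h
    have hZ0 : Z ≠ 0 := by rintro rfl; exact h rfl
    have h5 := bound μ Z hZ hZμ hZ0
    rw [hvζ] at h4
    rcases spec _ _ h3 h with ⟨-, h6⟩ | ⟨-, h6⟩ | ⟨h6, -⟩
    · exact hμT (Or.inl (by linarith))
    · linarith
    · exact hμT (Or.inr (Or.inl (le_antisymm h5.2 (by linarith))))
  have hUtop : U = ⊤ := by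
    rcases S.irred.2 U hUst with h | h
    · rw [h] at hlU
      exact absurd ((Submodule.mem_bot K).1 hlU) P.l_ne
    · exact h
  have hdeg : ∀ μ, ∀ Z ∈ s, Z ∈ (cj γ).maxGenEigenspace μ → Z ≠ 0 → T μ := by
    intro μ Z hZ hZμ hZ0
    by_contra hT
    apply hZ0
    ext x
    have : x ∈ U := by rw [hUtop]; trivial
    exact this μ hT Z hZ hZμ
  -- the vectors of degree in `{a, a + t, a + 2 t, a + 3 t}`
  let R : K → Prop := fun ν => v ν = a ∨ v ν = a + t ∨ v ν = a + 2 * t ∨ v ν = a + 3 * t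
  let W : Submodule K V := ⨆ ν : {ν : K // R ν}, ge γ ν.1
  have hWst : ∀ Y ∈ s, ∀ x ∈ W, Y x ∈ W := by
    intro Y hY
    refine hom_induction hs (p := fun Y => ∀ x ∈ W, Y x ∈ W) ?_ ?_ ?_ hY
    · intro x _
      rw [LinearMap.zero_apply]; exact W.zero_mem
    · intro Y₁ Y₂ h1 h2 x hx
      rw [LinearMap.add_apply]; exact W.add_mem (h1 x hx) (h2 x hx)
    · intro η Y hY hYη x hx
      refine Submodule.iSup_induction (motive := fun x => Y x ∈ W) _ hx ?_ ?_ ?_
      · rintro ⟨ν, hν⟩ x hx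
        by_cases hYx : Y x = 0
        · rw [hYx]; exact W.zero_mem
        obtain ⟨h3, h4⟩ := hmul η Y hYη ν x hx hYx
        have hY0 : Y ≠ 0 := by rintro rfl; exact hYx rfl
        have h5 := hdeg η Y hY hYη hY0
        have h6 : R (η * ν) := by
          rcases spec _ _ h3 hYx with ⟨-, h7⟩ | ⟨-, h7⟩ | ⟨h7, h8⟩
          · exact Or.inl h7
          · exact Or.inr (Or.inr (Or.inr h7))
          · have h9 : v (η * ν) = a + t ∨ v (η * ν) = a + 2 * t := by
              rcases h5 with h | h | h <;> rcases hν with h' | h' | h' | h' <;>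
                rw [h, h'] at h4 <;>
                first
                | (left; linarith)
                | (right; linarith)
            rcases h9 with h9 | h9
            · exact Or.inr (Or.inl h9)
            · exact Or.inr (Or.inr (Or.inl h9))
        exact Submodule.mem_iSup_of_mem (⟨η * ν, h6⟩ : {ν : K // R ν}) h3
      · rw [map_zero]; exact W.zero_mem
      · intro a b ha hb
        rw [map_add]; exact W.add_mem ha hb
  have hlW : l ∈ W := Submodule.mem_iSup_of_mem (⟨ζ, Or.inl hvζ⟩ : {ν : K // R ν}) P.hl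
  have hWtop : W = ⊤ := by
    rcases S.irred.2 W hWst with h | h
    · rw [h] at hlW
      exact absurd ((Submodule.mem_bot K).1 hlW) P.l_ne
    · exact h
  -- contradiction with `x₀`
  have hind := Module.End.independent_maxGenEigenspace (γ : Module.End K V)
  have hd := hind ν₀
  have hx₀W : x₀ ∈ ⨆ j, ⨆ (_ : j ≠ ν₀), ge γ j := by
    have h1 : x₀ ∈ W := by rw [hWtop]; trivial
    have h2 : W ≤ ⨆ j, ⨆ (_ : j ≠ ν₀), ge γ j := by
      refine iSup_le ?_
      rintro ⟨ν, hν⟩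
      have h3 : ν ≠ ν₀ := by
        rintro rfl
        rcases hν with h | h | h | h <;> linarith
      exact le_iSup₂_of_le (f := fun j (_ : j ≠ ν₀) => ge γ j) ν h3 le_rfl
    exact h2 h1
  exact hx₀0 (Submodule.disjoint_def.1 hd x₀ hx₀ hx₀W)

end Setup

end Pool.Agent.Helper66.OTR
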