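import Pool.Agent.Helper66.OTR.Form

/-!
# Transvections
-/

namespace Pool.Agent.Helper66.OTR

open LinearMap

set_option linter.unusedSectionVars false

variable {K V : Type*} [Field K] [AddCommGroup V] [Module K V] [FiniteDimensional K V]

/-- the symmetric square in `sp` -/
def dot (ψ : LinearMap.BilinForm K V) (u w : V) : Module.End K V :=
  (ψ u).smulRight w + (ψ w).smulRight u

lemma dot_apply (ψ : LinearMap.BilinForm K V) (u w x : V) :
    dot ψ u w x = ψ u x • w + ψ w x • u := rfl

lemma dot_symm (ψ : LinearMap.BilinForm K V) (u w : V) : dot ψ u w = dot ψ w u := by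
  unfold dot; rw [add_comm]

lemma dot_add (ψ : LinearMap.BilinForm K V) (u w w' : V) :
    dot ψ u (w + w') = dot ψ u w + dot ψ u w' := by
  ext x
  simp only [dot_apply, LinearMap.add_apply, map_add]
  module

lemma dot_smul (ψ : LinearMap.BilinForm K V) (c : K) (u w : V) :
    dot ψ u (c • w) = c • dot ψ u w := by
  ext x
  simp only [dot_apply, LinearMap.smul_apply, map_smul, smul_eq_mul]
  module

lemma add_dot (ψ : LinearMap.BilinForm K V) (u w w' : V) :
    dot ψ (w + w') u = dot ψ w u + dot ψ w' u := by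
  rw [dot_symm, dot_add, dot_symm ψ u w, dot_symm ψ u w']

lemma smul_dot (ψ : LinearMap.BilinForm K V) (c : K) (u w : V) :
    dot ψ (c • w) u = c • dot ψ w u := by
  rw [dot_symm, dot_smul, dot_symm ψ u w]

lemma comm_dot {ψ : LinearMap.BilinForm K V} {X : Module.End K V}
    (hX : ∀ x y, ψ (X x) y = - ψ x (X y)) (u w : V) :
    X * dot ψ u w - dot ψ u w * X = dot ψ (X u) w + dot ψ u (X w) := by
  ext x
  simp only [LinearMap.sub_apply, Module.End.mul_apply, dot_apply, map_add, map_smul,
    LinearMap.add_apply, hX]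
  module

namespace Setup

variable {ψ : LinearMap.BilinForm K V} {s : Submodule K (Module.End K V)}

lemma dot_sp (S : Setup ψ s) (u w x y : V) : ψ (dot ψ u w x) y = - ψ x (dot ψ u w y) := by
  simp only [dot_apply, map_add, map_smul, LinearMap.add_apply, LinearMap.smul_apply, smul_eq_mul]
  rw [S.neg x u, S.neg x w]
  ring

/-- `sp` is spanned by the products -/
lemma sp_le [CharZero K] (S : Setup ψ s) {g : Submodule K (Module.End K V)}
    (h : ∀ u w, dot ψ u w ∈ g) {X : Module.End K V}
    (hX : ∀ x y, ψ (X x) y = - ψ x (X y)) : X ∈ g := by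
  classical
  set b := Module.finBasis K V with hb
  set b' := ψ.dualBasis S.nd b with hb'
  have h1 : ∀ x : V, ∑ i, ψ (b' i) x • b i = x := by
    intro x
    conv_rhs => rw [← b.sum_repr x]
    refine Finset.sum_congr rfl fun i _ => ?_
    congr 1
    conv_lhs => rw [← b.sum_repr x]
    rw [map_sum]
    simp only [map_smul, smul_eq_mul]
    rw [Finset.sum_eq_single i]
    · rw [hb', LinearMap.BilinForm.apply_dualBasis_left]; simp
    · intro j _ hj
      rw [hb', LinearMap.BilinForm.apply_dualBasis_left]; simp [hj]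
    · simp
  have h2 : ∀ x : V, ∑ i, ψ x (b i) • b' i = x := by
    intro x
    apply (LinearMap.BilinForm.nondegenerate_iff_ker_eq_bot.1 S.nd |> LinearMap.ker_eq_bot.1)
    refine b.ext fun j => ?_
    rw [map_sum, LinearMap.sum_apply]
    simp only [map_smul, LinearMap.smul_apply, smul_eq_mul]
    rw [Finset.sum_eq_single j]
    · rw [hb', LinearMap.BilinForm.apply_dualBasis_left]; simp
    · intro i _ hj
      rw [hb', LinearMap.BilinForm.apply_dualBasis_left, if_neg (Ne.symm hj), mul_zero]
    · simp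
  have h3 : X = (2 : K)⁻¹ • ∑ i, dot ψ (b' i) (X (b i)) := by
    ext x
    rw [LinearMap.smul_apply, LinearMap.sum_apply]
    simp only [dot_apply]
    rw [Finset.sum_add_distrib]
    have e1 : ∑ i, ψ (b' i) x • X (b i) = X x := by
      conv_rhs => rw [← h1 x]
      rw [map_sum]
      simp only [map_smul]
    have e2 : ∑ i, ψ (X (b i)) x • b' i = X x := by
      conv_rhs => rw [← h2 (X x)]
      refine Finset.sum_congr rfl fun i _ => ?_
      rw [hX, S.neg (b i) (X x), neg_neg]
    rw [e1, e2, ← two_smul K (X x), smul_smul, inv_mul_cancel₀ (two_ne_zero), one_smul]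
  rw [h3]
  exact g.smul_mem _ (g.sum_mem fun i _ => h _ _)

/-- **Transvections generate.** -/
theorem transv [CharZero K] [IsAlgClosed K] (S : Setup ψ s) {v : V} (hv : v ≠ 0)
    (hvv : dot ψ v v ∈ s) {X : Module.End K V} (hX : ∀ x y, ψ (X x) y = - ψ x (X y)) : X ∈ s := by
  -- find `y`
  have hne : dot ψ v v ≠ 0 := by
    intro h0
    have : ∀ x, ψ v x = 0 := by
      intro x
      have h1 := congrArg (fun f => f x) h0
      simp only [dot_apply, LinearMap.zero_apply] at h1
      rw [← two_smul K, smul_smul] at h1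
      rcases smul_eq_zero.1 h1 with h2 | h2
      · simpa using h2
      · exact absurd h2 hv
    refine hv ?_
    apply (LinearMap.BilinForm.nondegenerate_iff_ker_eq_bot.1 S.nd |> LinearMap.ker_eq_bot.1)
    ext x
    rw [this x, map_zero, LinearMap.zero_apply]
  obtain ⟨Y, hY, hYv⟩ : ∃ Y ∈ s, ψ v (Y v) ≠ 0 := by
    by_contra hcon
    push Not at hcon
    refine hne (S.nondeg hvv fun Y hY => ?_)
    apply trace_nilp
    ext x
    simp only [Module.End.mul_apply, dot_apply, map_add, map_smul, hcon Y hY, LinearMap.add_apply,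
      LinearMap.smul_apply, smul_eq_mul, smul_zero, mul_zero, add_zero, zero_smul,
      LinearMap.zero_apply]
  have key : ∀ c : K, ψ v ((c • Y) v) = c * ψ v (Y v) := fun c => by simp
  set Z : Module.End K V := (ψ v (Y v))⁻¹ • Y with hZ
  have hZs : Z ∈ s := s.smul_mem _ hY
  have hZv : ψ v (Z v) = 1 := by rw [hZ, key, inv_mul_cancel₀ hYv]
  set y := Z v with hy
  have hyv : ψ y v = -1 := by rw [S.neg, hZv]
  have hhalf : ∀ T : Module.End K V, (2 : K) • T ∈ s → T ∈ s := fun T h => by
    have := s.smul_mem (2 : K)⁻¹ h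
    rwa [smul_smul, inv_mul_cancel₀ two_ne_zero, one_smul] at this
  have hvy : dot ψ v y ∈ s := by
    have h1 := S.closed Z hZs _ hvv
    rw [comm_dot (S.sp Z hZs), ← hy, dot_symm ψ y v, ← two_smul K] at h1
    exact hhalf _ h1
  have hyy : dot ψ y y ∈ s := by
    have h1 := S.closed Z hZs _ hvy
    rw [comm_dot (S.sp Z hZs), ← hy] at h1
    have h2 := S.closed _ hvy _ h1
    have e : dot ψ v y * (dot ψ y y + dot ψ v (Z y)) - (dot ψ y y + dot ψ v (Z y)) * dot ψ v y =
        (dot ψ v y * dot ψ y y - dot ψ y y * dot ψ v y) +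
        (dot ψ v y * dot ψ v (Z y) - dot ψ v (Z y) * dot ψ v y) := by noncomm_ring
    rw [e, comm_dot (S.dot_sp v y), comm_dot (S.dot_sp v y)] at h2
    have e1 : dot ψ v y y = y := by
      rw [dot_apply, S.alt, hZv]; simp
    have e2 : dot ψ v y v = -v := by
      rw [dot_apply, S.alt, hyv]; simp
    have e3 : dot ψ v y (Z y) = ψ v (Z y) • y + ψ y (Z y) • v := dot_apply _ _ _ _
    rw [e1, e2, e3, dot_add, dot_smul, dot_smul] at h2
    have e4 : dot ψ (-v) (Z y) = - dot ψ v (Z y) := by
      have := smul_dot ψ (-1) (Z y) v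
      simpa using this
    rw [e4] at h2
    have h3 := s.sub_mem (s.sub_mem (s.add_mem h1 h2) (s.smul_mem (ψ v (Z y)) hvy))
      (s.smul_mem (ψ y (Z y)) hvv)
    have e5 : dot ψ y y + dot ψ v (Z y) + (dot ψ y y + dot ψ y y +
        (-dot ψ v (Z y) + (ψ v (Z y) • dot ψ v y + ψ y (Z y) • dot ψ v v))) -
        ψ v (Z y) • dot ψ v y - ψ y (Z y) • dot ψ v v = (3 : K) • dot ψ y y := by module
    rw [e5] at h3
    have := s.smul_mem (3 : K)⁻¹ h3
    rwa [smul_smul, inv_mul_cancel₀ (by norm_num), one_smul] at this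
  -- the subspace `U`
  have hswap : ∀ w, dot ψ v w ∈ s → dot ψ y w ∈ s := by
    intro w hw
    have h1 := S.closed _ hyy _ hw
    rw [comm_dot (S.dot_sp y y), dot_apply, dot_apply, hyv, ← two_smul K, ← two_smul K,
      dot_smul, dot_smul, smul_dot, smul_dot] at h1
    have h2 := s.sub_mem h1 (s.smul_mem (2 * ψ y w) hvy)
    have e5 : (2 : K) • (-1 : K) • dot ψ y w + (2 : K) • ψ y w • dot ψ v y -
      (2 * ψ y w) • dot ψ v y = (2 : K) • (-1 : K) • dot ψ y w := by module
    rw [e5] at h2
    have h3 := hhalf _ h2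
    have h4 := s.smul_mem (-1 : K) h3
    rwa [smul_smul, show (-1 : K) * -1 = 1 by ring, one_smul] at h4
  have hswap' : ∀ w, dot ψ y w ∈ s → dot ψ v w ∈ s := by
    intro w hw
    have h1 := S.closed _ hvv _ hw
    rw [comm_dot (S.dot_sp v v), dot_apply, dot_apply, hZv, ← two_smul K, ← two_smul K,
      dot_smul, dot_smul, smul_dot, smul_dot, dot_symm ψ y v] at h1
    have h2 := s.sub_mem h1 (s.smul_mem (2 * ψ v w) hvy)
    have e5 : (2 : K) • (1 : K) • dot ψ v w + (2 : K) • ψ v w • dot ψ v y -
      (2 * ψ v w) • dot ψ v y = (2 : K) • dot ψ v w := by module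
    rw [e5] at h2
    exact hhalf _ h2
  have hprod : ∀ w w', dot ψ v w ∈ s → dot ψ v w' ∈ s → dot ψ w' w ∈ s := by
    intro w w' hw hw'
    have h1 := S.closed _ hw' _ (hswap w hw)
    rw [comm_dot (S.dot_sp v w'), dot_apply, dot_apply, hZv] at h1
    simp only [add_dot, dot_add, smul_dot, dot_smul, one_smul] at h1
    have h2 := s.sub_mem (s.sub_mem (s.sub_mem h1 (s.smul_mem (ψ w' y) hw))
      (s.smul_mem (ψ v w) (hswap w' hw'))) (s.smul_mem (ψ w' w) (hswap v hvv))
    convert h2 using 1
    abel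
  have hXv : ∀ X ∈ s, dot ψ v (X v) ∈ s := by
    intro X hX
    have h1 := S.closed X hX _ hvv
    rw [comm_dot (S.sp X hX), dot_symm ψ (X v) v, ← two_smul K] at h1
    exact hhalf _ h1
  let U : Submodule K V :=
    { carrier := {w | dot ψ v w ∈ s}
      zero_mem' := by
        show dot ψ v 0 ∈ s
        have := dot_smul ψ 0 v 0
        rw [zero_smul, zero_smul] at this
        rw [this]; exact s.zero_mem
      add_mem' := by
        intro a b ha hb
        show dot ψ v (a + b) ∈ s
        rw [dot_add]; exact s.add_mem ha hb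
      smul_mem' := by
        intro c a ha
        show dot ψ v (c • a) ∈ s
        rw [dot_smul]; exact s.smul_mem c ha }
  have hU : ∀ X ∈ s, ∀ w ∈ U, X w ∈ U := by
    intro X hX w hw
    have h1 := S.closed X hX _ (show dot ψ v w ∈ s from hw)
    rw [comm_dot (S.sp X hX)] at h1
    have h2 := hprod w (X v) hw (hXv X hX)
    have h3 := s.sub_mem h1 h2
    rwa [add_sub_cancel_left] at h3
  have htop : U = ⊤ := by
    rcases S.irred.2 U hU with h | h
    · exfalso
      have h1 : v ∈ U := hvv
      rw [h, Submodule.mem_bot] at h1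
      exact hv h1
    · exact h
  refine S.sp_le (fun u w => ?_) hX
  have hu : u ∈ U := by rw [htop]; trivial
  have hw : w ∈ U := by rw [htop]; trivial
  exact hprod w u hw hu

end Setup

end Pool.Agent.Helper66.OTR
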