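import Pool.Agent.Helper66.OTR.Stable
import Pool.Agent.Helper66.OTR.Transv

/-!
# Elements of rank one and two
-/

namespace Pool.Agent.Helper66.OTR

open LinearMap

set_option linter.unusedSectionVars false

variable {K V : Type*} [Field K] [AddCommGroup V] [Module K V] [FiniteDimensional K V]

namespace Setup

variable {ψ : LinearMap.BilinForm K V} {s : Submodule K (Module.End K V)}
variable [CharZero K] [IsAlgClosed K]

lemma exists_ne (S : Setup ψ s) {v : V} (hv : v ≠ 0) : ∃ w, ψ v w ≠ 0 := by
  by_contra hcon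
  push Not at hcon
  refine hv ?_
  apply (LinearMap.BilinForm.nondegenerate_iff_ker_eq_bot.1 S.nd |> LinearMap.ker_eq_bot.1)
  ext x
  rw [hcon x, map_zero, LinearMap.zero_apply]

/-- **An irreducible algebra with an element of rank one is the symplectic algebra.** -/
theorem rank_one (S : Setup ψ s) {N : Module.End K V} (hN : N ∈ s)
    (h1 : Module.finrank K (LinearMap.range N) = 1) {X : Module.End K V}
    (hX : ∀ x y, ψ (X x) y = - ψ x (X y)) : X ∈ s := by
  obtain ⟨⟨v, hvr⟩, hv0, hv⟩ := finrank_eq_one_iff'.1 h1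
  have hv0' : v ≠ 0 := fun h => hv0 (Subtype.ext h)
  have hf : ∀ x, ∃ c : K, c • v = N x := fun x => by
    obtain ⟨c, hc⟩ := hv ⟨N x, LinearMap.mem_range_self _ _⟩
    exact ⟨c, congrArg Subtype.val hc⟩
  obtain ⟨w, hw⟩ := S.exists_ne hv0'
  obtain ⟨e, he⟩ := hf w
  have key : ∀ x, N x = (e / ψ v w * ψ v x) • v := by
    intro x
    obtain ⟨c, hc⟩ := hf x
    have h2 := S.sp N hN x w
    rw [← hc, ← he] at h2
    simp only [map_smul, LinearMap.smul_apply, smul_eq_mul] at h2
    rw [S.neg x v] at h2
    rw [← hc]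
    congr 1
    field_simp
    linear_combination h2
  have hκ : e / ψ v w ≠ 0 := by
    intro h0
    obtain ⟨z, hz⟩ := hvr
    rw [key z, h0, zero_mul, zero_smul] at hz
    exact hv0' hz.symm
  have h3 : dot ψ v v = (2 / (e / ψ v w)) • N := by
    ext x
    rw [LinearMap.smul_apply, key x, dot_apply, smul_smul]
    rw [show 2 / (e / ψ v w) * (e / ψ v w * ψ v x) = 2 * ψ v x by
      rw [← mul_assoc, div_mul_cancel₀ _ hκ]]
    module
  exact S.transv hv0' (by rw [h3]; exact s.smul_mem _ hN) hX

/-- if `N X N` is not a multiple of `N`, there is an element of smaller rank -/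
theorem drop (S : Setup ψ s) {N X : Module.End K V} (hN : N ∈ s) (hNN : N * N = 0) (hX : X ∈ s)
    (h : ∀ c : K, N * X * N ≠ c • N) : ∃ N' ∈ s, N' ≠ 0 ∧
      Module.finrank K (LinearMap.range N') < Module.finrank K (LinearMap.range N) := by
  have hNne : N ≠ 0 := by
    rintro rfl
    exact h 0 (by simp)
  -- the operator `N X` on the range of `N`
  let T : Module.End K (LinearMap.range N) :=
    { toFun := fun u => ⟨N (X u.1), LinearMap.mem_range_self _ _⟩
      map_add' := by intro a b; ext1; simp
      map_smul' := by intro c a; ext1; simp }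
  have hnt : Nontrivial (LinearMap.range N) := by
    rw [Submodule.nontrivial_iff_ne_bot]
    intro h0
    exact hNne (LinearMap.range_eq_bot.1 h0)
  obtain ⟨μ, hμ⟩ := Module.End.exists_eigenvalue T
  obtain ⟨⟨u, w, rfl⟩, hu⟩ := hμ.exists_hasEigenvector
  have hu1 : N (X (N w)) = μ • N w := congrArg Subtype.val hu.apply_eq_smul
  have hu0 : N w ≠ 0 := fun h0 => hu.2 (Subtype.ext h0)
  refine ⟨N * X * N - μ • N, s.sub_mem (S.closed.quad hN hNN hX) (s.smul_mem _ hN),
    sub_ne_zero.2 (h μ), ?_⟩
  have hk : LinearMap.ker N < LinearMap.ker (N * X * N - μ • N) := by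
    rw [SetLike.lt_iff_le_and_exists]
    refine ⟨fun x hx => ?_, w, ?_, fun hx => hu0 hx⟩
    · rw [LinearMap.mem_ker] at hx ⊢
      simp [hx]
    · rw [LinearMap.mem_ker]
      simp [hu1]
  have h1 := Submodule.finrank_lt_finrank_of_lt hk
  have h2 := LinearMap.finrank_range_add_finrank_ker N
  have h3 := LinearMap.finrank_range_add_finrank_ker (N * X * N - μ • N)
  omega

/-- adjoints in terms of the triple: the form `q` on `V_{-1}` is symmetric -/
lemma q_symm (S : Setup ψ s) {M : Module.End K V} (hM : M ∈ s) (u w : V) :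
    ψ (M u) w = ψ (M w) u := by
  rw [S.sp M hM, S.neg u (M w), neg_neg]

/-- **An irreducible algebra with a square zero element of rank two is the symplectic algebra.** -/
theorem rank_two (S : Setup ψ s) {N : Module.End K V} (hN : N ∈ s) (hNN : N * N = 0)
    (h1 : Module.finrank K (LinearMap.range N) = 2) {X : Module.End K V}
    (hX : ∀ x y, ψ (X x) y = - ψ x (X y)) : X ∈ s := by
  by_cases hJ : ∀ Y ∈ s, ∃ c : K, N * Y * N = c • N
  swap
  · push Not at hJ
    obtain ⟨Y, hY, hc⟩ := hJ
    obtain ⟨N', hN', h0, hlt⟩ := S.drop hN hNN hY hc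
    refine S.rank_one hN' ?_ hX
    have : Module.finrank K (LinearMap.range N') ≠ 0 := by
      intro h
      rw [Submodule.finrank_eq_zero, LinearMap.range_eq_bot] at h
      exact h0 h
    omega
  exfalso
  obtain ⟨F, t⟩ := S.exists_trip hN hNN
  have j : t.J := hJ
  -- `V_{-1}`
  set W := LinearMap.range (F * N) with hW
  have hWm : ∀ v, v ∈ W ↔ (F * N) v = v := by
    intro v
    constructor
    · rintro ⟨w, rfl⟩
      rw [← Module.End.mul_apply, t.QQ]
    · intro h
      exact ⟨v, h⟩
  have hWN : Module.finrank K W = 2 := by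
    have e1 : Module.finrank K W = Module.finrank K (LinearMap.range N) := by
      apply le_antisymm
      · have : W = (LinearMap.range N).map F := LinearMap.range_comp _ _
        rw [this]
        exact Submodule.finrank_map_le _ _
      · have : LinearMap.range N = W.map N := by
          rw [hW]
          rw [← LinearMap.range_comp]
          congr 1
          have := t.MFM
          rw [mul_assoc] at this
          exact this.symm
        rw [this]
        exact Submodule.finrank_map_le _ _
    rw [e1, h1]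
  -- basis
  obtain ⟨b⟩ : Nonempty (Module.Basis (Fin 2) K W) := ⟨Module.finBasisOfFinrankEq K W hWN⟩
  set x := (b 0 : V) with hx
  set y := (b 1 : V) with hy
  have hxy : ∀ v, v ∈ W → ∃ α β : K, v = α • x + β • y := by
    intro v hv
    have := b.sum_repr ⟨v, hv⟩
    rw [Fin.sum_univ_two] at this
    exact ⟨_, _, (congrArg Subtype.val this).symm⟩
  have hind : ∀ α β : K, α • x + β • y = 0 → α = 0 ∧ β = 0 := by
    intro α β h
    have h2 := b.linearIndependent
    rw [Fintype.linearIndependent_iff] at h2
    have h3 := h2 ![α, β] (by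
      rw [Fin.sum_univ_two]
      ext1
      simpa using h)
    exact ⟨h3 0, h3 1⟩
  have hxW : x ∈ W := (b 0).2
  have hyW : y ∈ W := (b 1).2
  -- isotropic vector
  obtain ⟨v₀, hv₀W, hv₀, hiso⟩ : ∃ v₀ ∈ W, v₀ ≠ 0 ∧ ψ (N v₀) v₀ = 0 := by
    by_cases hyy : ψ (N y) y = 0
    · refine ⟨y, hyW, ?_, hyy⟩
      intro h0
      have := (hind 0 1 (by rw [h0]; simp)).2
      exact one_ne_zero this
    · -- solve `q(x + β y) = 0`
      obtain ⟨β, hβ⟩ := IsAlgClosed.exists_aeval_eq_zero (k := K) (R := K)
        (Polynomial.C (ψ (N y) y) * Polynomial.X ^ 2 + Polynomial.C (2 * ψ (N x) y) * Polynomial.X +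
          Polynomial.C (ψ (N x) x)) (by
          rw [Polynomial.degree_quadratic hyy]; norm_num)
      refine ⟨x + β • y, W.add_mem hxW (W.smul_mem _ hyW), ?_, ?_⟩
      · intro h0
        have := (hind 1 β (by rw [one_smul]; exact h0)).1
        exact one_ne_zero this
      · simp at hβ
        simp only [map_add, map_smul, LinearMap.add_apply, LinearMap.smul_apply, smul_eq_mul]
        rw [S.q_symm hN y x]
        linear_combination hβ
  have hv₀' := (hWm v₀).1 hv₀W
  -- the orthogonal of `v₀` in `W` is the line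
  have hline : ∀ w ∈ W, ψ (N w) v₀ = 0 → ∃ c : K, w = c • v₀ := by
    intro w hw hqw
    by_contra hcon
    push Not at hcon
    -- then `v₀, w` span `W`, and `q(-, v₀) = 0`
    have hli : LinearIndependent K ![(⟨v₀, hv₀W⟩ : W), ⟨w, hw⟩] := by
      rw [LinearIndependent.pair_iff' (by intro h; exact hv₀ (congrArg Subtype.val h))]
      intro c hc
      exact hcon c (congrArg Subtype.val hc).symm
    have hspan := hli.span_eq_top_of_card_eq_finrank (by simp [hWN])
    have hall : ∀ u : W, ψ (N u.1) v₀ = 0 := by
      intro u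
      have hu : u ∈ Submodule.span K (Set.range ![(⟨v₀, hv₀W⟩ : W), ⟨w, hw⟩]) := by
        rw [hspan]; trivial
      rw [Matrix.range_cons, Matrix.range_cons, Matrix.range_empty, Set.union_empty,
        Set.singleton_union, Submodule.mem_span_pair] at hu
      obtain ⟨α, β, rfl⟩ := hu
      simp [hiso, hqw]
    -- contradiction with nondegeneracy
    have hNv : N v₀ = 0 := by
      by_contra hne
      obtain ⟨z, hz⟩ := S.exists_ne hne
      apply hz
      -- `ψ (N v₀) z = ψ (N (F N) v₀) z = ... = ψ (N v₀) ((F N) z)`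
      have e1 : ψ (N v₀) z = ψ (N ((F * N) z)) v₀ := by
        rw [S.q_symm hN ((F * N) z) v₀]
        have e2 : N v₀ = (N * F * N) v₀ := by rw [t.MFM]
        rw [e2]
        simp only [Module.End.mul_apply]
        rw [S.sp N hN, S.sp F t.hF, S.sp N hN (v₀)]
        rw [S.sp N hN, S.sp F t.hF, S.sp N hN (v₀)]
        have e3 : N (F (N (F (N z)))) = N (F (N z)) := by
          have := congrArg (fun f => f (F (N z))) t.MFM
          simpa [Module.End.mul_apply] using this
        rw [e3]
      rw [e1]
      exact hall ⟨(F * N) z, LinearMap.mem_range_self _ _⟩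
    apply hv₀
    rw [← hv₀', Module.End.mul_apply, hNv, map_zero]
  have h0 : ∀ Y ∈ s, Dg t.H 0 Y → ∃ c : K, Y v₀ = c • v₀ := by
    intro Y hY hd
    obtain ⟨c, hc⟩ := j.dg2 S.closed (S.closed _ hY _ hN) ((hd.comm t.dg_M).congr (by norm_num))
    refine hline (Y v₀) ?_ ?_
    · rw [hWm]
      have h2 := hd.apply (t.H_apply hv₀')
      rw [add_zero] at h2
      have h3 := congrArg (fun f => f (Y v₀)) t.HH
      simp only [Module.End.mul_apply, LinearMap.add_apply] at h3
      have h4 : t.H (t.H (Y v₀)) = Y v₀ := by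
        rw [h2, map_smul, h2, smul_smul]; norm_num
      have h5 : N (F (Y v₀)) + F (N (Y v₀)) = Y v₀ := by rw [← h3]; exact h4
      have h6 : N (F (Y v₀)) - F (N (Y v₀)) = - Y v₀ := by
        have := h2
        rw [neg_one_smul] at this
        exact this
      have h7 : (2 : K) • F (N (Y v₀)) = (2 : K) • Y v₀ := by
        have h9 := congrArg₂ (· - ·) h5 h6
        rw [two_smul, two_smul]
        have h10 : Y v₀ - - Y v₀ = Y v₀ + Y v₀ := by abel
        rw [← h10]
        rw [← h9]
        abel
      exact smul_right_injective V (two_ne_zero (α := K)) h7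
    · have e1 : N (Y v₀) = Y (N v₀) - c • N v₀ := by
        have := congrArg (fun f => f v₀) hc
        simp only [LinearMap.sub_apply, Module.End.mul_apply, LinearMap.smul_apply] at this
        rw [← this]; abel
      have e2 : ψ (N (Y v₀)) v₀ = - ψ (N (Y v₀)) v₀ := by
        conv_lhs => rw [e1]
        simp only [map_sub, map_smul, LinearMap.sub_apply, LinearMap.smul_apply, hiso,
          smul_zero, sub_zero]
        rw [S.sp Y hY, S.q_symm hN]
      have e3 : (2 : K) * ψ (N (Y v₀)) v₀ = 0 := by linear_combination e2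
      simpa using e3
  have hall := t.stable S.closed S.irred j hv₀' hv₀ h0
  -- dimension
  have hle : W ≤ Submodule.span K {v₀} := by
    intro v hv
    obtain ⟨c, rfl⟩ := hall v ((hWm v).1 hv)
    exact Submodule.smul_mem _ _ (Submodule.mem_span_singleton_self _)
  have h5 := Submodule.finrank_mono hle
  rw [finrank_span_singleton hv₀, hWN] at h5
  omega

end Setup

end Pool.Agent.Helper66.OTR
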