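import Pool.Agent.Helper66.OTR.Line

/-!
# A normalizing similitude with one simple eigenvalue which is independent of the others
-/

namespace Pool.Agent.Helper66.OTR

open LinearMap Module.End

set_option linter.unusedSectionVars false

variable {K V : Type*} [Field K] [AddCommGroup V] [Module K V] [FiniteDimensional K V]

/-- the sum of the other generalized eigenspaces -/
def oth (γ : V ≃ₗ[K] V) (ζ ζ' : K) : Submodule K V :=
  ⨆ ν : {ν : K // ν ≠ ζ ∧ ν ≠ ζ'}, ge γ ν.1

lemma oth_ind {γ : V ≃ₗ[K] V} {ζ ζ' : K} {p : V → Prop} (h0 : p 0)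
    (hadd : ∀ x y, p x → p y → p (x + y))
    (hh : ∀ ν, ν ≠ ζ → ν ≠ ζ' → ∀ x ∈ ge γ ν, p x) {f : V} (hf : f ∈ oth γ ζ ζ') : p f := by
  refine Submodule.iSup_induction (motive := p) _ hf ?_ h0 hadd
  rintro ⟨ν, h1, h2⟩ x hx
  exact hh ν h1 h2 x hx

lemma mem_oth {γ : V ≃ₗ[K] V} {ζ ζ' ν : K} (h1 : ν ≠ ζ) (h2 : ν ≠ ζ') {x : V} (hx : x ∈ ge γ ν) :
    x ∈ oth γ ζ ζ' :=
  Submodule.mem_iSup_of_mem (⟨ν, h1, h2⟩ : {ν : K // ν ≠ ζ ∧ ν ≠ ζ'}) hx

lemma oth_symm {γ : V ≃ₗ[K] V} {ζ ζ' : K} : oth γ ζ ζ' = oth γ ζ' ζ := by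
  apply le_antisymm
  · exact iSup_le fun ν => le_iSup (fun ν : {ν : K // ν ≠ ζ' ∧ ν ≠ ζ} => ge γ ν.1)
      ⟨ν.1, ν.2.2, ν.2.1⟩
  · exact iSup_le fun ν => le_iSup (fun ν : {ν : K // ν ≠ ζ ∧ ν ≠ ζ'} => ge γ ν.1)
      ⟨ν.1, ν.2.2, ν.2.1⟩

/-- elements which rotate the three summands -/
def rot (L L' F : Submodule K V) : Submodule K (Module.End K V) where
  carrier := {Z | (∀ x ∈ L, Z x ∈ L') ∧ (∀ x ∈ L', Z x ∈ F) ∧ ∀ x ∈ F, Z x ∈ L}
  zero_mem' := ⟨fun _ _ => L'.zero_mem, fun _ _ => F.zero_mem, fun _ _ => L.zero_mem⟩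
  add_mem' := by
    rintro a b ⟨h1, h2, h3⟩ ⟨k1, k2, k3⟩
    exact ⟨fun x hx => L'.add_mem (h1 x hx) (k1 x hx), fun x hx => F.add_mem (h2 x hx) (k2 x hx),
      fun x hx => L.add_mem (h3 x hx) (k3 x hx)⟩
  smul_mem' := by
    rintro t a ⟨h1, h2, h3⟩
    exact ⟨fun x hx => L'.smul_mem t (h1 x hx), fun x hx => F.smul_mem t (h2 x hx),
      fun x hx => L.smul_mem t (h3 x hx)⟩

/-- elements which preserve the three summands -/
def fixes (L L' F : Submodule K V) (Z : Module.End K V) : Prop :=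
  (∀ x ∈ L, Z x ∈ L) ∧ (∀ x ∈ L', Z x ∈ L') ∧ ∀ x ∈ F, Z x ∈ F

lemma comm_rot {L L' F : Submodule K V} {Z T : Module.End K V} (hZ : fixes L L' F Z)
    (hT : T ∈ rot L L' F) : Z * T - T * Z ∈ rot L L' F := by
  obtain ⟨h1, h2, h3⟩ := hZ
  obtain ⟨k1, k2, k3⟩ := hT
  refine ⟨fun x hx => ?_, fun x hx => ?_, fun x hx => ?_⟩
  · exact L'.sub_mem (h2 _ (k1 x hx)) (k1 _ (h1 x hx))
  · exact F.sub_mem (h3 _ (k2 x hx)) (k2 _ (h2 x hx))
  · exact L.sub_mem (h1 _ (k3 x hx)) (k3 _ (h3 x hx))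

/-- if no nonzero element of `s` which rotates kills `l`, there is a generator -/
lemma rot_gen {s : Submodule K (Module.End K V)} {l l' : V} {F : Submodule K V}
    (hno : ∀ Z ∈ s, Z ∈ rot (K ∙ l) (K ∙ l') F → Z l = 0 → Z = 0) :
    ∃ T ∈ s, T ∈ rot (K ∙ l) (K ∙ l') F ∧
      ∀ Z ∈ s, Z ∈ rot (K ∙ l) (K ∙ l') F → ∃ κ : K, Z = κ • T := by
  by_cases h : ∃ T ∈ s, T ∈ rot (K ∙ l) (K ∙ l') F ∧ T ≠ 0
  · obtain ⟨T, hT, hTr, hT0⟩ := h
    refine ⟨T, hT, hTr, fun Z hZ hZr => ?_⟩
    obtain ⟨a, ha⟩ := Submodule.mem_span_singleton.1 (hTr.1 l (Submodule.mem_span_singleton_self l))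
    obtain ⟨b, hb⟩ := Submodule.mem_span_singleton.1 (hZr.1 l (Submodule.mem_span_singleton_self l))
    have ha0 : a ≠ 0 := by
      rintro rfl
      rw [zero_smul] at ha
      exact hT0 (hno T hT hTr ha.symm)
    refine ⟨b / a, ?_⟩
    have h1 := hno (Z - (b / a) • T) (s.sub_mem hZ (s.smul_mem _ hT))
      ((rot (K ∙ l) (K ∙ l') F).sub_mem hZr ((rot (K ∙ l) (K ∙ l') F).smul_mem _ hTr)) (by
        rw [LinearMap.sub_apply, LinearMap.smul_apply, ← ha, ← hb, smul_smul,
          div_mul_cancel₀ _ ha0, sub_self])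
    exact sub_eq_zero.1 h1
  · push Not at h
    exact ⟨0, s.zero_mem, (rot (K ∙ l) (K ∙ l') F).zero_mem, fun Z hZ hZr =>
      ⟨0, by rw [h Z hZ hZr, smul_zero]⟩⟩

namespace Setup

variable {ψ : LinearMap.BilinForm K V} {s : Submodule K (Module.End K V)}
variable {γ : V ≃ₗ[K] V} {c ζ ζ' : K} {l l' : V}
variable [CharZero K] [IsAlgClosed K]

theorem ratio_core (S : Setup ψ s) (hs : ∀ X ∈ s, cj γ X ∈ s) (P : Pair ψ γ c ζ ζ' l l')
    (hdim : 4 < Module.finrank K V) {A : Type*} [AddCommGroup A] {χ : K → A}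
    (hχ : ∀ a b, a ≠ 0 → b ≠ 0 → χ (a * b) = χ a + χ b) {e q : A} (hχζ : χ ζ = e + q)
    (hχζ' : χ ζ' = e - q)
    (hE : ∀ ν, ∀ x ∈ ge γ ν, x ≠ 0 → ν ≠ ζ → ν ≠ ζ' → χ ν = e) (hq : q + q ≠ 0)
    {X : Module.End K V} (hX : ∀ x y, ψ (X x) y = - ψ x (X y)) : X ∈ s := by
  by_contra hcon
  have hq1 : q ≠ 0 := by
    rintro rfl
    exact hq (add_zero 0)
  have hne0 : ∀ ν, ∀ x ∈ ge γ ν, x ≠ 0 → ν ≠ 0 := by
    rintro ν x hx hx0 rfl
    exact hx0 (ge_zero hx)
  have spec : ∀ ν, ∀ x ∈ ge γ ν, x ≠ 0 → (x ∈ K ∙ l ∧ χ ν = e + q) ∨ (x ∈ K ∙ l' ∧ χ ν = e - q) ∨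
      (x ∈ oth γ ζ ζ' ∧ χ ν = e) := by
    intro ν x hx hx0
    by_cases h1 : ν = ζ
    · subst h1
      obtain ⟨κ, hκ⟩ := P.line x hx
      exact Or.inl ⟨Submodule.mem_span_singleton.2 ⟨κ, hκ.symm⟩, hχζ⟩
    by_cases h2 : ν = ζ'
    · subst h2
      obtain ⟨κ, hκ⟩ := P.line' x hx
      exact Or.inr (Or.inl ⟨Submodule.mem_span_singleton.2 ⟨κ, hκ.symm⟩, hχζ'⟩)
    exact Or.inr (Or.inr ⟨mem_oth h1 h2 hx, hE ν x hx hx0 h1 h2⟩)
  have hμ0 : ∀ μ, ∀ Z ∈ (cj γ).maxGenEigenspace μ, Z ≠ 0 → μ ≠ 0 := by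
    rintro μ Z hZ hZ0 rfl
    exact hZ0 (hom_zero hZ)
  have hmul : ∀ μ, ∀ Z ∈ (cj γ).maxGenEigenspace μ, ∀ ν, ∀ x ∈ ge γ ν, Z x ≠ 0 →
      Z x ∈ ge γ (μ * ν) ∧ χ (μ * ν) = χ μ + χ ν := by
    intro μ Z hZ ν x hx hZx
    have hx0 : x ≠ 0 := by rintro rfl; exact hZx (map_zero _)
    have hZ0 : Z ≠ 0 := by rintro rfl; exact hZx rfl
    exact ⟨map_gen hZ hx, hχ _ _ (hμ0 μ Z hZ hZ0) (hne0 ν x hx hx0)⟩
  have no1 : ∀ Z ∈ s, Z l = 0 → (∀ x ∈ oth γ ζ ζ', Z x ∈ K ∙ l) → Z = 0 := by
    intro Z hZ hZl hF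
    by_contra hZ0
    apply hcon
    refine S.homog P hZ hZ0 hZl (fun ν h1 h2 x hx => ?_) hX
    obtain ⟨κ, hκ⟩ := Submodule.mem_span_singleton.1 (hF x (mem_oth h1 h2 hx))
    exact ⟨κ, hκ.symm⟩
  have no2 : ∀ Z ∈ s, Z l' = 0 → (∀ x ∈ oth γ ζ ζ', Z x ∈ K ∙ l') → Z = 0 := by
    intro Z hZ hZl hF
    by_contra hZ0
    apply hcon
    refine S.homog (P.symm S.neg) hZ hZ0 hZl (fun ν h1 h2 x hx => ?_) hX
    obtain ⟨κ, hκ⟩ := Submodule.mem_span_singleton.1 (hF x (mem_oth h2 h1 hx))
    exact ⟨κ, hκ.symm⟩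
  -- the action of homogeneous elements on the three summands
  have onL : ∀ μ, ∀ Z ∈ (cj γ).maxGenEigenspace μ, ∀ W : Submodule K V,
      (χ μ + (e + q) = e + q → (K ∙ l) ≤ W) → (χ μ + (e + q) = e - q → (K ∙ l') ≤ W) →
      (χ μ + (e + q) = e → oth γ ζ ζ' ≤ W) → Z l ∈ W := by
    intro μ Z hZ W h1 h2 h3
    by_cases h : Z l = 0
    · rw [h]; exact W.zero_mem
    obtain ⟨h4, h5⟩ := hmul μ Z hZ ζ l P.hl h
    rw [hχζ] at h5
    rcases spec _ _ h4 h with ⟨h6, h7⟩ | ⟨h6, h7⟩ | ⟨h6, h7⟩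
    · exact h1 (h5 ▸ h7) h6
    · exact h2 (h5 ▸ h7) h6
    · exact h3 (h5 ▸ h7) h6
  have onL' : ∀ μ, ∀ Z ∈ (cj γ).maxGenEigenspace μ, ∀ W : Submodule K V,
      (χ μ + (e - q) = e + q → (K ∙ l) ≤ W) → (χ μ + (e - q) = e - q → (K ∙ l') ≤ W) →
      (χ μ + (e - q) = e → oth γ ζ ζ' ≤ W) → Z l' ∈ W := by
    intro μ Z hZ W h1 h2 h3
    by_cases h : Z l' = 0
    · rw [h]; exact W.zero_mem
    obtain ⟨h4, h5⟩ := hmul μ Z hZ ζ' l' P.hl' h
    rw [hχζ'] at h5
    rcases spec _ _ h4 h with ⟨h6, h7⟩ | ⟨h6, h7⟩ | ⟨h6, h7⟩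
    · exact h1 (h5 ▸ h7) h6
    · exact h2 (h5 ▸ h7) h6
    · exact h3 (h5 ▸ h7) h6
  have onF : ∀ μ, ∀ Z ∈ (cj γ).maxGenEigenspace μ, ∀ W : Submodule K V,
      (χ μ + e = e + q → (K ∙ l) ≤ W) → (χ μ + e = e - q → (K ∙ l') ≤ W) →
      (χ μ + e = e → oth γ ζ ζ' ≤ W) → ∀ x ∈ oth γ ζ ζ', Z x ∈ W := by
    intro μ Z hZ W h1 h2 h3 x hx
    refine oth_ind (p := fun x => Z x ∈ W) (by rw [map_zero]; exact W.zero_mem)
      (fun a b ha hb => by rw [map_add]; exact W.add_mem ha hb) (fun ν hν hν' x hx => ?_) hx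
    by_cases h : Z x = 0
    · rw [h]; exact W.zero_mem
    have hx0 : x ≠ 0 := by rintro rfl; exact h (map_zero _)
    obtain ⟨h4, h5⟩ := hmul μ Z hZ ν x hx h
    rw [hE ν x hx hx0 hν hν'] at h5
    rcases spec _ _ h4 h with ⟨h6, h7⟩ | ⟨h6, h7⟩ | ⟨h6, h7⟩
    · exact h1 (h5 ▸ h7) h6
    · exact h2 (h5 ▸ h7) h6
    · exact h3 (h5 ▸ h7) h6
  have small : ∀ (B : Finset V), B.card ≤ 4 → l ∈ B →
      (∀ μ, ∀ Z ∈ s, Z ∈ (cj γ).maxGenEigenspace μ → ∀ b ∈ B, Z b ∈ Submodule.span K (B : Set V)) →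
      False := by
    intro B hB hlB hst
    have h1 : ∀ Z ∈ s, ∀ x ∈ Submodule.span K (B : Set V), Z x ∈ Submodule.span K (B : Set V) := by
      intro Z hZ
      refine hom_induction hs (p := fun Z => ∀ x ∈ Submodule.span K (B : Set V),
        Z x ∈ Submodule.span K (B : Set V)) ?_ ?_ ?_ hZ
      · intro x _
        rw [LinearMap.zero_apply]; exact Submodule.zero_mem _
      · intro Y₁ Y₂ h1 h2 x hx
        rw [LinearMap.add_apply]; exact Submodule.add_mem _ (h1 x hx) (h2 x hx)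
      · intro μ Z hZ hZμ x hx
        refine Submodule.span_induction (p := fun x _ => Z x ∈ Submodule.span K (B : Set V))
          ?_ ?_ ?_ ?_ hx
        · intro b hb
          exact hst μ Z hZ hZμ b hb
        · rw [map_zero]; exact Submodule.zero_mem _
        · intro a b _ _ ha hb
          rw [map_add]; exact Submodule.add_mem _ ha hb
        · intro t a _ ha
          rw [map_smul]; exact Submodule.smul_mem _ _ ha
    rcases S.irred.2 _ h1 with h2 | h2
    · have h3 : l ∈ Submodule.span K (B : Set V) := Submodule.subset_span hlB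
      rw [h2] at h3
      exact P.l_ne ((Submodule.mem_bot K).1 h3)
    · have h3 : Module.finrank K (Submodule.span K (B : Set V)) ≤ B.card :=
        finrank_span_finset_le_card (R := K) B
      rw [h2, finrank_top] at h3
      omega
  classical
  by_cases h3 : q + q + q = 0
  swap
  · -- order at least four
    have n1 : ∀ μ, ∀ Z ∈ s, Z ∈ (cj γ).maxGenEigenspace μ → Z ≠ 0 → χ μ ≠ q := by
      intro μ Z hZ hZμ hZ0 hμ
      apply hZ0
      refine no1 Z hZ ?_ ?_
      · refine (Submodule.mem_bot K).1 (onL μ Z hZμ ⊥ ?_ ?_ ?_)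
        · intro h; rw [hμ] at h
          exact absurd (by linear_combination (norm := module) h) hq1
        · intro h; rw [hμ] at h
          exact absurd (by linear_combination (norm := module) h) h3
        · intro h; rw [hμ] at h
          exact absurd (by linear_combination (norm := module) h) hq
      · refine onF μ Z hZμ (K ∙ l) (fun _ => le_rfl) ?_ ?_
        · intro h; rw [hμ] at h
          exact absurd (by linear_combination (norm := module) h) hq
        · intro h; rw [hμ] at h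
          exact absurd (by linear_combination (norm := module) h) hq1
    have n2 : ∀ μ, ∀ Z ∈ s, Z ∈ (cj γ).maxGenEigenspace μ → Z ≠ 0 → χ μ ≠ -q := by
      intro μ Z hZ hZμ hZ0 hμ
      apply hZ0
      refine no2 Z hZ ?_ ?_
      · refine (Submodule.mem_bot K).1 (onL' μ Z hZμ ⊥ ?_ ?_ ?_)
        · intro h; rw [hμ] at h
          exact absurd (by linear_combination (norm := module) -h) h3
        · intro h; rw [hμ] at h
          exact absurd (by linear_combination (norm := module) -h) hq1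
        · intro h; rw [hμ] at h
          exact absurd (by linear_combination (norm := module) -h) hq
      · refine onF μ Z hZμ (K ∙ l') ?_ (fun _ => le_rfl) ?_
        · intro h; rw [hμ] at h
          exact absurd (by linear_combination (norm := module) -h) hq
        · intro h; rw [hμ] at h
          exact absurd (by linear_combination (norm := module) -h) hq1
    refine small {l, l'} (Finset.card_le_two.trans (by norm_num)) (by simp) ?_
    intro μ Z hZ hZμ b hb
    have hL : (K ∙ l) ≤ Submodule.span K (({l, l'} : Finset V) : Set V) :=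
      Submodule.span_mono (by simp)
    have hL' : (K ∙ l') ≤ Submodule.span K (({l, l'} : Finset V) : Set V) :=
      Submodule.span_mono (by simp)
    by_cases hZ0 : Z = 0
    · rw [hZ0, LinearMap.zero_apply]; exact Submodule.zero_mem _
    have m1 := n1 μ Z hZ hZμ hZ0
    have m2 := n2 μ Z hZ hZμ hZ0
    rw [Finset.mem_insert, Finset.mem_singleton] at hb
    rcases hb with rfl | rfl
    · refine onL μ Z hZμ _ (fun _ => hL) (fun _ => hL') (fun h => ?_)
      exact absurd (by linear_combination (norm := module) h) m2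
    · refine onL' μ Z hZμ _ (fun _ => hL) (fun _ => hL') (fun h => ?_)
      exact absurd (by linear_combination (norm := module) h) m1
  · -- order three
    set F := oth γ ζ ζ' with hF
    -- trichotomy
    have tri : ∀ μ, ∀ Z ∈ s, Z ∈ (cj γ).maxGenEigenspace μ →
        fixes (K ∙ l) (K ∙ l') F Z ∨ Z ∈ rot (K ∙ l) (K ∙ l') F ∨ Z ∈ rot (K ∙ l') (K ∙ l) F := by
      intro μ Z hZ hZμ
      have ext1 : ∀ (a : V) (W : Submodule K V), Z a ∈ W → ∀ x ∈ K ∙ a, Z x ∈ W := by
        intro a W ha x hx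
        obtain ⟨t, rfl⟩ := Submodule.mem_span_singleton.1 hx
        rw [map_smul]; exact W.smul_mem _ ha
      by_cases m0 : χ μ = 0
      · left
        refine ⟨ext1 l _ (onL μ Z hZμ _ (fun _ => le_rfl) ?_ ?_),
          ext1 l' _ (onL' μ Z hZμ _ ?_ (fun _ => le_rfl) ?_),
          onF μ Z hZμ _ ?_ ?_ (fun _ => le_rfl)⟩
        · intro h; rw [m0] at h
          exact absurd (by linear_combination (norm := module) h) hq
        · intro h; rw [m0] at h
          exact absurd (by linear_combination (norm := module) h) hq1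
        · intro h; rw [m0] at h
          exact absurd (by linear_combination (norm := module) -h) hq
        · intro h; rw [m0] at h
          exact absurd (by linear_combination (norm := module) -h) hq1
        · intro h; rw [m0] at h
          exact absurd (by linear_combination (norm := module) -h) hq1
        · intro h; rw [m0] at h
          exact absurd (by linear_combination (norm := module) h) hq1
      by_cases m1 : χ μ = q
      · right; left
        refine ⟨ext1 l _ (onL μ Z hZμ _ ?_ (fun _ => le_rfl) ?_),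
          ext1 l' _ (onL' μ Z hZμ _ ?_ ?_ (fun _ => le_rfl)),
          onF μ Z hZμ _ (fun _ => le_rfl) ?_ ?_⟩
        · intro h; rw [m1] at h
          exact absurd (by linear_combination (norm := module) h) hq1
        · intro h; rw [m1] at h
          exact absurd (by linear_combination (norm := module) h) hq
        · intro h; rw [m1] at h
          exact absurd (by linear_combination (norm := module) -h) hq1
        · intro h; rw [m1] at h
          exact absurd (by linear_combination (norm := module) h) hq1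
        · intro h; rw [m1] at h
          exact absurd (by linear_combination (norm := module) h) hq
        · intro h; rw [m1] at h
          exact absurd (by linear_combination (norm := module) h) hq1
      by_cases m2 : χ μ = -q
      · right; right
        refine ⟨ext1 l' _ (onL' μ Z hZμ _ (fun _ => le_rfl) ?_ ?_),
          ext1 l _ (onL μ Z hZμ _ ?_ ?_ (fun _ => le_rfl)),
          onF μ Z hZμ _ ?_ (fun _ => le_rfl) ?_⟩
        · intro h; rw [m2] at h
          exact absurd (by linear_combination (norm := module) -h) hq1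
        · intro h; rw [m2] at h
          exact absurd (by linear_combination (norm := module) -h) hq
        · intro h; rw [m2] at h
          exact absurd (by linear_combination (norm := module) -h) hq1
        · intro h; rw [m2] at h
          exact absurd (by linear_combination (norm := module) h) hq1
        · intro h; rw [m2] at h
          exact absurd (by linear_combination (norm := module) -h) hq
        · intro h; rw [m2] at h
          exact absurd (by linear_combination (norm := module) -h) hq1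
      · -- then `Z = 0`
        left
        have z1 : Z l = 0 := by
          refine (Submodule.mem_bot K).1 (onL μ Z hZμ ⊥ ?_ ?_ ?_)
          · intro h
            exact absurd (by linear_combination (norm := module) h) m0
          · intro h
            exact absurd (by linear_combination (norm := module) h - h3) m1
          · intro h
            exact absurd (by linear_combination (norm := module) h) m2
        have z2 : Z l' = 0 := by
          refine (Submodule.mem_bot K).1 (onL' μ Z hZμ ⊥ ?_ ?_ ?_)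
          · intro h
            exact absurd (by linear_combination (norm := module) h + h3) m2
          · intro h
            exact absurd (by linear_combination (norm := module) h) m0
          · intro h
            exact absurd (by linear_combination (norm := module) h) m1
        have z3 : ∀ x ∈ F, Z x = 0 := by
          intro x hx
          refine (Submodule.mem_bot K).1 (onF μ Z hZμ ⊥ ?_ ?_ ?_ x hx)
          · intro h
            exact absurd (by linear_combination (norm := module) h) m1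
          · intro h
            exact absurd (by linear_combination (norm := module) h) m2
          · intro h
            exact absurd (by linear_combination (norm := module) h) m0
        refine ⟨ext1 l _ (by rw [z1]; exact Submodule.zero_mem _),
          ext1 l' _ (by rw [z2]; exact Submodule.zero_mem _), fun x hx => ?_⟩
        rw [z3 x hx]; exact Submodule.zero_mem _
    obtain ⟨T₁, hT₁, hT₁r, hT₁g⟩ := rot_gen (s := s) (l := l) (l' := l') (F := F)
      (fun Z hZ hZr hZl => no1 Z hZ hZl hZr.2.2)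
    obtain ⟨T₂, hT₂, hT₂r, hT₂g⟩ := rot_gen (s := s) (l := l') (l' := l) (F := F)
      (fun Z hZ hZr hZl => no2 Z hZ hZl hZr.2.2)
    have sl : l ∈ K ∙ l := Submodule.mem_span_singleton_self l
    have sl' : l' ∈ K ∙ l' := Submodule.mem_span_singleton_self l'
    refine small {l, l', T₁ l', T₂ l} Finset.card_le_four (by simp) ?_
    set B : Finset V := {l, l', T₁ l', T₂ l} with hB
    have hL : (K ∙ l) ≤ Submodule.span K (B : Set V) :=
      Submodule.span_mono (by simp [hB])
    have hL' : (K ∙ l') ≤ Submodule.span K (B : Set V) :=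
      Submodule.span_mono (by simp [hB])
    have hw : T₁ l' ∈ Submodule.span K (B : Set V) :=
      Submodule.subset_span (by simp [hB])
    have hw' : T₂ l ∈ Submodule.span K (B : Set V) :=
      Submodule.subset_span (by simp [hB])
    intro μ Z hZ hZμ b hb
    have hb' : b = l ∨ b = l' ∨ b = T₁ l' ∨ b = T₂ l := by simpa [hB] using hb
    rcases tri μ Z hZ hZμ with h | h | h
    · rcases hb' with rfl | rfl | rfl | rfl
      · exact hL (h.1 _ sl)
      · exact hL' (h.2.1 _ sl')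
      · obtain ⟨κ, hκ⟩ := hT₁g _ (S.closed _ hZ _ hT₁) (comm_rot h hT₁r)
        obtain ⟨t, ht⟩ := Submodule.mem_span_singleton.1 (h.2.1 _ sl')
        have e1 : Z (T₁ l') = κ • T₁ l' + t • T₁ l' := by
          have e2 := congrArg (fun f => f l') hκ
          simp only [LinearMap.sub_apply, Module.End.mul_apply, LinearMap.smul_apply] at e2
          rw [← ht, map_smul] at e2
          rw [← e2]; abel
        rw [e1]
        exact Submodule.add_mem _ (Submodule.smul_mem _ _ hw) (Submodule.smul_mem _ _ hw)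
      · have h' : fixes (K ∙ l') (K ∙ l) F Z := ⟨h.2.1, h.1, h.2.2⟩
        obtain ⟨κ, hκ⟩ := hT₂g _ (S.closed _ hZ _ hT₂) (comm_rot h' hT₂r)
        obtain ⟨t, ht⟩ := Submodule.mem_span_singleton.1 (h.1 _ sl)
        have e1 : Z (T₂ l) = κ • T₂ l + t • T₂ l := by
          have e2 := congrArg (fun f => f l) hκ
          simp only [LinearMap.sub_apply, Module.End.mul_apply, LinearMap.smul_apply] at e2
          rw [← ht, map_smul] at e2
          rw [← e2]; abel
        rw [e1]
        exact Submodule.add_mem _ (Submodule.smul_mem _ _ hw') (Submodule.smul_mem _ _ hw')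
    · obtain ⟨κ, rfl⟩ := hT₁g Z hZ h
      rcases hb' with rfl | rfl | rfl | rfl
      · exact hL' (h.1 _ sl)
      · exact Submodule.smul_mem _ _ hw
      · exact hL (h.2.2 _ (hT₁r.2.1 _ sl'))
      · exact hL (h.2.2 _ (hT₂r.2.1 _ sl))
    · obtain ⟨κ, rfl⟩ := hT₂g Z hZ h
      rcases hb' with rfl | rfl | rfl | rfl
      · exact Submodule.smul_mem _ _ hw'
      · exact hL (h.1 _ sl')
      · exact hL' (h.2.2 _ (hT₁r.2.1 _ sl'))
      · exact hL' (h.2.2 _ (hT₂r.2.1 _ sl))

/-- **One simple eigenvalue whose ratio with its dual is independent of the others.** -/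
theorem ratio (S : Setup ψ s) (hs : ∀ X ∈ s, cj γ X ∈ s) (P : Pair ψ γ c ζ ζ' l l')
    (hdim : 4 < Module.finrank K V) {A : Type*} [AddCommGroup A] {χ : K → A}
    (hχ : ∀ a b, a ≠ 0 → b ≠ 0 → χ (a * b) = χ a + χ b)
    (hE : ∀ ν, ∀ x ∈ ge γ ν, x ≠ 0 → ν ≠ ζ → ν ≠ ζ' →
      ∀ ν', ∀ x' ∈ ge γ ν', x' ≠ 0 → ν' ≠ ζ → ν' ≠ ζ' → χ ν = χ ν')
    (hq : χ ζ ≠ χ ζ')
    {X : Module.End K V} (hX : ∀ x y, ψ (X x) y = - ψ x (X y)) : X ∈ s := by
  classical
  -- there is another eigenvalue
  obtain ⟨ν₀, x₀, hx₀, hx₀0, hn, hn'⟩ : ∃ ν₀, ∃ x₀ ∈ ge γ ν₀, x₀ ≠ 0 ∧ ν₀ ≠ ζ ∧ ν₀ ≠ ζ' := by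
    by_contra hcon
    push Not at hcon
    have h1 : ∀ x : V, x ∈ Submodule.span K (({l, l'} : Finset V) : Set V) := by
      intro x
      refine vec_induction (γ := γ)
        (p := fun x => x ∈ Submodule.span K (({l, l'} : Finset V) : Set V))
        (Submodule.zero_mem _) (fun a b ha hb => Submodule.add_mem _ ha hb) (fun ν x hx => ?_) x
      by_cases hx0 : x = 0
      · rw [hx0]; exact Submodule.zero_mem _
      by_cases h2 : ν = ζ
      · subst h2
        obtain ⟨κ, rfl⟩ := P.line x hx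
        exact Submodule.smul_mem _ _ (Submodule.subset_span (by simp))
      · have h3 := hcon ν x hx hx0 h2
        subst h3
        obtain ⟨κ, rfl⟩ := P.line' x hx
        exact Submodule.smul_mem _ _ (Submodule.subset_span (by simp))
    have h2 : Module.finrank K (Submodule.span K (({l, l'} : Finset V) : Set V)) ≤
        Finset.card {l, l'} := finrank_span_finset_le_card (R := K) {l, l'}
    have h4 : Submodule.span K (({l, l'} : Finset V) : Set V) = ⊤ :=
      eq_top_iff.2 (fun x _ => h1 x)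
    rw [h4, finrank_top] at h2
    have h3 : Finset.card {l, l'} ≤ 2 := Finset.card_le_two
    omega
  -- and its dual
  obtain ⟨ν₁, x₁, hx₁, hx₁0, hn1⟩ : ∃ ν₁, ∃ x₁ ∈ ge γ ν₁, x₁ ≠ 0 ∧ ν₀ * ν₁ = c := by
    obtain ⟨y, hy⟩ := S.exists_ne hx₀0
    by_contra hcon
    push Not at hcon
    apply hy
    refine vec_induction (γ := γ) (p := fun y => ψ x₀ y = 0) (by simp)
      (fun a b ha hb => by rw [map_add, ha, hb, add_zero]) (fun ν y hy => ?_) y
    by_cases hy0 : y = 0
    · rw [hy0, map_zero]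
    · exact orth_gen P.sim (hcon ν y hy hy0) hx₀ hy
  have h0 : ν₀ ≠ 0 := by
    rintro rfl
    exact hx₀0 (ge_zero hx₀)
  have h1 : ν₁ ≠ 0 := by
    rintro rfl
    exact hx₁0 (ge_zero hx₁)
  have hn1ζ : ν₁ ≠ ζ := by
    rintro rfl
    exact hn' (mul_right_cancel₀ h1 (by rw [hn1, mul_comm, P.mul]))
  have hn1ζ' : ν₁ ≠ ζ' := by
    rintro rfl
    exact hn (mul_right_cancel₀ h1 (by rw [hn1, P.mul]))
  have e1 : χ ν₀ = χ ν₁ := hE ν₀ x₀ hx₀ hx₀0 hn hn' ν₁ x₁ hx₁ hx₁0 hn1ζ hn1ζ'
  have e2 : χ ζ + χ ζ' = χ ν₀ + χ ν₀ := by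
    have h2 := hχ ν₀ ν₁ h0 h1
    have h3 := hχ ζ ζ' P.hζ P.hζ'
    rw [P.mul, ← hn1, h2, ← e1] at h3
    exact h3.symm
  refine S.ratio_core hs P hdim hχ (e := χ ν₀) (q := χ ζ - χ ν₀) (by abel)
    (by linear_combination (norm := module) e2)
    (fun ν x hx hx0 k1 k2 => hE ν x hx hx0 k1 k2 ν₀ x₀ hx₀ hx₀0 hn hn') (fun h => hq ?_) hX
  linear_combination (norm := module) h - e2

end Setup

end Pool.Agent.Helper66.OTR
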