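import Pool.Agent.Helper66.OTR.Ratio

/-!
# Symplectic Lie algebras normalized by a similitude with an independent simple eigenvalue
-/

namespace Pool.Agent.Helper66.OTR

open LinearMap Module.End

set_option linter.unusedSectionVars false

variable {K V : Type*} [Field K] [AddCommGroup V] [Module K V] [FiniteDimensional K V]

namespace Setup

variable {ψ : LinearMap.BilinForm K V} {s : Submodule K (Module.End K V)}
variable {γ : V ≃ₗ[K] V} {c ζ ζ' : K} {l l' : V}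
variable [CharZero K] [IsAlgClosed K]

lemma exists_dual (S : Setup ψ s) (sim : ∀ x y, ψ (γ x) (γ y) = c * ψ x y)
    {ν : K} {x : V} (hx : x ∈ ge γ ν) (hx0 : x ≠ 0) :
    ∃ ν', ∃ y ∈ ge γ ν', y ≠ 0 ∧ ν * ν' = c := by
  obtain ⟨y, hy⟩ := S.exists_ne hx0
  by_contra hcon
  push Not at hcon
  apply hy
  refine vec_induction (γ := γ) (p := fun y => ψ x y = 0) (by simp)
    (fun a b ha hb => by rw [map_add, ha, hb, add_zero]) (fun ν y hy => ?_) y
  by_cases hy0 : y = 0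
  · rw [hy0, map_zero]
  · exact orth_gen sim (hcon ν y hy hy0) hx hy

/-- **The main theorem for symplectic Lie algebras.** -/
theorem sp_simple (S : Setup ψ s) (hs : ∀ X ∈ s, cj γ X ∈ s) (P : Pair ψ γ c ζ ζ' l l')
    (hdim : 4 < Module.finrank K V)
    (h3 : ∀ ν, ∀ x ∈ ge γ ν, x ≠ 0 → ν ≠ ζ → ν ≠ ζ' → ∀ ν', ∀ x' ∈ ge γ ν', x' ≠ 0 → ν' ≠ ζ →
      ν' ≠ ζ' → ζ * ζ ≠ ν * ν')
    (h4 : ∀ ν, ∀ x ∈ ge γ ν, x ≠ 0 → ν ≠ ζ → ν ≠ ζ' → ∀ ν', ∀ x' ∈ ge γ ν', x' ≠ 0 → ν' ≠ ζ →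
      ν' ≠ ζ' → ∀ ν'', ∀ x'' ∈ ge γ ν'', x'' ≠ 0 → ν'' ≠ ζ → ν'' ≠ ζ' → ζ * ν'' ≠ ν * ν')
    {X : Module.End K V} (hX : ∀ x y, ψ (X x) y = - ψ x (X y)) : X ∈ s := by
  by_contra hcon
  have hne0 : ∀ ν, ∀ x ∈ ge γ ν, x ≠ 0 → ν ≠ 0 := by
    rintro ν x hx hx0 rfl
    exact hx0 (ge_zero hx)
  have no1 : ∀ Z ∈ s, Z l = 0 → (∀ x ∈ oth γ ζ ζ', Z x ∈ K ∙ l) → Z = 0 := by
    intro Z hZ hZl hF
    by_contra hZ0
    apply hcon
    refine S.homog P hZ hZ0 hZl (fun ν h1 h2 x hx => ?_) hX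
    obtain ⟨κ, hκ⟩ := Submodule.mem_span_singleton.1 (hF x (mem_oth h1 h2 hx))
    exact ⟨κ, hκ.symm⟩
  have no2 : ∀ Z ∈ s, Z l' = 0 → (∀ x ∈ oth γ ζ ζ', Z x ∈ K ∙ l') → Z = 0 := by
    intro Z hZ hZl hF
    by_contra hZ0
    apply hcon
    refine S.homog (P.symm S.neg) hZ hZ0 hZl (fun ν h1 h2 x hx => ?_) hX
    obtain ⟨κ, hκ⟩ := Submodule.mem_span_singleton.1 (hF x (mem_oth h2 h1 hx))
    exact ⟨κ, hκ.symm⟩
  have small : ∀ (B : Finset V), B.card ≤ 4 → l ∈ B →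
      (∀ μ, ∀ Z ∈ s, Z ∈ (cj γ).maxGenEigenspace μ → ∀ b ∈ B, Z b ∈ Submodule.span K (B : Set V)) →
      False := by
    intro B hB hlB hst
    have h1 : ∀ Z ∈ s, ∀ x ∈ Submodule.span K (B : Set V), Z x ∈ Submodule.span K (B : Set V) := by
      intro Z hZ
      refine hom_induction hs (p := fun Z => ∀ x ∈ Submodule.span K (B : Set V),
        Z x ∈ Submodule.span K (B : Set V)) ?_ ?_ ?_ hZ
      · intro x _
        rw [LinearMap.zero_apply]; exact Submodule.zero_mem _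
      · intro Y₁ Y₂ h1 h2 x hx
        rw [LinearMap.add_apply]; exact Submodule.add_mem _ (h1 x hx) (h2 x hx)
      · intro μ Z hZ hZμ x hx
        refine Submodule.span_induction (p := fun x _ => Z x ∈ Submodule.span K (B : Set V))
          ?_ ?_ ?_ ?_ hx
        · intro b hb
          exact hst μ Z hZ hZμ b hb
        · rw [map_zero]; exact Submodule.zero_mem _
        · intro a b _ _ ha hb
          rw [map_add]; exact Submodule.add_mem _ ha hb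
        · intro t a _ ha
          rw [map_smul]; exact Submodule.smul_mem _ _ ha
    rcases S.irred.2 _ h1 with h2 | h2
    · have h3 : l ∈ Submodule.span K (B : Set V) := Submodule.subset_span hlB
      rw [h2] at h3
      exact P.l_ne ((Submodule.mem_bot K).1 h3)
    · have h3 : Module.finrank K (Submodule.span K (B : Set V)) ≤ B.card :=
        finrank_span_finset_le_card (R := K) B
      rw [h2, finrank_top] at h3
      omega
  -- dual eigenvalues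
  have dual : ∀ ν, ∀ x ∈ ge γ ν, x ≠ 0 → ν ≠ ζ → ν ≠ ζ' →
      ∃ ν', ∃ y ∈ ge γ ν', y ≠ 0 ∧ ν' ≠ ζ ∧ ν' ≠ ζ' ∧ ν * ν' = c := by
    intro ν x hx hx0 h h'
    obtain ⟨ν', y, hy, hy0, hνν⟩ := S.exists_dual P.sim hx hx0
    have hy1 := hne0 ν' y hy hy0
    refine ⟨ν', y, hy, hy0, ?_, ?_, hνν⟩
    · rintro rfl
      exact h' (mul_right_cancel₀ hy1 (by rw [hνν, mul_comm, P.mul]))
    · rintro rfl
      exact h (mul_right_cancel₀ hy1 (by rw [hνν, P.mul]))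
  -- type one
  have typeA : ∀ μ, ∀ Z ∈ s, Z ∈ (cj γ).maxGenEigenspace μ →
      (∃ ν, ∃ x ∈ ge γ ν, x ≠ 0 ∧ ν ≠ ζ ∧ ν ≠ ζ' ∧ μ * ν = ζ) →
      Z ∈ rot (K ∙ l) (K ∙ l') (oth γ ζ ζ') ∧ (Z ≠ 0 → μ * ζ = ζ') := by
    rintro μ Z hZ hZμ ⟨ν, x, hx, hx0, hν, hν', hμν⟩
    have hm : ∀ ν, ∀ x ∈ ge γ ν, Z x ∈ ge γ (μ * ν) := fun ν x hx => map_gen hZμ hx
    obtain ⟨ν₁, y, hy, hy0, hν1, hν1', hνν1⟩ := dual ν x hx hx0 hν hν'
    have r1 : Z l ∈ K ∙ l' ∧ (Z l ≠ 0 → μ * ζ = ζ') := by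
      have h5 := hm ζ l P.hl
      by_cases h6 : Z l = 0
      · rw [h6]; exact ⟨Submodule.zero_mem _, fun h => absurd rfl h⟩
      by_cases h7 : μ * ζ = ζ'
      · rw [h7] at h5
        obtain ⟨κ, hκ⟩ := P.line' _ h5
        exact ⟨Submodule.mem_span_singleton.2 ⟨κ, hκ.symm⟩, fun _ => h7⟩
      by_cases h8 : μ * ζ = ζ
      · have : μ = 1 := mul_right_cancel₀ P.hζ (by rw [h8, one_mul])
        rw [this, one_mul] at hμν
        exact absurd hμν hν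
      · refine absurd ?_ (h3 ν x hx hx0 hν hν' (μ * ζ) (Z l) h5 h6 h8 h7)
        rw [← mul_assoc, mul_comm ν μ, hμν]
    have r3 : ∀ f ∈ oth γ ζ ζ', Z f ∈ K ∙ l := by
      intro f hf
      refine oth_ind (p := fun f => Z f ∈ K ∙ l) (by rw [map_zero]; exact Submodule.zero_mem _)
        (fun u w hu hw => by rw [map_add]; exact Submodule.add_mem _ hu hw)
        (fun ν₂ k2 k2' u hu => ?_) hf
      have h5 := hm ν₂ u hu
      by_cases h6 : Z u = 0
      · rw [h6]; exact Submodule.zero_mem _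
      have hu0 : u ≠ 0 := by rintro rfl; exact h6 (map_zero _)
      by_cases h7 : μ * ν₂ = ζ
      · rw [h7] at h5
        obtain ⟨κ, hκ⟩ := P.line _ h5
        rw [hκ]
        exact Submodule.smul_mem _ _ (Submodule.mem_span_singleton_self l)
      exfalso
      by_cases h8 : μ * ν₂ = ζ'
      · obtain ⟨ν₃, y₃, hy₃, hy₃0, k3, k3', hν23⟩ := dual ν₂ u hu hu0 k2 k2'
        refine h3 ν x hx hx0 hν hν' ν₃ y₃ hy₃ hy₃0 k3 k3' ?_
        have hν2 := hne0 ν₂ u hu hu0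
        have e1 : μ * ν₂ * ζ = ν₂ * ν₃ := by rw [h8, mul_comm ζ' ζ, P.mul, hν23]
        have e2 : μ * ζ = ν₃ := mul_left_cancel₀ hν2 (by rw [← e1]; ring)
        rw [← e2, ← hμν]; ring
      · refine h4 ν x hx hx0 hν hν' (μ * ν₂) (Z u) h5 h6 h7 h8 ν₂ u hu hu0 k2 k2' ?_
        rw [← hμν]; ring
    have r2 : Z l' ∈ oth γ ζ ζ' := by
      have h5 := hm ζ' l' P.hl'
      -- `μ ζ' = ν₁`
      have e1 : μ * ζ' = ν₁ := by
        have hν0 := hne0 ν x hx hx0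
        apply mul_left_cancel₀ hν0
        rw [hνν1, ← P.mul, ← hμν]; ring
      rw [e1] at h5
      exact mem_oth hν1 hν1' h5
    refine ⟨⟨?_, ?_, r3⟩, fun hZ0 => r1.2 (fun h => hZ0 (no1 Z hZ h r3))⟩
    · intro x hx
      obtain ⟨t, rfl⟩ := Submodule.mem_span_singleton.1 hx
      rw [map_smul]; exact Submodule.smul_mem _ _ r1.1
    · intro x hx
      obtain ⟨t, rfl⟩ := Submodule.mem_span_singleton.1 hx
      rw [map_smul]; exact Submodule.smul_mem _ _ r2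
  -- type minus one
  have typeB : ∀ μ, ∀ Z ∈ s, Z ∈ (cj γ).maxGenEigenspace μ →
      (∃ ν, ∃ x ∈ ge γ ν, x ≠ 0 ∧ ν ≠ ζ ∧ ν ≠ ζ' ∧ μ * ζ = ν) →
      Z ∈ rot (K ∙ l') (K ∙ l) (oth γ ζ ζ') ∧ (Z ≠ 0 → μ * ζ' = ζ) := by
    rintro μ Z hZ hZμ ⟨ν, x, hx, hx0, hν, hν', hμν⟩
    have hm : ∀ ν, ∀ x ∈ ge γ ν, Z x ∈ ge γ (μ * ν) := fun ν x hx => map_gen hZμ hx
    have r1 : Z l' ∈ K ∙ l ∧ (Z l' ≠ 0 → μ * ζ' = ζ) := by
      have h5 := hm ζ' l' P.hl'
      by_cases h6 : Z l' = 0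
      · rw [h6]; exact ⟨Submodule.zero_mem _, fun h => absurd rfl h⟩
      by_cases h7 : μ * ζ' = ζ
      · rw [h7] at h5
        obtain ⟨κ, hκ⟩ := P.line _ h5
        exact ⟨Submodule.mem_span_singleton.2 ⟨κ, hκ.symm⟩, fun _ => h7⟩
      by_cases h8 : μ * ζ' = ζ'
      · have : μ = 1 := mul_right_cancel₀ P.hζ' (by rw [h8, one_mul])
        rw [this, one_mul] at hμν
        exact absurd hμν.symm hν
      · obtain ⟨ν₃, y₃, hy₃, hy₃0, k3, k3', hν23⟩ := dual (μ * ζ') (Z l') h5 h6 h7 h8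
        refine absurd ?_ (h3 ν x hx hx0 hν hν' ν₃ y₃ hy₃ hy₃0 k3 k3')
        have e1 : μ * ζ' * ν₃ = ζ * ζ' := by rw [hν23, P.mul]
        have e2 : μ * ν₃ = ζ := mul_right_cancel₀ P.hζ' (by rw [← e1]; ring)
        rw [← hμν]
        calc ζ * ζ = ζ * (μ * ν₃) := by rw [e2]
          _ = μ * ζ * ν₃ := by ring
    have r3 : ∀ f ∈ oth γ ζ ζ', Z f ∈ K ∙ l' := by
      intro f hf
      refine oth_ind (p := fun f => Z f ∈ K ∙ l') (by rw [map_zero]; exact Submodule.zero_mem _)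
        (fun u w hu hw => by rw [map_add]; exact Submodule.add_mem _ hu hw)
        (fun ν₂ k2 k2' u hu => ?_) hf
      have h5 := hm ν₂ u hu
      by_cases h6 : Z u = 0
      · rw [h6]; exact Submodule.zero_mem _
      have hu0 : u ≠ 0 := by rintro rfl; exact h6 (map_zero _)
      by_cases h7 : μ * ν₂ = ζ'
      · rw [h7] at h5
        obtain ⟨κ, hκ⟩ := P.line' _ h5
        rw [hκ]
        exact Submodule.smul_mem _ _ (Submodule.mem_span_singleton_self l')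
      exfalso
      by_cases h8 : μ * ν₂ = ζ
      · -- `ζ ζ = ν ν₂`
        refine h3 ν x hx hx0 hν hν' ν₂ u hu hu0 k2 k2' ?_
        calc ζ * ζ = ζ * (μ * ν₂) := by rw [h8]
          _ = μ * ζ * ν₂ := by ring
          _ = ν * ν₂ := by rw [hμν]
      · refine h4 ν x hx hx0 hν hν' ν₂ u hu hu0 k2 k2' (μ * ν₂) (Z u) h5 h6 h8 h7 ?_
        rw [← hμν]; ring
    have r2 : Z l ∈ oth γ ζ ζ' := by
      have h5 := hm ζ l P.hl
      rw [hμν] at h5
      exact mem_oth hν hν' h5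
    refine ⟨⟨?_, ?_, r3⟩, fun hZ0 => r1.2 (fun h => hZ0 (no2 Z hZ h r3))⟩
    · intro x hx
      obtain ⟨t, rfl⟩ := Submodule.mem_span_singleton.1 hx
      rw [map_smul]; exact Submodule.smul_mem _ _ r1.1
    · intro x hx
      obtain ⟨t, rfl⟩ := Submodule.mem_span_singleton.1 hx
      rw [map_smul]; exact Submodule.smul_mem _ _ r2
  classical
  by_cases hex : ∃ ν, ∃ x ∈ ge γ ν, x ≠ 0 ∧ ν ≠ ζ ∧ ν ≠ ζ' ∧ ζ * ζ = ζ' * ν
  swap
  · -- there are no elements of type one or minus one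
    have hA : ∀ μ, ∀ Z ∈ s, Z ∈ (cj γ).maxGenEigenspace μ → Z ≠ 0 →
        ¬ ∃ ν, ∃ x ∈ ge γ ν, x ≠ 0 ∧ ν ≠ ζ ∧ ν ≠ ζ' ∧ μ * ν = ζ := by
      intro μ Z hZ hZμ hZ0 h
      have h5 := (typeA μ Z hZ hZμ h).2 hZ0
      obtain ⟨ν, x, hx, hx0, hν, hν', hμν⟩ := h
      refine hex ⟨ν, x, hx, hx0, hν, hν', ?_⟩
      rw [← h5]
      calc ζ * ζ = ζ * (μ * ν) := by rw [hμν]
        _ = μ * ζ * ν := by ring
    have hB : ∀ μ, ∀ Z ∈ s, Z ∈ (cj γ).maxGenEigenspace μ → Z ≠ 0 →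
        ¬ ∃ ν, ∃ x ∈ ge γ ν, x ≠ 0 ∧ ν ≠ ζ ∧ ν ≠ ζ' ∧ μ * ζ = ν := by
      intro μ Z hZ hZμ hZ0 h
      have h5 := (typeB μ Z hZ hZμ h).2 hZ0
      obtain ⟨ν, x, hx, hx0, hν, hν', hμν⟩ := h
      refine hex ⟨ν, x, hx, hx0, hν, hν', ?_⟩
      rw [← hμν]
      calc ζ * ζ = (μ * ζ') * ζ := by rw [h5]
        _ = ζ' * (μ * ζ) := by ring
    refine small {l, l'} (Finset.card_le_two.trans (by norm_num)) (by simp) ?_
    intro μ Z hZ hZμ b hb
    have hL : (K ∙ l) ≤ Submodule.span K (({l, l'} : Finset V) : Set V) :=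
      Submodule.span_mono (by simp)
    have hL' : (K ∙ l') ≤ Submodule.span K (({l, l'} : Finset V) : Set V) :=
      Submodule.span_mono (by simp)
    by_cases hZ0 : Z = 0
    · rw [hZ0, LinearMap.zero_apply]; exact Submodule.zero_mem _
    have hm : ∀ ν, ∀ x ∈ ge γ ν, Z x ∈ ge γ (μ * ν) := fun ν x hx => map_gen hZμ hx
    rw [Finset.mem_insert, Finset.mem_singleton] at hb
    rcases hb with rfl | rfl
    · by_cases h6 : Z b = 0
      · rw [h6]; exact Submodule.zero_mem _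
      have h5 := hm ζ b P.hl
      by_cases h7 : μ * ζ = ζ
      · rw [h7] at h5
        obtain ⟨κ, hκ⟩ := P.line _ h5
        exact hL (Submodule.mem_span_singleton.2 ⟨κ, hκ.symm⟩)
      by_cases h8 : μ * ζ = ζ'
      · rw [h8] at h5
        obtain ⟨κ, hκ⟩ := P.line' _ h5
        exact hL' (Submodule.mem_span_singleton.2 ⟨κ, hκ.symm⟩)
      · exact absurd ⟨μ * ζ, Z b, h5, h6, h7, h8, rfl⟩ (hB μ Z hZ hZμ hZ0)
    · by_cases h6 : Z b = 0
      · rw [h6]; exact Submodule.zero_mem _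
      have h5 := hm ζ' b P.hl'
      by_cases h7 : μ * ζ' = ζ
      · rw [h7] at h5
        obtain ⟨κ, hκ⟩ := P.line _ h5
        exact hL (Submodule.mem_span_singleton.2 ⟨κ, hκ.symm⟩)
      by_cases h8 : μ * ζ' = ζ'
      · rw [h8] at h5
        obtain ⟨κ, hκ⟩ := P.line' _ h5
        exact hL' (Submodule.mem_span_singleton.2 ⟨κ, hκ.symm⟩)
      · exfalso
        obtain ⟨ν₃, y₃, hy₃, hy₃0, k3, k3', hν23⟩ := dual (μ * ζ') (Z b) h5 h6 h7 h8
        refine hA μ Z hZ hZμ hZ0 ⟨ν₃, y₃, hy₃, hy₃0, k3, k3', ?_⟩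
        have e1 : μ * ζ' * ν₃ = ζ * ζ' := by rw [hν23, P.mul]
        exact mul_right_cancel₀ P.hζ' (by rw [← e1]; ring)
  · obtain ⟨ν₀, x₀, hx₀, hx₀0, hν₀, hν₀', hrel⟩ := hex
    set F := oth γ ζ ζ' with hF
    have tri : ∀ μ, ∀ Z ∈ s, Z ∈ (cj γ).maxGenEigenspace μ →
        fixes (K ∙ l) (K ∙ l') F Z ∨ Z ∈ rot (K ∙ l) (K ∙ l') F ∨ Z ∈ rot (K ∙ l') (K ∙ l) F := by
      intro μ Z hZ hZμ
      have hm : ∀ ν, ∀ x ∈ ge γ ν, Z x ∈ ge γ (μ * ν) := fun ν x hx => map_gen hZμ hx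
      have ext1 : ∀ (a : V) (W : Submodule K V), Z a ∈ W → ∀ x ∈ K ∙ a, Z x ∈ W := by
        intro a W ha x hx
        obtain ⟨t, rfl⟩ := Submodule.mem_span_singleton.1 hx
        rw [map_smul]; exact W.smul_mem _ ha
      by_cases hA : ∃ ν, ∃ x ∈ ge γ ν, x ≠ 0 ∧ ν ≠ ζ ∧ ν ≠ ζ' ∧ μ * ν = ζ
      · exact Or.inr (Or.inl (typeA μ Z hZ hZμ hA).1)
      by_cases hB : ∃ ν, ∃ x ∈ ge γ ν, x ≠ 0 ∧ ν ≠ ζ ∧ ν ≠ ζ' ∧ μ * ζ = ν
      · exact Or.inr (Or.inr (typeB μ Z hZ hZμ hB).1)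
      left
      refine ⟨ext1 l _ ?_, ext1 l' _ ?_, fun f hf => ?_⟩
      · have h5 := hm ζ l P.hl
        by_cases h6 : Z l = 0
        · rw [h6]; exact Submodule.zero_mem _
        by_cases h7 : μ * ζ = ζ
        · rw [h7] at h5
          obtain ⟨κ, hκ⟩ := P.line _ h5
          exact Submodule.mem_span_singleton.2 ⟨κ, hκ.symm⟩
        by_cases h8 : μ * ζ = ζ'
        · -- then `μ ν₀ = ζ`
          refine absurd ⟨ν₀, x₀, hx₀, hx₀0, hν₀, hν₀', ?_⟩ hA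
          apply mul_right_cancel₀ P.hζ
          rw [hrel, ← h8]; ring
        · exact absurd ⟨μ * ζ, Z l, h5, h6, h7, h8, rfl⟩ hB
      · have h5 := hm ζ' l' P.hl'
        by_cases h6 : Z l' = 0
        · rw [h6]; exact Submodule.zero_mem _
        by_cases h7 : μ * ζ' = ζ'
        · rw [h7] at h5
          obtain ⟨κ, hκ⟩ := P.line' _ h5
          exact Submodule.mem_span_singleton.2 ⟨κ, hκ.symm⟩
        by_cases h8 : μ * ζ' = ζ
        · -- then `μ ζ = ν₀`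
          refine absurd ⟨ν₀, x₀, hx₀, hx₀0, hν₀, hν₀', ?_⟩ hB
          apply mul_left_cancel₀ P.hζ'
          rw [← hrel]
          nth_rewrite 2 [← h8]
          ring
        · exfalso
          obtain ⟨ν₃, y₃, hy₃, hy₃0, k3, k3', hν23⟩ := dual (μ * ζ') (Z l') h5 h6 h8 h7
          refine hA ⟨ν₃, y₃, hy₃, hy₃0, k3, k3', ?_⟩
          have e1 : μ * ζ' * ν₃ = ζ * ζ' := by rw [hν23, P.mul]
          exact mul_right_cancel₀ P.hζ' (by rw [← e1]; ring)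
      · refine oth_ind (p := fun f => Z f ∈ oth γ ζ ζ')
          (by rw [map_zero]; exact Submodule.zero_mem _)
          (fun u w hu hw => by rw [map_add]; exact Submodule.add_mem _ hu hw)
          (fun ν₂ k2 k2' u hu => ?_) hf
        have h5 := hm ν₂ u hu
        by_cases h6 : Z u = 0
        · rw [h6]; exact Submodule.zero_mem _
        have hu0 : u ≠ 0 := by rintro rfl; exact h6 (map_zero _)
        by_cases h7 : μ * ν₂ = ζ
        · exact absurd ⟨ν₂, u, hu, hu0, k2, k2', h7⟩ hA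
        by_cases h8 : μ * ν₂ = ζ'
        · exfalso
          obtain ⟨ν₃, y₃, hy₃, hy₃0, k3, k3', hν23⟩ := dual ν₂ u hu hu0 k2 k2'
          have hν2 := hne0 ν₂ u hu hu0
          refine hB ⟨ν₃, y₃, hy₃, hy₃0, k3, k3', ?_⟩
          have e1 : μ * ν₂ * ζ = ν₂ * ν₃ := by rw [h8, mul_comm ζ' ζ, P.mul, hν23]
          exact mul_left_cancel₀ hν2 (by rw [← e1]; ring)
        · exact mem_oth h7 h8 h5
    obtain ⟨T₁, hT₁, hT₁r, hT₁g⟩ := rot_gen (s := s) (l := l) (l' := l') (F := F)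
      (fun Z hZ hZr hZl => no1 Z hZ hZl hZr.2.2)
    obtain ⟨T₂, hT₂, hT₂r, hT₂g⟩ := rot_gen (s := s) (l := l') (l' := l) (F := F)
      (fun Z hZ hZr hZl => no2 Z hZ hZl hZr.2.2)
    have sl : l ∈ K ∙ l := Submodule.mem_span_singleton_self l
    have sl' : l' ∈ K ∙ l' := Submodule.mem_span_singleton_self l'
    refine small {l, l', T₁ l', T₂ l} Finset.card_le_four (by simp) ?_
    set B : Finset V := {l, l', T₁ l', T₂ l} with hB
    have hL : (K ∙ l) ≤ Submodule.span K (B : Set V) :=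
      Submodule.span_mono (by simp [hB])
    have hL' : (K ∙ l') ≤ Submodule.span K (B : Set V) :=
      Submodule.span_mono (by simp [hB])
    have hw : T₁ l' ∈ Submodule.span K (B : Set V) :=
      Submodule.subset_span (by simp [hB])
    have hw' : T₂ l ∈ Submodule.span K (B : Set V) :=
      Submodule.subset_span (by simp [hB])
    intro μ Z hZ hZμ b hb
    have hb' : b = l ∨ b = l' ∨ b = T₁ l' ∨ b = T₂ l := by simpa [hB] using hb
    rcases tri μ Z hZ hZμ with h | h | h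
    · rcases hb' with rfl | rfl | rfl | rfl
      · exact hL (h.1 _ sl)
      · exact hL' (h.2.1 _ sl')
      · obtain ⟨κ, hκ⟩ := hT₁g _ (S.closed _ hZ _ hT₁) (comm_rot h hT₁r)
        obtain ⟨t, ht⟩ := Submodule.mem_span_singleton.1 (h.2.1 _ sl')
        have e1 : Z (T₁ l') = κ • T₁ l' + t • T₁ l' := by
          have e2 := congrArg (fun f => f l') hκ
          simp only [LinearMap.sub_apply, Module.End.mul_apply, LinearMap.smul_apply] at e2
          rw [← ht, map_smul] at e2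
          rw [← e2]; abel
        rw [e1]
        exact Submodule.add_mem _ (Submodule.smul_mem _ _ hw) (Submodule.smul_mem _ _ hw)
      · have h' : fixes (K ∙ l') (K ∙ l) F Z := ⟨h.2.1, h.1, h.2.2⟩
        obtain ⟨κ, hκ⟩ := hT₂g _ (S.closed _ hZ _ hT₂) (comm_rot h' hT₂r)
        obtain ⟨t, ht⟩ := Submodule.mem_span_singleton.1 (h.1 _ sl)
        have e1 : Z (T₂ l) = κ • T₂ l + t • T₂ l := by
          have e2 := congrArg (fun f => f l) hκ
          simp only [LinearMap.sub_apply, Module.End.mul_apply, LinearMap.smul_apply] at e2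
          rw [← ht, map_smul] at e2
          rw [← e2]; abel
        rw [e1]
        exact Submodule.add_mem _ (Submodule.smul_mem _ _ hw') (Submodule.smul_mem _ _ hw')
    · obtain ⟨κ, rfl⟩ := hT₁g Z hZ h
      rcases hb' with rfl | rfl | rfl | rfl
      · exact hL' (h.1 _ sl)
      · exact Submodule.smul_mem _ _ hw
      · exact hL (h.2.2 _ (hT₁r.2.1 _ sl'))
      · exact hL (h.2.2 _ (hT₂r.2.1 _ sl))
    · obtain ⟨κ, rfl⟩ := hT₂g Z hZ h
      rcases hb' with rfl | rfl | rfl | rfl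
      · exact Submodule.smul_mem _ _ hw'
      · exact hL (h.1 _ sl')
      · exact hL' (h.2.2 _ (hT₁r.2.1 _ sl'))
      · exact hL' (h.2.2 _ (hT₂r.2.1 _ sl))

end Setup

end Pool.Agent.Helper66.OTR
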