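import Pool.Agent.Helper66.OTR.Inj

/-!
# All elements of degree one have square zero
-/

namespace Pool.Agent.Helper66.OTR

open LinearMap

set_option linter.unusedSectionVars false

variable {K V : Type*} [Field K] [AddCommGroup V] [Module K V] [FiniteDimensional K V]
variable {s : Submodule K (Module.End K V)} {M F h : Module.End K V}
variable [CharZero K]

namespace Cpt

lemma dh (c : Cpt s M F h) : Dg c.t.H 0 h := by
  unfold Dg
  have : c.t.H * h - h * c.t.H = M * (F * h) - F * (M * h) - (h * M) * F + (h * F) * M := by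
    noncomm_ring
  rw [this, c.Fh, c.Mh, c.hM, c.hF]
  simp only [mul_smul_comm, smul_mul_assoc]
  module

lemma dhM (c : Cpt s M F h) : Dg h 1 M := by
  unfold Dg
  rw [c.hM, c.Mh]
  match_scalars; norm_num

lemma dhF (c : Cpt s M F h) : Dg h (-1) F := by
  unfold Dg
  rw [c.hF, c.Fh]
  match_scalars; norm_num

/-- elements of degree one commuting with `h` -/
lemma sq0 (c : Cpt s M F h) {x : Module.End K V} (hx : x ∈ c.t.A) (h0 : Dg h 0 x) :
    x * x = 0 := by
  have hd : Dg c.t.H 2 (x * x) := (hx.2.mul hx.2).congr (by norm_num)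
  have h1 : h * (x * x) = (2 : K)⁻¹ • (x * x) := by
    rw [← c.t.dg2_lP hd, ← mul_assoc, ← mul_assoc h M F, c.hM]
    simp only [smul_mul_assoc]
  have h2 : (x * x) * h = -(2 : K)⁻¹ • (x * x) := by
    rw [← c.t.dg2_Q hd, mul_assoc, mul_assoc F M h, c.Mh]
    simp only [mul_smul_comm]
  have h3 : h * (x * x) = (x * x) * h := by
    have : Dg h 0 (x * x) := (h0.mul h0).congr (by norm_num)
    unfold Dg at this
    rw [zero_smul] at this
    exact sub_eq_zero.1 this
  rw [h1, h2] at h3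
  have h4 : (1 : K) • (x * x) = (2 : K)⁻¹ • (x * x) - -(2 : K)⁻¹ • (x * x) := by
    match_scalars; norm_num
  rw [h3, sub_self, one_smul] at h4
  exact h4

/-- elements of degree one raising the `h`-degree -/
lemma sq1 (c : Cpt s M F h) (x : Module.End K V) : plus h x * plus h x = 0 := by
  unfold plus
  have : ((2 : K)⁻¹ • 1 + h) * x * ((2 : K)⁻¹ • 1 - h) * (((2 : K)⁻¹ • 1 + h) * x *
      ((2 : K)⁻¹ • 1 - h)) = ((2 : K)⁻¹ • 1 + h) * x * (((2 : K)⁻¹ • 1 - h) *
      ((2 : K)⁻¹ • 1 + h)) * (x * ((2 : K)⁻¹ • 1 - h)) := by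
    simp only [mul_assoc]
  rw [this, half_QP c.half]
  simp

/-- `FaF = 0` for elements of degree one -/
lemma _root_.Pool.Agent.Helper66.OTR.Trip.FaF (t : Trip s M F) {a : Module.End K V} (ha : Dg t.H 1 a) : F * a * F = 0 := by
  have h1 : F * a * F = F * ((M * F) * a * (F * M)) * F := by
    have : F * ((M * F) * a * (F * M)) * F = (F * M * F) * a * (F * M * F) := by noncomm_ring
    rw [this, t.FMF]
  rw [h1, ha.proj t.PH t.HQ (by norm_num)]
  simp

end Cpt

/-- the fourth power of `ad z` when `z^3 = 0` -/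
lemma ad4_mem {s : Submodule K (Module.End K V)} (hs : LieClosed s) {z F : Module.End K V}
    (hz : z ∈ s) (hF : F ∈ s) (hz3 : z * z * z = 0) : z * z * F * (z * z) ∈ s := by
  have h1 := hs _ hz _ hF
  have h2 := hs _ hz _ h1
  have h3 := hs _ hz _ h2
  have h4 := hs _ hz _ h3
  have e : z * (z * (z * (z * F - F * z) - (z * F - F * z) * z) -
      (z * (z * F - F * z) - (z * F - F * z) * z) * z) -
      (z * (z * (z * F - F * z) - (z * F - F * z) * z) -
      (z * (z * F - F * z) - (z * F - F * z) * z) * z) * z =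
      z * (z * z * z) * F - (4 : ℕ) • (z * z * z * F * z) + (6 : ℕ) • (z * z * F * (z * z)) -
      (4 : ℕ) • (z * F * (z * z * z)) + F * z * (z * z * z) := by noncomm_ring
  rw [e, hz3] at h4
  simp only [mul_zero, zero_mul, smul_zero, sub_zero, zero_add, add_zero] at h4
  have h5 := s.smul_mem (6 : K)⁻¹ h4
  rw [← Nat.cast_smul_eq_nsmul K, smul_smul] at h5
  have : (6 : K)⁻¹ * ((6 : ℕ) : K) = 1 := by norm_num
  rwa [this, one_smul] at h5

namespace Setup

variable {ψ : LinearMap.BilinForm K V}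
variable [IsAlgClosed K]

/-- mixed products -/
theorem mixed (S : Setup ψ s) (c : Cpt s M F h) {a b : Module.End K V} (ha : a ∈ c.t.A)
    (h0 : Dg h 0 a) (hb : b ∈ c.t.A) (h1 : Dg h 1 b) (hbb : b * b = 0) :
    a * b + b * a = 0 := by
  have haa := c.sq0 ha h0
  have t := c.t
  obtain ⟨B, hB⟩ : ∃ B, B = a * b + b * a := ⟨_, rfl⟩
  rw [← hB]
  have hBd : Dg t.H 2 B := by
    rw [hB]
    exact ((ha.2.mul hb.2).add (hb.2.mul ha.2)).congr (by norm_num)
  have hz2 : (a + b) * (a + b) = B := by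
    have : (a + b) * (a + b) = a * a + b * b + (a * b + b * a) := by noncomm_ring
    rw [this, haa, hbb, hB]; simp
  have hzd : Dg t.H 1 (a + b) := ha.2.add hb.2
  have hz3 : (a + b) * (a + b) * (a + b) = 0 := by
    refine t.dg_big (d := 3) (((hzd.mul hzd).mul hzd).congr (by norm_num)) ?_ ?_ ?_ ?_ ?_ <;>
      norm_num
  have hBFB := ad4_mem S.closed (s.add_mem ha.1 hb.1) t.hF hz3
  rw [hz2] at hBFB
  obtain ⟨k, hk⟩ := c.j.dg2 S.closed hBFB (((hBd.mul t.dg_F).mul hBd).congr (by norm_num))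
  have hPB : (M * F) * B = B := t.dg2_lP hBd
  have hBQ : B * (F * M) = B := t.dg2_Q hBd
  have htrB : trace K V (F * B) = 0 := by
    have e1 : Adj ψ (F * (a * b)) ((-b) * (-a) * (-F)) :=
      (S.adj t.hF).mul ((S.adj ha.1).mul (S.adj hb.1))
    have e2 := e1.trace_eq S.nd
    have e3 : (-b) * (-a) * (-F) = -(b * a * F) := by noncomm_ring
    rw [e3, map_neg, trace_mul_comm K (b * a) F] at e2
    rw [hB, mul_add, map_add, e2]
    ring
  have hk0 : k = 0 := by
    refine parity t c.odd (Z := F * B) ?_ ?_ ?_ htrB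
    · have : (F * M) * (F * B) = (F * M * F) * B := by noncomm_ring
      rw [this, t.FMF]
    · rw [mul_assoc, hBQ]
    · have : F * B * (F * B) = F * (B * F * B) := by noncomm_ring
      rw [this, hk, mul_smul_comm]
  rw [hk0, zero_smul] at hk
  -- `y = [aFa, b]`
  have haFa : a * F * a ∈ s := S.closed.quad ha.1 haa t.hF
  obtain ⟨ω, hω⟩ := c.j.dg2 S.closed (S.closed _ ha.1 _ hb.1) ((ha.2.comm hb.2).congr (by norm_num))
  have hab : a * b = (2 : K)⁻¹ • (B + ω • M) := by
    rw [hB, ← hω]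
    match_scalars <;> norm_num
  obtain ⟨y, hy⟩ : ∃ y, y = (a * F * a * b - b * (a * F * a)) - (2⁻¹ * ω) • a := ⟨_, rfl⟩
  have hyA : y ∈ c.t.A := by
    rw [hy]
    refine Submodule.sub_mem _ ⟨S.closed _ haFa _ hb.1, ?_⟩ (Submodule.smul_mem _ _ ha)
    exact ((((ha.2.mul t.dg_F).mul ha.2).comm hb.2)).congr (by norm_num)
  have hy0 : Dg h 0 y := by
    rw [hy]
    refine Dg.sub ?_ (h0.smul _)
    exact ((((h0.mul c.dhF).mul h0).comm h1)).congr (by norm_num)
  have hyQ : y * (F * M) = (2 : K)⁻¹ • (a * F * B) := by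
    have e1 : a * F * a * b * (F * M) = (2 : K)⁻¹ • (a * F * B) + (2⁻¹ * ω) • (a * (F * M)) := by
      have : a * F * a * b * (F * M) = a * F * (a * b) * (F * M) := by noncomm_ring
      rw [this, hab]
      simp only [mul_smul_comm, smul_mul_assoc, mul_add, add_mul]
      have e2 : a * F * B * (F * M) = a * F * (B * (F * M)) := by noncomm_ring
      have e3 : a * F * M * (F * M) = a * ((F * M * F) * M) := by noncomm_ring
      rw [e2, hBQ, e3, t.FMF]
      module
    have e2 : b * (a * F * a) * (F * M) = 0 := by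
      have : b * (a * F * a) * (F * M) = b * a * (F * a * F) * M := by noncomm_ring
      rw [this, t.FaF ha.2]; simp
    rw [hy, sub_mul, sub_mul, e1, e2, smul_mul_assoc]
    abel
  have hFBFB : (F * B) * (F * B) = 0 := by
    have : F * B * (F * B) = F * (B * F * B) := by noncomm_ring
    rw [this, hk, mul_zero]
  have hyz : y = 0 := by
    by_contra hne
    obtain ⟨X, hX, hXy⟩ := S.inj c.t c.j c.odd hyA (c.sq0 hyA hy0) hne
    rw [mul_assoc, hyQ] at hXy
    have e1 : F * B = 0 := by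
      have e2 : (F * M) * (F * B) = F * B := by
        have : (F * M) * (F * B) = (F * M * F) * B := by noncomm_ring
        rw [this, t.FMF]
      rw [← e2, ← hXy]
      simp only [mul_smul_comm, smul_mul_assoc]
      have : X * (a * F * B) * (F * B) = X * a * (F * B * (F * B)) := by noncomm_ring
      rw [this, hFBFB]; simp
    apply t.odd_ne c.odd
    rw [← hXy, mul_assoc a F B, e1]
    simp
  have haFB : a * F * B = 0 := by
    rw [hyz, zero_mul] at hyQ
    have := smul_eq_zero.1 hyQ.symm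
    rcases this with h2 | h2
    · norm_num at h2
    · exact h2
  by_cases ha0 : a = 0
  · rw [hB, ha0]; simp
  obtain ⟨X, hX, hXa⟩ := S.inj c.t c.j c.odd ha haa ha0
  have e1 : F * B = 0 := by
    have e2 : (F * M) * (F * B) = F * B := by
      have : (F * M) * (F * B) = (F * M * F) * B := by noncomm_ring
      rw [this, t.FMF]
    rw [← e2, ← hXa]
    have : X * a * (F * M) * (F * B) = X * (a * (F * M * F) * B) := by noncomm_ring
    rw [this, t.FMF, haFB, mul_zero]
  rw [← hPB, mul_assoc, e1, mul_zero]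

/-- **All elements of degree one have square zero.** -/
theorem sq (S : Setup ψ s) (c : Cpt s M F h) {x : Module.End K V} (hx : x ∈ c.t.A) :
    x * x = 0 := by
  have t := c.t
  obtain ⟨x₁, hx₁⟩ : ∃ x₁, x₁ = plus h x := ⟨_, rfl⟩
  obtain ⟨x₀, hx₀⟩ : ∃ x₀, x₀ = x - x₁ := ⟨_, rfl⟩
  have hdh := c.dh
  have hd1 : Dg t.H 0 (1 : Module.End K V) := by unfold Dg; simp
  have h1A : x₁ ∈ c.t.A := by
    rw [hx₁]
    refine ⟨S.closed.plus_mem c.half c.hh hx.1, ?_⟩
    unfold plus
    exact (((((hd1.smul _).add hdh)).mul hx.2).mul ((hd1.smul _).sub hdh)).congr (by norm_num)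
  have h0A : x₀ ∈ c.t.A := by rw [hx₀]; exact Submodule.sub_mem _ hx h1A
  -- `Q x P = 0`
  have hQxP : ((2 : K)⁻¹ • 1 - h) * x * ((2 : K)⁻¹ • 1 + h) = 0 := by
    have e1 : ((2 : K)⁻¹ • 1 - h) * (M * F) = 0 := by
      rw [sub_mul, ← mul_assoc h M F, c.hM, smul_mul_assoc, one_mul, smul_mul_assoc, sub_self]
    have e2 : (F * M) * ((2 : K)⁻¹ • 1 + h) = 0 := by
      rw [mul_add, mul_assoc F M h, c.Mh, mul_smul_comm, mul_one, mul_smul_comm, ← add_smul]
      simp
    have e3 : x = (M * F) * x * (1 - M * F - F * M) + (1 - M * F - F * M) * x * (F * M) :=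
      t.eq_of_dg1 hx.2
    rw [e3, mul_add ((2 : K)⁻¹ • (1 : Module.End K V) - h), add_mul]
    have e4 : ((2 : K)⁻¹ • 1 - h) * ((M * F) * x * (1 - M * F - F * M)) * ((2 : K)⁻¹ • 1 + h) =
        (((2 : K)⁻¹ • 1 - h) * (M * F)) * (x * (1 - M * F - F * M) * ((2 : K)⁻¹ • 1 + h)) := by
      simp only [mul_assoc]
    have e5 : ((2 : K)⁻¹ • 1 - h) * ((1 - M * F - F * M) * x * (F * M)) * ((2 : K)⁻¹ • 1 + h) =
        (((2 : K)⁻¹ • 1 - h) * ((1 - M * F - F * M) * x)) * ((F * M) * ((2 : K)⁻¹ • 1 + h)) := by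
      simp only [mul_assoc]
    rw [e4, e5, e1, e2]
    simp
  have h1d : Dg h 1 x₁ := by
    unfold Dg
    rw [hx₁]
    unfold plus
    have e1 : h * (((2 : K)⁻¹ • 1 + h) * x * ((2 : K)⁻¹ • 1 - h)) =
      (h * ((2 : K)⁻¹ • 1 + h)) * x * ((2 : K)⁻¹ • 1 - h) := by simp only [mul_assoc]
    have e2 : ((2 : K)⁻¹ • 1 + h) * x * ((2 : K)⁻¹ • 1 - h) * h =
      ((2 : K)⁻¹ • 1 + h) * x * (((2 : K)⁻¹ • 1 - h) * h) := by simp only [mul_assoc]
    rw [e1, e2, half_hP c.half, half_Qh c.half, smul_mul_assoc, smul_mul_assoc, mul_smul_comm,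
      ← sub_smul]
    congr 1
    norm_num
  have h0d : Dg h 0 x₀ := by
    have e1 : h * x - x * h = x₁ - ((2 : K)⁻¹ • 1 - h) * x * ((2 : K)⁻¹ • 1 + h) := by
      rw [hx₁]
      unfold plus
      simp only [add_mul, mul_sub, sub_mul, mul_add, smul_mul_assoc, mul_smul_comm, one_mul,
        mul_one]
      match_scalars <;> norm_num
    rw [hQxP, sub_zero] at e1
    unfold Dg at h1d ⊢
    rw [hx₀, mul_sub, sub_mul, zero_smul]
    have e2 : h * x - h * x₁ - (x * h - x₁ * h) = (h * x - x * h) - (h * x₁ - x₁ * h) := by abel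
    rw [e2, e1, h1d, one_smul, sub_self]
  have hx11 : x₁ * x₁ = 0 := by rw [hx₁]; exact c.sq1 x
  have hx00 := c.sq0 h0A h0d
  have e := S.mixed c h0A h0d h1A h1d hx11
  have hx' : x = x₀ + x₁ := by rw [hx₀]; abel
  rw [hx']
  have : (x₀ + x₁) * (x₀ + x₁) = x₀ * x₀ + x₁ * x₁ + (x₀ * x₁ + x₁ * x₀) := by noncomm_ring
  rw [this, hx00, hx11, e]; simp

end Setup

end Pool.Agent.Helper66.OTR
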