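import Pool.Agent.Helper66.OTR.Deg

/-!
# The stability lemma
-/

namespace Pool.Agent.Helper66.OTR

open LinearMap

set_option linter.unusedSectionVars false

variable {K V : Type*} [Field K] [AddCommGroup V] [Module K V] [FiniteDimensional K V]
variable {s : Submodule K (Module.End K V)} {M F : Module.End K V} [CharZero K]

namespace Trip

/-- the elements of degree `1` -/
def A (t : Trip s M F) : Submodule K (Module.End K V) where
  carrier := {x | x ∈ s ∧ Dg t.H 1 x}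
  zero_mem' := ⟨s.zero_mem, by simp [Dg]⟩
  add_mem' := fun h h' => ⟨s.add_mem h.1 h'.1, h.2.add h'.2⟩
  smul_mem' := fun c _ h => ⟨s.smul_mem c h.1, h.2.smul c⟩

lemma mem_A {t : Trip s M F} {x : Module.End K V} : x ∈ t.A ↔ x ∈ s ∧ Dg t.H 1 x := Iff.rfl

/-- elements of negative degree kill the vectors of weight `-1` -/
lemma dg_neg_apply (t : Trip s M F) {Y : Module.End K V} {d : K} (h : Dg t.H d Y)
    (hd : d = -1 ∨ d = -2) {v : V} (hv : (F * M) v = v) : Y v = 0 := by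
  refine t.eq_zero_of_weight (h.apply (t.H_apply hv)) ?_
  rcases hd with rfl | rfl <;> norm_num

theorem stable (hs : LieClosed s) (hirr : Irred s) {t : Trip s M F} (j : t.J) {v₀ : V}
    (hv : (F * M) v₀ = v₀) (hv0 : v₀ ≠ 0)
    (h0 : ∀ Y ∈ s, Dg t.H 0 Y → ∃ c : K, Y v₀ = c • v₀) :
    ∀ v, (F * M) v = v → ∃ c : K, v = c • v₀ := by
  -- weights
  have hHv := t.H_apply hv
  have hFMv : F (M v₀) = v₀ := hv
  have hFv : F v₀ = 0 := by
    have := t.dg_neg_apply t.dg_F (Or.inr rfl) hv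
    exact this
  have hAx : ∀ x, Dg t.H 1 x → t.H (x v₀) = (0 : K) • x v₀ := fun x hx => by
    have := hx.apply hHv
    rwa [show (-1 : K) + 1 = 0 by norm_num] at this
  have hMv : t.H (M v₀) = (1 : K) • M v₀ := by
    have := t.dg_M.apply hHv
    rwa [show (-1 : K) + 2 = 1 by norm_num] at this
  -- the subspace
  set W : Submodule K V := Submodule.span K {v₀} ⊔
    (t.A.map (LinearMap.applyₗ v₀) ⊔ Submodule.span K {M v₀}) with hW
  have hv0W : ∀ c : K, c • v₀ ∈ W := fun c => Submodule.mem_sup_left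
    (Submodule.smul_mem _ _ (Submodule.mem_span_singleton_self _))
  have hMW : ∀ c : K, c • M v₀ ∈ W := fun c => Submodule.mem_sup_right (Submodule.mem_sup_right
    (Submodule.smul_mem _ _ (Submodule.mem_span_singleton_self _)))
  have hAW : ∀ x ∈ t.A, x v₀ ∈ W := fun x hx => Submodule.mem_sup_right (Submodule.mem_sup_left
    (Submodule.mem_map.2 ⟨x, hx, rfl⟩))
  -- homogeneous elements
  have k2 : ∀ Y ∈ s, Dg t.H 2 Y → Y v₀ ∈ W ∧ (∀ x ∈ t.A, Y (x v₀) ∈ W) ∧ Y (M v₀) ∈ W := by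
    intro Y hY hd
    refine ⟨?_, fun x hx => ?_, ?_⟩
    · obtain ⟨c, rfl⟩ := j.dg2 hs hY hd
      exact hMW c
    · rw [t.eq_zero_of_weight (hd.apply (hAx x hx.2)) (by norm_num)]; exact W.zero_mem
    · rw [t.eq_zero_of_weight (hd.apply hMv) (by norm_num)]; exact W.zero_mem
  have km2 : ∀ Y ∈ s, Dg t.H (-2) Y →
      Y v₀ ∈ W ∧ (∀ x ∈ t.A, Y (x v₀) ∈ W) ∧ Y (M v₀) ∈ W := by
    intro Y hY hd
    refine ⟨?_, fun x hx => ?_, ?_⟩
    · rw [t.dg_neg_apply hd (Or.inr rfl) hv]; exact W.zero_mem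
    · rw [t.eq_zero_of_weight (hd.apply (hAx x hx.2)) (by norm_num)]; exact W.zero_mem
    · obtain ⟨c, rfl⟩ := j.dgm2 hs hY hd
      rw [LinearMap.smul_apply, hFMv]
      exact hv0W c
  have km1 : ∀ Y ∈ s, Dg t.H (-1) Y →
      Y v₀ ∈ W ∧ (∀ x ∈ t.A, ∃ c : K, Y (x v₀) = c • v₀) ∧ Y (M v₀) ∈ W := by
    intro Y hY hd
    have hYv : Y v₀ = 0 := t.dg_neg_apply hd (Or.inl rfl) hv
    refine ⟨by rw [hYv]; exact W.zero_mem, fun x hx => ?_, ?_⟩
    · obtain ⟨c, hc⟩ := h0 (Y * x - x * Y) (hs _ hY _ hx.1) ((hd.comm hx.2).congr (by norm_num))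
      refine ⟨c, ?_⟩
      rw [LinearMap.sub_apply, Module.End.mul_apply, Module.End.mul_apply, hYv, map_zero,
        sub_zero] at hc
      exact hc
    · have h1 := hAW (Y * M - M * Y) ⟨hs _ hY _ t.hM, (hd.comm t.dg_M).congr (by norm_num)⟩
      rw [LinearMap.sub_apply, Module.End.mul_apply, Module.End.mul_apply, hYv, map_zero,
        sub_zero] at h1
      exact h1
  have k0 : ∀ Y ∈ s, Dg t.H 0 Y →
      Y v₀ ∈ W ∧ (∀ x ∈ t.A, Y (x v₀) ∈ W) ∧ Y (M v₀) ∈ W := by
    intro Y hY hd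
    obtain ⟨c, hc⟩ := h0 Y hY hd
    refine ⟨by rw [hc]; exact hv0W c, fun x hx => ?_, ?_⟩
    · have h1 := hAW (Y * x - x * Y) ⟨hs _ hY _ hx.1, (hd.comm hx.2).congr (by norm_num)⟩
      rw [LinearMap.sub_apply, Module.End.mul_apply, Module.End.mul_apply, hc, map_smul] at h1
      have h2 := W.add_mem h1 (W.smul_mem c (hAW x hx))
      rwa [sub_add_cancel] at h2
    · obtain ⟨e, he⟩ := j.dg2 hs (hs _ hY _ t.hM) ((hd.comm t.dg_M).congr (by norm_num))
      have h1 := congrArg (fun f => f v₀) he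
      simp only [LinearMap.sub_apply, Module.End.mul_apply, hc, map_smul,
        LinearMap.smul_apply] at h1
      rw [sub_eq_iff_eq_add] at h1
      rw [h1]
      exact W.add_mem (hMW e) (hMW c)
  have k1 : ∀ Y ∈ s, Dg t.H 1 Y →
      Y v₀ ∈ W ∧ (∀ x ∈ t.A, Y (x v₀) ∈ W) ∧ Y (M v₀) ∈ W := by
    intro Y hY hd
    refine ⟨hAW Y ⟨hY, hd⟩, fun x hx => ?_, ?_⟩
    · -- `F Y x v₀ = [[F, Y], x] v₀`
      have hFY := (t.dg_F.comm hd).congr (show (-2 : K) + 1 = -1 by norm_num)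
      obtain ⟨c, hc⟩ := (km1 _ (hs _ t.hF _ hY) hFY).2.1 x hx
      have hFx : F (x v₀) = 0 := t.eq_zero_of_weight (t.dg_F.apply (hAx x hx.2)) (by norm_num)
      rw [LinearMap.sub_apply, Module.End.mul_apply, Module.End.mul_apply, hFx, map_zero,
        sub_zero] at hc
      have hw : t.H (Y (x v₀)) = (1 : K) • Y (x v₀) := by
        have := hd.apply (hAx x hx.2)
        rwa [zero_add] at this
      -- `Y x v₀ = M F Y x v₀`
      have h5 : (M * F) (Y (x v₀)) = Y (x v₀) := by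
        have h6 : t.H * t.H * Y * x = t.H * t.H * Y * x := rfl
        have h7 := congrArg (fun f => f (Y (x v₀))) t.HH
        simp only [Module.End.mul_apply, LinearMap.add_apply] at h7
        have hw' : t.H (t.H (Y (x v₀))) = Y (x v₀) := by rw [hw, one_smul, hw, one_smul]
        have hw2 : M (F (Y (x v₀))) - F (M (Y (x v₀))) = Y (x v₀) := by
          have := hw
          rw [one_smul] at this
          exact this
        have hw3 : M (F (Y (x v₀))) + F (M (Y (x v₀))) = Y (x v₀) := by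
          rw [← h7]; exact hw'
        have h8 : (2 : K) • M (F (Y (x v₀))) = (2 : K) • Y (x v₀) := by
          have h9 := congrArg₂ (· + ·) hw2 hw3
          rw [two_smul, two_smul, ← h9]
          abel
        exact smul_right_injective V (two_ne_zero (α := K)) h8
      rw [← h5, Module.End.mul_apply, hc, map_smul]
      exact hMW c
    · rw [t.eq_zero_of_weight (hd.apply hMv) (by norm_num)]; exact W.zero_mem
  -- stability
  have hst : ∀ X ∈ s, ∀ w ∈ W, X w ∈ W := by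
    intro X hX
    have e := sum_c M F X
    have r2 := k2 _ (t.c2_mem hs hX) (t.dg_c2 X)
    have r1 := k1 _ (t.c1_mem hs hX) (t.dg_c1 X)
    have r0 := k0 _ (t.c0_mem hs hX) (t.dg_c0 X)
    have rm1 := km1 _ (t.cm1_mem hs hX) (t.dg_cm1 X)
    have rm2 := km2 _ (t.cm2_mem hs hX) (t.dg_cm2 X)
    have q1 : X v₀ ∈ W := by
      rw [← e]
      simp only [LinearMap.add_apply]
      exact W.add_mem (W.add_mem (W.add_mem (W.add_mem r2.1 r1.1) r0.1) rm1.1) rm2.1
    have q2 : ∀ x ∈ t.A, X (x v₀) ∈ W := by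
      intro x hx
      obtain ⟨c, hc⟩ := rm1.2.1 x hx
      rw [← e]
      simp only [LinearMap.add_apply]
      refine W.add_mem (W.add_mem (W.add_mem (W.add_mem (r2.2.1 x hx) (r1.2.1 x hx))
        (r0.2.1 x hx)) ?_) (rm2.2.1 x hx)
      rw [hc]; exact hv0W c
    have q3 : X (M v₀) ∈ W := by
      rw [← e]
      simp only [LinearMap.add_apply]
      exact W.add_mem (W.add_mem (W.add_mem (W.add_mem r2.2.2 r1.2.2) r0.2.2) rm1.2.2) rm2.2.2
    intro w hw
    rw [hW, Submodule.mem_sup] at hw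
    obtain ⟨a, ha, b, hb, rfl⟩ := hw
    rw [Submodule.mem_sup] at hb
    obtain ⟨b, hb, c, hc, rfl⟩ := hb
    obtain ⟨α, rfl⟩ := Submodule.mem_span_singleton.1 ha
    obtain ⟨x, hx, rfl⟩ := Submodule.mem_map.1 hb
    obtain ⟨γ, rfl⟩ := Submodule.mem_span_singleton.1 hc
    rw [map_add, map_add, map_smul, map_smul]
    exact W.add_mem (W.smul_mem _ q1) (W.add_mem (q2 x hx) (W.smul_mem _ q3))
  have htop : W = ⊤ := by
    rcases hirr.2 W hst with h | h
    · exfalso
      have := hv0W 1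
      rw [h, one_smul, Submodule.mem_bot] at this
      exact hv0 this
    · exact h
  intro v hv'
  have hvW : v ∈ W := by rw [htop]; trivial
  rw [hW, Submodule.mem_sup] at hvW
  obtain ⟨a, ha, b, hb, rfl⟩ := hvW
  rw [Submodule.mem_sup] at hb
  obtain ⟨b, hb, c, hc, rfl⟩ := hb
  obtain ⟨α, rfl⟩ := Submodule.mem_span_singleton.1 ha
  obtain ⟨x, hx, rfl⟩ := Submodule.mem_map.1 hb
  obtain ⟨γ, rfl⟩ := Submodule.mem_span_singleton.1 hc
  refine ⟨α, ?_⟩
  have hQx : (F * M) (x v₀) = 0 := by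
    have h9 : M (x v₀) = 0 := t.eq_zero_of_weight (t.dg_M.apply (hAx x hx.2)) (by norm_num)
    rw [Module.End.mul_apply, h9, map_zero]
  have hQM : (F * M) (M v₀) = 0 := by
    have h9 : M (M v₀) = 0 := t.eq_zero_of_weight (t.dg_M.apply hMv) (by norm_num)
    rw [Module.End.mul_apply, h9, map_zero]
  rw [← hv', map_add, map_add, map_smul, map_smul, hv, hQM]
  have : (F * M) ((LinearMap.applyₗ v₀) x) = 0 := hQx
  rw [this]; simp

end Trip

end Pool.Agent.Helper66.OTR
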