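import Mathlib

/-!
# The trace form of an irreducible linear Lie algebra
-/

namespace Pool.Agent.Helper66.OTR

open LinearMap

variable {K V : Type*} [Field K] [AddCommGroup V] [Module K V]

/-- `s` is closed under commutators -/
def LieClosed (s : Submodule K (Module.End K V)) : Prop :=
  ∀ X ∈ s, ∀ Y ∈ s, X * Y - Y * X ∈ s

/-- `V` is nonzero, and it has no subspaces stable under `s` other than `0` and `V`. -/
def Irred (s : Submodule K (Module.End K V)) : Prop :=
  Nontrivial V ∧ ∀ W : Submodule K V, (∀ X ∈ s, ∀ w ∈ W, X w ∈ W) → W = ⊥ ∨ W = ⊤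

section
attribute [local instance 100] LieRing.ofAssociativeRing

open LieAlgebra LieModule

/-- The Lie subalgebra -/
def toLie (s : Submodule K (Module.End K V)) (hs : LieClosed s) :
    LieSubalgebra K (Module.End K V) :=
  { s with lie_mem' := fun {X Y} hX hY => hs X hX Y hY }

lemma mem_toLie {s : Submodule K (Module.End K V)} {hs : LieClosed s} {X : Module.End K V} :
    X ∈ toLie s hs ↔ X ∈ s := Iff.rfl

lemma lie_apply' (L : LieSubalgebra K (Module.End K V)) (x : L) (v : V) :
    ⁅x, v⁆ = (x : Module.End K V) v := rfl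

lemma toEnd_eq (L : LieSubalgebra K (Module.End K V)) (x : L) :
    toEnd K L V x = (x : Module.End K V) := rfl

/-- the kernel of the trace form -/
def rad (L : LieSubalgebra K (Module.End K V)) : LieIdeal K L :=
  { carrier := {x | ∀ y : L, trace K V ((x : Module.End K V) * (y : Module.End K V)) = 0}
    zero_mem' := by intro y; simp
    add_mem' := by
      intro a b ha hb y
      simp only [Set.mem_ofPred_eq] at ha hb
      simp [add_mul, ha y, hb y]
    smul_mem' := by
      intro c a ha y
      simp only [Set.mem_ofPred_eq] at ha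
      simp [ha y]
    lie_mem := by
      intro x m hm y
      have h1 := hm ⁅y, x⁆
      have h2 : ((⁅y, x⁆ : L) : Module.End K V) = (y : Module.End K V) * x - x * y := rfl
      have h3 : ((⁅x, m⁆ : L) : Module.End K V) = (x : Module.End K V) * m - m * x := rfl
      rw [h2] at h1
      rw [h3, sub_mul, map_sub]
      rw [mul_sub, map_sub] at h1
      have e1 : trace K V ((x : Module.End K V) * m * y) = trace K V ((m : Module.End K V) * (y * x)) := by
        rw [mul_assoc, trace_mul_comm, mul_assoc]
      rw [e1, mul_assoc]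
      exact h1 }

lemma mem_rad {L : LieSubalgebra K (Module.End K V)} {x : L} :
    x ∈ rad L ↔ ∀ y : L, trace K V ((x : Module.End K V) * (y : Module.End K V)) = 0 := Iff.rfl

variable [CharZero K] [FiniteDimensional K V]

lemma rad_solvable (L : LieSubalgebra K (Module.End K V)) : IsSolvable (rad L) := by
  have h0 : traceForm K (rad L) V = 0 := by
    ext x y
    rw [traceForm_apply_apply]
    exact x.2 y.1
  have h1 := isNilpotent_derivedSeries_of_traceForm_eq_zero h0
  set D : LieIdeal K (rad L) := derivedSeries K (rad L) 1 with hD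
  have h2 : LieRing.IsNilpotent D := by
    rw [LieAlgebra.isNilpotent_iff_forall (R := K)]
    rintro ⟨x, hx⟩
    have h3 := (LieModule.isNilpotent_iff_forall' (R := K)).mp h1 ⟨x, hx⟩
    have h4 : _root_.IsNilpotent ((x : L) : Module.End K V) := h3
    have h5 : _root_.IsNilpotent (ad K L (x : L)) := LieAlgebra.isNilpotent_ad_of_isNilpotent h4
    have h6 : _root_.IsNilpotent (ad K (rad L) x) :=
      LieSubalgebra.isNilpotent_ad_of_isNilpotent_ad ((rad L : LieIdeal K L) : LieSubalgebra K L)
        (x := ⟨(x : L), x.2⟩) h5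
    exact LieSubalgebra.isNilpotent_ad_of_isNilpotent_ad ((D : LieIdeal K (rad L)) :
      LieSubalgebra K (rad L)) (x := ⟨x, hx⟩) h6
  obtain ⟨k, hk⟩ := IsSolvable.solvable K D
  rw [LieIdeal.derivedSeries_eq_bot_iff] at hk
  refine IsSolvable.mk (R := K) (k := k + 1) ?_
  rw [derivedSeries_def, derivedSeriesOfIdeal_add]
  exact hk

/-- **The trace form of an irreducible Lie algebra of trace zero endomorphisms is
nondegenerate.** -/
theorem trace_nondeg [IsAlgClosed K] {s : Submodule K (Module.End K V)} (hs : LieClosed s)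
    (hirr : Irred s) (htr : ∀ X ∈ s, trace K V X = 0) {M : Module.End K V} (hM : M ∈ s)
    (h : ∀ X ∈ s, trace K V (M * X) = 0) : M = 0 := by
  set L := toLie s hs with hL
  have : Nontrivial V := hirr.1
  have i1 : LieModule.IsIrreducible K L V := by
    refine LieModule.IsIrreducible.mk fun N hN => ?_
    have h1 := hirr.2 (N : Submodule K V) (fun X hX w hw => N.lie_mem (x := (⟨X, hX⟩ : L)) hw)
    rcases h1 with h1 | h1
    · exact absurd ((LieSubmodule.toSubmodule_eq_bot N).1 h1) hN
    · exact (LieSubmodule.toSubmodule_eq_top (N := N)).1 h1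
  have i2 : LieModule.IsFaithful K L V := by
    rw [isFaithful_iff']
    intro x hx
    ext v
    exact hx v
  have i3 : HasTrivialRadical K L :=
    hasTrivialRadical_of_isIrreducible_of_isFaithful K L V (fun x => htr _ x.2)
  have i4 := rad_solvable L
  have h2 := HasTrivialRadical.eq_bot_of_isSolvable (R := K) (rad L)
  have h3 : (⟨M, hM⟩ : L) ∈ rad L := mem_rad.2 (fun y => h _ y.2)
  rw [h2, LieSubmodule.mem_bot] at h3
  exact congrArg Subtype.val h3

end

end Pool.Agent.Helper66.OTR
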